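import Pool.Agent.U443.OS.Wt
import Pool.Agent.W832.HR.Cont2

/-!
# The critical walk in a domain is locally close to critical two-sided infinite walks
-/

set_option autoImplicit false

namespace U443.OS

open Finset MeasureTheory Filter Topology U443.LG
open scoped Classical ENNReal
open Pool.Agent.W832.HR (emb lv HD Hd Bd)

noncomputable section

/-- the self-avoiding trajectories from `a` to `b` in `D` -/
def Traj (D : Set (ℤ × ℤ)) (a b : ℤ × ℤ) : Set (List (ℤ × ℤ)) :=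
  {l | l.head? = some a ∧ l.getLast? = some b ∧ l.Nodup ∧ l.IsChain HexAdj ∧ ∀ p ∈ l, p ∈ D}

/-- the sum of `x_c ^ (number of steps)` over the trajectories with the property `E` -/
def Zc (D : Set (ℤ × ℤ)) (a b : ℤ × ℤ) (E : List (ℤ × ℤ) → Prop) : ℝ≥0∞ :=
  ∑' l : {l : List (ℤ × ℤ) // l ∈ Traj D a b ∧ E l}, ENNReal.ofReal (1 / mu) ^ (l.1.length - 1)

/-- the probability of `E` for the critical walk in `D` from `a` to `b` -/
def Pc (D : Set (ℤ × ℤ)) (a b : ℤ × ℤ) (E : List (ℤ × ℤ) → Prop) : ℝ≥0∞ :=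
  Zc D a b E / Zc D a b (fun _ => True)

theorem hex_nbr (p q : ℤ × ℤ) : Pool.Agent.W832.HR.Nbr p q ↔ HexAdj p q := by
  obtain ⟨a, b⟩ := p
  obtain ⟨x, y⟩ := q
  unfold HexAdj Pool.Agent.W832.HR.Nbr
  simp only [Int.even_iff]
  omega

theorem Zc_eq (D : Set (ℤ × ℤ)) (a b : ℤ × ℤ) :
    Zc D a b (fun _ => True) = Pool.Agent.W832.HR.Z D a b := by
  unfold Zc Pool.Agent.W832.HR.Z
  have h : {l : List (ℤ × ℤ) | l ∈ Traj D a b ∧ True} = Pool.Agent.W832.HR.Traj D a b := by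
    ext l
    unfold Traj Pool.Agent.W832.HR.Traj
    simp only [Set.mem_setOf_eq, and_true]
    have e : Pool.Agent.W832.HR.Nbr = HexAdj := by
      funext p q
      exact propext (hex_nbr p q)
    rw [e]
  exact tsum_congr_set_coe (fun l : List (ℤ × ℤ) => ENNReal.ofReal (1 / mu) ^ (l.length - 1)) h

theorem emb_adj {p q : ℤ × ℤ} (h : HexAdj p q) : ‖emb p - emb q‖ ≤ 1 := by
  have h1 : Complex.normSq (emb p - emb q) ≤ 1 := by
    rw [Complex.normSq_apply, Complex.sub_re, Complex.sub_im]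
    obtain ⟨a, b⟩ := p
    obtain ⟨x, y⟩ := q
    unfold HexAdj at h
    simp only at h
    have s3 := Pool.Agent.W832.HR.s3
    unfold emb
    simp only [Int.even_iff]
    rcases h with ⟨rfl, rfl | rfl⟩ | ⟨rfl, ⟨h2, rfl⟩ | ⟨h2, rfl⟩⟩
    · rcases Int.emod_two_eq_zero_or_one (a + y) with h3 | h3
      · have h4 : ¬ (a + 1 + y) % 2 = 0 := by omega
        rw [if_pos h3, if_neg h4]
        push_cast
        nlinarith
      · have h4 : (a + 1 + y) % 2 = 0 := by omega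
        rw [if_neg (by omega), if_pos h4]
        push_cast
        nlinarith
    · rcases Int.emod_two_eq_zero_or_one (a + y) with h3 | h3
      · have h4 : ¬ (a - 1 + y) % 2 = 0 := by omega
        rw [if_pos h3, if_neg h4]
        push_cast
        nlinarith
      · have h4 : (a - 1 + y) % 2 = 0 := by omega
        rw [if_neg (by omega), if_pos h4]
        push_cast
        nlinarith
    · have h4 : ¬ (x + (b + 1)) % 2 = 0 := by omega
      rw [if_pos h2, if_neg h4]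
      push_cast
      nlinarith
    · have h4 : (x + (b - 1)) % 2 = 0 := by omega
      rw [if_neg (by omega), if_pos h4]
      push_cast
      nlinarith
  rw [Complex.normSq_eq_norm_sq] at h1
  nlinarith [norm_nonneg (emb p - emb q)]

theorem emb_chain : ∀ (l : List (ℤ × ℤ)) (p q : ℤ × ℤ), l.head? = some p → l.getLast? = some q →
    l.IsChain HexAdj → ‖emb p - emb q‖ + 1 ≤ l.length := by
  intro l
  induction l with
  | nil => intro p q h; simp at h
  | cons a l ih =>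
    intro p q h1 h2 h3
    simp only [List.head?_cons, Option.some.injEq] at h1
    subst h1
    cases l with
    | nil =>
      simp only [List.getLast?_singleton, Option.some.injEq] at h2
      subst h2
      simp
    | cons b l =>
      rw [List.isChain_cons_cons] at h3
      rw [List.getLast?_cons_cons] at h2
      have h4 := ih b q rfl h2 h3.2
      have h5 := emb_adj h3.1
      have h6 : ‖emb a - emb q‖ ≤ ‖emb a - emb b‖ + ‖emb b - emb q‖ := by
        have := norm_add_le (emb a - emb b) (emb b - emb q)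
        rwa [sub_add_sub_cancel] at this
      rw [List.length_cons]
      push_cast
      linarith

/-- **critical weight of the exceptional trajectories in any set of vertices** -/
theorem dom_weight {K : ℕ} (hth : Thin hexG (kap K)) {ε : ℝ} (hε : 0 < ε)
    (R : Finset (Sym2 (ℤ × ℤ))) : ∃ c C : ℝ, 0 < c ∧ ∀ (D : Set (ℤ × ℤ)) (p q : ℤ × ℤ),
      C ≤ ‖emb p - emb q‖ → Zc D p q (fun l => ¬ Close hexG (1 / mu) (kap K) ε R l) ≤
        ENNReal.ofReal (Real.exp (-(c * ‖emb p - emb q‖))) := by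
  obtain ⟨c, hc, n0, hn0⟩ := bad_all hth hε R
  have hc1 : Real.exp (-c) < 1 := by
    rw [Real.exp_lt_one_iff]
    linarith
  have hpos : 0 < (1 - Real.exp (-c))⁻¹ := by
    rw [inv_pos]
    linarith
  refine ⟨c / 2, n0 + 2 / c * (1 - Real.exp (-c))⁻¹, by positivity, fun D p q hd => ?_⟩
  obtain ⟨d, hdd⟩ : ∃ d : ℝ, d = ‖emb p - emb q‖ := ⟨_, rfl⟩
  rw [← hdd] at hd ⊢
  have h2c : 0 < 2 / c * (1 - Real.exp (-c))⁻¹ := by positivity
  obtain ⟨L, hL⟩ : ∃ L : ℕ, L = ⌈d⌉₊ := ⟨_, rfl⟩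
  have hLd : d ≤ L := by rw [hL]; exact Nat.le_ceil d
  have hLn : n0 ≤ L := by
    have : (n0 : ℝ) ≤ L := by linarith
    exact_mod_cast this
  have h1 := sum_bad (E := fun l => ¬ Close hexG (1 / mu) (kap K) ε R l) hc
    (fun n hn v => by convert hn0 n hn v) p hLn
    {l | l ∈ Traj D p q ∧ ¬ Close hexG (1 / mu) (kap K) ε R l} (by
      rintro l ⟨⟨h2, h3, h4, h5, -⟩, h6⟩
      refine ⟨h6, ⟨h2, h4, h5⟩, ?_⟩
      have h7 := emb_chain l p q h2 h3 h5
      have h8 : 1 ≤ l.length := by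
        rcases l with - | ⟨a, l⟩
        · simp at h2
        · simp
      have h9 : L ≤ l.length - 1 := by
        rw [hL, Nat.ceil_le, hdd]
        push_cast [Nat.cast_sub h8]
        linarith
      omega)
  refine le_trans h1 (ENNReal.ofReal_le_ofReal ?_)
  have h2 : (1 - Real.exp (-c))⁻¹ ≤ Real.exp (c / 2 * d) := by
    have h3 : (1 - Real.exp (-c))⁻¹ ≤ c / 2 * d := by
      have h4 : 2 / c * (1 - Real.exp (-c))⁻¹ ≤ d := by
        have : (0 : ℝ) ≤ n0 := Nat.cast_nonneg _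
        linarith
      calc (1 - Real.exp (-c))⁻¹ = c / 2 * (2 / c * (1 - Real.exp (-c))⁻¹) := by
            field_simp
        _ ≤ _ := by gcongr
    have := Real.add_one_le_exp (c / 2 * d)
    linarith
  calc Real.exp (-(c * L)) * (1 - Real.exp (-c))⁻¹ ≤
        Real.exp (-(c * d)) * Real.exp (c / 2 * d) := by
        apply mul_le_mul _ h2 hpos.le (Real.exp_pos _).le
        rw [Real.exp_le_exp]
        nlinarith
    _ = _ := by
        rw [← Real.exp_add]
        congr 1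
        ring

/-- **the critical walk in a domain** -/
theorem dom_prob {K : ℕ} (hth : Thin hexG (kap K)) {η : ℝ} (hη : 0 < η)
    (R : Finset (Sym2 (ℤ × ℤ))) (W : Set ℂ) (hW : IsOpen W) (hcW : IsConnected W) (a b : ℂ)
    (hab : a ≠ b) (ε ε' : ℝ) (hε : ε = 1 ∨ ε = -1) (hε' : ε' = 1 ∨ ε' = -1) (r : ℝ) (hr : 0 < r)
    (ha : HD a ε r ⊆ W) (hb : HD b ε' r ⊆ W) :
    ∃ K' : Set ℂ, K' ⊆ W ∧ IsCompact K' ∧ ∃ c C : ℝ, 0 < c ∧ 1 ≤ C ∧ ∀ δ : ℝ, 0 < δ → C * δ ≤ 1 →
      ∀ (D : Set (ℤ × ℤ)) (p q : ℤ × ℤ), Bd ε p → Bd ε' q →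
      C * ‖(δ : ℂ) * emb p - a‖ ≤ 1 → C * ‖(δ : ℂ) * emb q - b‖ ≤ 1 →
      (∀ v : ℤ × ℤ, (δ : ℂ) * emb v ∈ K' → v ∈ D) → Hd δ ε r p ⊆ D → Hd δ ε' r q ⊆ D →
      0 < Zc D p q (fun _ => True) ∧
      Pc D p q (fun l => ¬ Close hexG (1 / mu) (kap K) η R l) ≤
        ENNReal.ofReal (Real.exp (-(c / δ))) := by
  obtain ⟨K', h1, h2, C0, hC0, h3⟩ := Pool.Agent.W832.HR.domain_two_point W hW hcW a b hab ε ε' hε
    hε' r hr ha hb
  obtain ⟨c, C1, hc, h4⟩ := dom_weight hth hη R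
  have hN : 0 < ‖a - b‖ := norm_pos_iff.2 (sub_ne_zero.2 hab)
  obtain ⟨N, hNd⟩ : ∃ N : ℝ, N = ‖a - b‖ := ⟨_, rfl⟩
  rw [← hNd] at hN
  obtain ⟨t, ht⟩ : ∃ t : ℝ, t = c * N / 2 := ⟨_, rfl⟩
  have ht0 : 0 < t := by rw [ht]; positivity
  obtain ⟨B, hB⟩ : ∃ B : ℝ, B = (2 / t) ^ C0 * (C0.factorial : ℝ) := ⟨_, rfl⟩
  have hB0 : 0 < B := by rw [hB]; positivity
  obtain ⟨C, hC⟩ : ∃ C : ℝ, C = C0 + 4 / N + 4 * B / t + 2 * |C1| / N := ⟨_, rfl⟩
  have q1 : (1 : ℝ) ≤ C0 := by exact_mod_cast hC0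
  have q2 : 0 < 4 / N := by positivity
  have q3 : 0 < 4 * B / t := by positivity
  have q4 : 0 ≤ 2 * |C1| / N := by positivity
  refine ⟨K', h1, h2, t / 4, C, by positivity, by linarith, ?_⟩
  intro δ hδ hCδ D p q hp hq hpa hqb hKD hpD hqD
  have hδa := norm_nonneg ((δ : ℂ) * emb p - a)
  have hδb := norm_nonneg ((δ : ℂ) * emb q - b)
  have h5 := h3 δ hδ (by nlinarith) D p q hp hq (by nlinarith) (by nlinarith) hKD hpD hqD
  rw [← Zc_eq] at h5
  -- distance
  obtain ⟨d, hd⟩ : ∃ d : ℝ, d = ‖emb p - emb q‖ := ⟨_, rfl⟩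
  have hδd : N / 2 ≤ δ * d := by
    have e1 : δ * d = ‖(δ : ℂ) * emb p - δ * emb q‖ := by
      rw [← mul_sub, norm_mul, Complex.norm_real, Real.norm_eq_abs, abs_of_pos hδ, hd]
    have e2 : a - b = ((δ : ℂ) * emb p - δ * emb q) - ((δ : ℂ) * emb p - a) +
        ((δ : ℂ) * emb q - b) := by ring
    have e3 : N ≤ ‖(δ : ℂ) * emb p - δ * emb q‖ + ‖(δ : ℂ) * emb p - a‖ +
        ‖(δ : ℂ) * emb q - b‖ := by
      rw [hNd, e2]
      refine (norm_add_le _ _).trans ?_
      have := norm_sub_le ((δ : ℂ) * emb p - δ * emb q) ((δ : ℂ) * emb p - a)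
      linarith
    have e4 : 4 / N * ‖(δ : ℂ) * emb p - a‖ ≤ 1 := by nlinarith
    have e5 : 4 / N * ‖(δ : ℂ) * emb q - b‖ ≤ 1 := by nlinarith
    rw [div_mul_eq_mul_div, div_le_iff₀ hN] at e4 e5
    rw [e1]
    linarith
  have hd1 : N / (2 * δ) ≤ d := by
    rw [div_le_iff₀ (by positivity)]
    linarith
  have hdC : C1 ≤ d := by
    refine le_trans ?_ hd1
    have e1 : 2 * |C1| / N * δ ≤ 1 := by nlinarith
    rw [div_mul_eq_mul_div, div_le_iff₀ hN] at e1
    rw [le_div_iff₀ (by positivity)]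
    have := le_abs_self C1
    nlinarith
  have h6 := h4 D p q (by rw [← hd]; exact hdC)
  rw [← hd] at h6
  have hZ0 : 0 < Zc D p q (fun _ => True) :=
    lt_of_lt_of_le (ENNReal.ofReal_pos.2 (by positivity)) h5
  refine ⟨hZ0, ?_⟩
  unfold Pc
  refine (ENNReal.div_le_div h6 h5).trans ?_
  rw [← ENNReal.ofReal_div_of_pos (by positivity)]
  apply ENNReal.ofReal_le_ofReal
  rw [div_le_iff₀ (by positivity)]
  have g1 : Real.exp (-(c * d)) ≤ Real.exp (-(t / δ)) := by
    rw [Real.exp_le_exp]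
    have : t / δ ≤ c * d := by
      calc t / δ = c * (N / (2 * δ)) := by rw [ht]; field_simp
        _ ≤ c * d := by gcongr
    linarith
  have g2 : 1 ≤ B * Real.exp (t / 2 / δ) * δ ^ C0 := by
    have e1 := Real.pow_div_factorial_le_exp (t / 2 / δ) (by positivity) C0
    have e2 : (t / 2 / δ) ^ C0 ≤ (C0.factorial : ℝ) * Real.exp (t / 2 / δ) := by
      rw [div_le_iff₀ (by positivity)] at e1
      linarith
    have e3 : (1 : ℝ) = (2 / t) ^ C0 * (t / 2 / δ) ^ C0 * δ ^ C0 := by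
      rw [← mul_pow, ← mul_pow]
      have : 2 / t * (t / 2 / δ) * δ = 1 := by field_simp
      rw [this, one_pow]
    rw [e3, hB]
    have e4 : 0 ≤ (2 / t) ^ C0 := by positivity
    have e5 : 0 ≤ δ ^ C0 := by positivity
    have e6 : (2 / t) ^ C0 * (t / 2 / δ) ^ C0 ≤
        (2 / t) ^ C0 * (C0.factorial : ℝ) * Real.exp (t / 2 / δ) := by
      rw [mul_assoc]
      exact mul_le_mul_of_nonneg_left e2 e4
    exact mul_le_mul_of_nonneg_right e6 e5
  have g3 : B ≤ Real.exp (t / 4 / δ) := by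
    have e1 : 4 * B / t * δ ≤ 1 := by nlinarith
    rw [div_mul_eq_mul_div, div_le_iff₀ ht0, one_mul] at e1
    have e2 : B ≤ t / 4 / δ := by
      rw [le_div_iff₀ hδ]
      linarith
    have := Real.add_one_le_exp (t / 4 / δ)
    linarith
  have g4 : Real.exp (-(t / δ)) * (B * Real.exp (t / 2 / δ)) ≤ Real.exp (-(t / 4 / δ)) := by
    calc Real.exp (-(t / δ)) * (B * Real.exp (t / 2 / δ)) ≤
          Real.exp (-(t / δ)) * (Real.exp (t / 4 / δ) * Real.exp (t / 2 / δ)) := by gcongr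
      _ = _ := by
          rw [← Real.exp_add, ← Real.exp_add]
          congr 1
          field_simp
          ring
  calc Real.exp (-(c * d)) ≤ Real.exp (-(t / δ)) := g1
    _ ≤ Real.exp (-(t / δ)) * (B * Real.exp (t / 2 / δ) * δ ^ C0) :=
        le_mul_of_one_le_right (Real.exp_pos _).le g2
    _ = Real.exp (-(t / δ)) * (B * Real.exp (t / 2 / δ)) * δ ^ C0 := by ring
    _ ≤ _ := mul_le_mul_of_nonneg_right g4 (by positivity)

end

end U443.OS
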