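import Pool.Agent.U443.OS.Pcs
import Pool.Agent.U443.OS.Dom

/-!
# All long pieces of the critical walk in a domain are close to critical two-sided infinite walks
-/

set_option autoImplicit false

namespace U443.OS

open Finset MeasureTheory Filter Topology U443.LG
open scoped Classical ENNReal
open Pool.Agent.W832.HR (emb lv HD Hd Bd)
open Pool.Agent.U372.HX (bx bx_card mem_bx cl)

noncomputable section

/-- the uniform walk -/
theorem uniform_pieces {Bm : ℕ → List (ℤ × ℤ) → Prop} {c K C : ℝ} (hc : 0 < c) (hK0 : 0 ≤ K)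
    (hC : 1 ≤ C) {n0 : ℕ} (hP : ∀ n m : ℕ, n0 ≤ m → ∀ v : ℤ × ℤ,
      (((WV hexG v n).filter (fun l => Bm m l)).card : ℝ) ≤
        C * Real.exp (K * Real.log (n + 2) ^ 2) * Real.exp (-(c * m)) * mu ^ n) :
    ∃ c' C : ℝ, 0 < c' ∧ ∀ n : ℕ, 2 ≤ n → ∀ m : ℕ, C * Real.log n ^ 2 ≤ m →
      (((WL hexG n).filter (fun l => Bm m l)).card : ℝ) ≤
        Real.exp (-(c' * m)) * (WL hexG n).card := by
  have hl2 : 0 < Real.log 2 := Real.log_pos (by norm_num)
  obtain ⟨A, hA⟩ : ∃ A : ℝ, A = 2 / c * (4 * K + Real.log C / Real.log 2 ^ 2) +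
    n0 / Real.log 2 ^ 2 := ⟨_, rfl⟩
  refine ⟨c / 2, A, by positivity, fun n hn m hm => ?_⟩
  have hn' : (2 : ℝ) ≤ n := by exact_mod_cast hn
  have hln : Real.log 2 ≤ Real.log n := Real.log_le_log (by norm_num) hn'
  have hln2 : Real.log 2 ^ 2 ≤ Real.log n ^ 2 := pow_le_pow_left₀ hl2.le hln 2
  have hlC : 0 ≤ Real.log C := Real.log_nonneg hC
  have hn0 : (0 : ℝ) ≤ n0 := Nat.cast_nonneg _
  have hu1 : (n0 : ℝ) ≤ n0 / Real.log 2 ^ 2 * Real.log n ^ 2 := by
    rw [div_mul_eq_mul_div, le_div_iff₀ (by positivity)]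
    gcongr
  have hu2 : Real.log C ≤ Real.log C / Real.log 2 ^ 2 * Real.log n ^ 2 := by
    rw [div_mul_eq_mul_div, le_div_iff₀ (by positivity)]
    gcongr
  have hm1 : 2 / c * ((4 * K) * Real.log n ^ 2 + Real.log C) + n0 ≤ m := by
    refine le_trans ?_ hm
    rw [hA]
    have e1 : (2 / c * (4 * K + Real.log C / Real.log 2 ^ 2) + n0 / Real.log 2 ^ 2) *
        Real.log n ^ 2 = 2 / c * ((4 * K) * Real.log n ^ 2 +
          Real.log C / Real.log 2 ^ 2 * Real.log n ^ 2) +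
          n0 / Real.log 2 ^ 2 * Real.log n ^ 2 := by ring
    rw [e1]
    gcongr
  have hmn0 : n0 ≤ m := by
    have h1 : 0 ≤ 2 / c * ((4 * K) * Real.log n ^ 2 + Real.log C) := by positivity
    have : (n0 : ℝ) ≤ m := by linarith
    exact_mod_cast this
  have h1 := hP n m hmn0 0
  have e0 : WV hexG 0 n = WL hexG n := rfl
  rw [e0] at h1
  refine h1.trans ?_
  have hlog : Real.log ((n : ℝ) + 2) ^ 2 ≤ 4 * Real.log n ^ 2 := by
    have h2 : Real.log ((n : ℝ) + 2) ≤ 2 * Real.log n := by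
      have h3 : Real.log ((n : ℝ) + 2) ≤ Real.log (n * n) :=
        Real.log_le_log (by linarith) (by nlinarith)
      rw [Real.log_mul (by linarith) (by linarith)] at h3
      linarith
    have h4 : 0 ≤ Real.log ((n : ℝ) + 2) := Real.log_nonneg (by linarith)
    have := pow_le_pow_left₀ h4 h2 2
    linarith
  have h2 : C * Real.exp (K * Real.log (n + 2) ^ 2) * Real.exp (-(c * m)) ≤
      Real.exp (-(c / 2 * m)) := by
    have e1 : C * Real.exp (K * Real.log (n + 2) ^ 2) * Real.exp (-(c * m)) =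
        Real.exp (Real.log C + K * Real.log (n + 2) ^ 2 + -(c * m)) := by
      rw [Real.exp_add, Real.exp_add, Real.exp_log (by linarith)]
    rw [e1, Real.exp_le_exp]
    have h3 : (4 * K) * Real.log n ^ 2 + Real.log C ≤ c / 2 * m := by
      have h4 : 2 / c * ((4 * K) * Real.log n ^ 2 + Real.log C) ≤ m := by linarith
      calc (4 * K) * Real.log n ^ 2 + Real.log C =
            c / 2 * (2 / c * ((4 * K) * Real.log n ^ 2 + Real.log C)) := by field_simp
        _ ≤ _ := by gcongr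
    nlinarith
  calc C * Real.exp (K * Real.log (n + 2) ^ 2) * Real.exp (-(c * m)) * mu ^ n ≤
        Real.exp (-(c / 2 * m)) * mu ^ n := by
        apply mul_le_mul_of_nonneg_right h2
        have := one_le_mu
        positivity
    _ ≤ _ := by
        gcongr
        exact hex_growth.1 n

/-- bounded trajectories -/
theorem Zc_le {D : Set (ℤ × ℤ)} {p q : ℤ × ℤ} {E : List (ℤ × ℤ) → Prop} {N : ℕ}
    (hN : ∀ l ∈ Traj D p q, l.length ≤ N) {B : ℝ} (hB0 : 0 ≤ B)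
    (hB : ∀ n < N, (((WV hexG p n).filter (fun l => E l)).card : ℝ) ≤ B * mu ^ n) :
    Zc D p q E ≤ ENNReal.ofReal (N * B) := by
  have hmu := one_le_mu
  have hmu0 : 0 < mu := lt_of_lt_of_le one_pos hmu
  obtain ⟨x, hx⟩ : ∃ x : ℝ≥0∞, x = ENNReal.ofReal (1 / mu) := ⟨_, rfl⟩
  obtain ⟨F, hF⟩ : ∃ F : Set (List (ℤ × ℤ)), F = {l | l ∈ Traj D p q ∧ E l} := ⟨_, rfl⟩
  have e0 : Zc D p q E = ∑' l : F, x ^ (l.1.length - 1) := by
    rw [hF, hx]
    rfl
  rw [e0]
  obtain ⟨g, hg⟩ : ∃ g : ℕ → List (ℤ × ℤ) → ℝ≥0∞, g = fun n l =>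
      if n < N ∧ l ∈ (WV hexG p n).filter (fun l => E l) then x ^ n else 0 := ⟨_, rfl⟩
  have h1 : ∑' l : F, x ^ (l.1.length - 1) ≤ ∑' l : List (ℤ × ℤ), ∑' n, g n l := by
    rw [tsum_subtype F (fun l => x ^ (l.length - 1))]
    refine ENNReal.tsum_le_tsum fun l => ?_
    by_cases hl : l ∈ F
    · rw [Set.indicator_of_mem hl]
      rw [hF] at hl
      obtain ⟨h2, h3⟩ := hl
      have h4 := hN l h2
      have h5 : 1 ≤ l.length := by
        have := h2.1
        rcases l with - | ⟨a, l⟩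
        · simp at this
        · simp
      refine le_trans ?_ (ENNReal.le_tsum (l.length - 1))
      rw [hg]
      simp only
      rw [if_pos]
      refine ⟨by omega, ?_⟩
      rw [Finset.mem_filter, mem_WV]
      exact ⟨⟨⟨h2.1, h2.2.2.1, h2.2.2.2.1⟩, by omega⟩, h3⟩
    · rw [Set.indicator_of_notMem hl]
      exact zero_le
  refine h1.trans ?_
  rw [ENNReal.tsum_comm]
  have h2 : ∀ n, ∑' l, g n l ≤ if n < N then ENNReal.ofReal B else 0 := by
    intro n
    by_cases hn : n < N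
    · rw [if_pos hn, tsum_eq_sum (s := (WV hexG p n).filter (fun l => E l))]
      · have h3 : ∀ l ∈ (WV hexG p n).filter (fun l => E l), g n l = x ^ n := by
          intro l hl
          rw [hg]
          simp only
          rw [if_pos ⟨hn, hl⟩]
        rw [Finset.sum_congr rfl h3, Finset.sum_const, nsmul_eq_mul]
        have h4 := hB n hn
        have e1 : x ^ n = ENNReal.ofReal ((1 / mu) ^ n) := by
          rw [hx, ENNReal.ofReal_pow (by positivity)]
        rw [e1, ← ENNReal.ofReal_natCast, ← ENNReal.ofReal_mul (Nat.cast_nonneg _)]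
        apply ENNReal.ofReal_le_ofReal
        calc (((WV hexG p n).filter (fun l => E l)).card : ℝ) * (1 / mu) ^ n ≤
            (B * mu ^ n) * (1 / mu) ^ n := by gcongr
          _ = B := by
            rw [mul_assoc, ← mul_pow, mul_one_div_cancel hmu0.ne', one_pow, mul_one]
      · intro l hl
        rw [hg]
        simp only
        rw [if_neg]
        exact fun h5 => hl h5.2
    · rw [if_neg hn]
      have h3 : ∀ l, g n l = 0 := by
        intro l
        rw [hg]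
        simp only
        rw [if_neg]
        exact fun h5 => hn h5.1
      simp [h3]
  refine (ENNReal.tsum_le_tsum h2).trans ?_
  rw [tsum_eq_sum (s := Finset.range N) (fun n hn => if_neg (by
    rw [Finset.mem_range] at hn
    exact hn))]
  rw [Finset.sum_congr rfl (fun n hn => if_pos (Finset.mem_range.1 hn)), Finset.sum_const,
    Finset.card_range, nsmul_eq_mul, ENNReal.ofReal_mul (Nat.cast_nonneg _),
    ENNReal.ofReal_natCast]

/-- number of the vertices -/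
theorem traj_len {M δ : ℝ} (hδ : 0 < δ) (hδ1 : δ ≤ 1) {D : Set (ℤ × ℤ)}
    (hD : ∀ v ∈ D, ‖(δ : ℂ) * emb v‖ ≤ M) : ∃ N : ℕ, (N : ℝ) ≤ ((4 * |M| + 5) / δ) ^ 2 ∧
      ∀ p q : ℤ × ℤ, ∀ l ∈ Traj D p q, l.length ≤ N := by
  obtain ⟨B, hB⟩ : ∃ B : ℕ, B = ⌈2 * |M| / δ + 1⌉₊ := ⟨_, rfl⟩
  have hB1 : 2 * |M| / δ + 1 ≤ B := by rw [hB]; exact Nat.le_ceil _
  have hB2 : (B : ℝ) ≤ 2 * |M| / δ + 2 := by
    rw [hB]
    have := (Nat.ceil_lt_add_one (show (0 : ℝ) ≤ 2 * |M| / δ + 1 by positivity)).le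
    linarith
  have hsub : ∀ v ∈ D, v ∈ bx (B : ℤ) 0 := by
    intro v hv
    have h1 := hD v hv
    rw [norm_mul, Complex.norm_real, Real.norm_eq_abs, abs_of_pos hδ] at h1
    have h2 : ‖emb v‖ ≤ |M| / δ := by
      rw [le_div_iff₀ hδ]
      have := le_abs_self M
      linarith
    have h3 := (Complex.abs_re_le_norm (emb v)).trans h2
    have h4 := (Complex.abs_im_le_norm (emb v)).trans h2
    have e1 : (emb v).re = Real.sqrt 3 / 2 * v.1 := rfl
    have e2 : (emb v).im = 3 / 2 * v.2 + if Even (v.1 + v.2) then 1 / 2 else 0 := rfl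
    rw [e1] at h3
    rw [e2] at h4
    have s1 := Pool.Agent.W832.HR.s3_ge
    have hMδ : 0 ≤ |M| / δ := by positivity
    have e3 : 2 * |M| / δ = 2 * (|M| / δ) := by ring
    rw [e3] at hB1
    have h5 : |(v.1 : ℝ)| ≤ B := by
      rw [abs_mul, abs_of_nonneg (show (0 : ℝ) ≤ Real.sqrt 3 / 2 by positivity)] at h3
      have h6 : 1 / 2 * |(v.1 : ℝ)| ≤ Real.sqrt 3 / 2 * |(v.1 : ℝ)| := by
        gcongr
      linarith
    have h6 : |(v.2 : ℝ)| ≤ B := by
      rw [abs_le] at h4 ⊢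
      split_ifs at h4 with h7
      · constructor <;> linarith
      · constructor <;> linarith
    rw [mem_bx]
    unfold cl
    simp only [Prod.fst_zero, Prod.snd_zero, sub_zero]
    constructor
    · have : |v.1| ≤ (B : ℤ) := by
        have h8 : ((|v.1| : ℤ) : ℝ) ≤ ((B : ℤ) : ℝ) := by
          push_cast
          exact h5
        exact_mod_cast h8
      exact this
    · have : |v.2| ≤ (B : ℤ) := by
        have h8 : ((|v.2| : ℤ) : ℝ) ≤ ((B : ℤ) : ℝ) := by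
          push_cast
          exact h6
        exact_mod_cast h8
      exact this
  refine ⟨(2 * B + 1) ^ 2, ?_, fun p q l hl => ?_⟩
  · push_cast
    apply pow_le_pow_left₀ (by positivity)
    rw [le_div_iff₀ hδ]
    have h1 : (B : ℝ) * δ ≤ 2 * |M| + 2 * δ := by
      have h2 := mul_le_mul_of_nonneg_right hB2 hδ.le
      rw [add_mul, div_mul_cancel₀ _ hδ.ne'] at h2
      exact h2
    linarith
  · have h1 : l.toFinset ⊆ bx (B : ℤ) 0 := by
      intro v hv
      rw [List.mem_toFinset] at hv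
      exact hsub v (hl.2.2.2.2 v hv)
    have h2 := Finset.card_le_card h1
    rw [List.toFinset_card_of_nodup hl.2.2.1, bx_card] at h2
    exact_mod_cast h2

/-- **the critical walk in a domain: all pieces** -/
theorem dom_pieces {Bm : ℕ → List (ℤ × ℤ) → Prop} {c K Cw : ℝ} (hc : 0 < c) (hK0 : 0 ≤ K)
    (hCw : 1 ≤ Cw) {n0 : ℕ} (hP : ∀ n m : ℕ, n0 ≤ m → ∀ v : ℤ × ℤ,
      (((WV hexG v n).filter (fun l => Bm m l)).card : ℝ) ≤
        Cw * Real.exp (K * Real.log (n + 2) ^ 2) * Real.exp (-(c * m)) * mu ^ n)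
    (W : Set ℂ) (hW : IsOpen W) (hcW : IsConnected W) (a b : ℂ)
    (hab : a ≠ b) (ε ε' : ℝ) (hε : ε = 1 ∨ ε = -1) (hε' : ε' = 1 ∨ ε' = -1) (r : ℝ) (hr : 0 < r)
    (ha : HD a ε r ⊆ W) (hb : HD b ε' r ⊆ W) (M : ℝ) :
    ∃ K' : Set ℂ, K' ⊆ W ∧ IsCompact K' ∧ ∃ c' C : ℝ, 0 < c' ∧ 1 ≤ C ∧
      ∀ δ : ℝ, 0 < δ → C * δ ≤ 1 →
      ∀ (D : Set (ℤ × ℤ)) (p q : ℤ × ℤ), Bd ε p → Bd ε' q →
      C * ‖(δ : ℂ) * emb p - a‖ ≤ 1 → C * ‖(δ : ℂ) * emb q - b‖ ≤ 1 →
      (∀ v : ℤ × ℤ, (δ : ℂ) * emb v ∈ K' → v ∈ D) → Hd δ ε r p ⊆ D → Hd δ ε' r q ⊆ D →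
      (∀ v ∈ D, ‖(δ : ℂ) * emb v‖ ≤ M) →
      0 < Zc D p q (fun _ => True) ∧ Zc D p q (fun _ => True) < ⊤ ∧
      (∀ l ∈ Traj D p q, 1 / (C * δ) ≤ l.length - 1) ∧
      ∀ m : ℕ, C * Real.log (1 / δ) ^ 2 ≤ m →
      Pc D p q (fun l => Bm m l) ≤ ENNReal.ofReal (Real.exp (-(c' * m))) := by
  obtain ⟨K', h1, h2, C0, hC0, h3⟩ := Pool.Agent.W832.HR.domain_two_point W hW hcW a b hab ε ε' hε
    hε' r hr ha hb
  obtain ⟨K2, C2, hK20, hC2, hW2⟩ := all_count
  have hN : 0 < ‖a - b‖ := norm_pos_iff.2 (sub_ne_zero.2 hab)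
  obtain ⟨N, hNd⟩ : ∃ N : ℝ, N = ‖a - b‖ := ⟨_, rfl⟩
  rw [← hNd] at hN
  obtain ⟨A, hA⟩ : ∃ A : ℝ, A = 4 * |M| + 5 := ⟨_, rfl⟩
  have hA0 : 5 ≤ A := by rw [hA]; have := abs_nonneg M; linarith
  obtain ⟨Q, hQ⟩ : ∃ Q : ℝ, Q = 9 * K + 3 + Cw + C0 := ⟨_, rfl⟩
  have hC0' : (1 : ℝ) ≤ C0 := by exact_mod_cast hC0
  have hQ0 : 0 < Q := by rw [hQ]; linarith
  obtain ⟨C, hC⟩ : ∃ C : ℝ, C = C0 + 4 / N + (A ^ 2 + 2) + 2 / c * Q + n0 := ⟨_, rfl⟩
  have q1 : 0 < 4 / N := by positivity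
  have q2 : 0 < A ^ 2 + 2 := by positivity
  have q3 : 0 < 2 / c * Q := by positivity
  have q4 : (0 : ℝ) ≤ n0 := Nat.cast_nonneg _
  have hC1 : 1 ≤ C := by linarith
  refine ⟨K', h1, h2, c / 2, C, by positivity, hC1, ?_⟩
  intro δ hδ hCδ D p q hp hq hpa hqb hKD hpD hqD hDM
  have hδa := norm_nonneg ((δ : ℂ) * emb p - a)
  have hδb := norm_nonneg ((δ : ℂ) * emb q - b)
  have h5 := h3 δ hδ (by nlinarith) D p q hp hq (by nlinarith) (by nlinarith) hKD hpD hqD
  rw [← Zc_eq] at h5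
  have hδ1 : δ ≤ 1 := by nlinarith
  -- the mesh
  obtain ⟨L, hL⟩ : ∃ L : ℝ, L = Real.log (1 / δ) := ⟨_, rfl⟩
  have hAδ : A ^ 2 + 2 ≤ 1 / δ := by
    rw [le_div_iff₀ hδ]
    nlinarith
  have hL1 : 1 ≤ L := by
    rw [hL, Real.le_log_iff_exp_le (by positivity)]
    have := Real.exp_one_lt_d9
    nlinarith
  obtain ⟨Nv, hNv, hlen⟩ := traj_len hδ hδ1 hDM
  rw [← hA] at hNv
  have hlogN : Real.log ((Nv : ℝ) + 2) ≤ 3 * L := by
    have g1 : (Nv : ℝ) + 2 ≤ (1 / δ) ^ 3 := by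
      have g2 : (1 : ℝ) ≤ 1 / δ := by rw [le_div_iff₀ hδ]; linarith
      calc (Nv : ℝ) + 2 ≤ (A / δ) ^ 2 + 2 * (1 / δ) ^ 2 := by nlinarith
        _ = (A ^ 2 + 2) * (1 / δ) ^ 2 := by ring
        _ ≤ 1 / δ * (1 / δ) ^ 2 := by gcongr
        _ = _ := by ring
    have g3 := Real.log_le_log (by positivity) g1
    rw [Real.log_pow] at g3
    rw [hL]
    push_cast at g3
    exact g3
  have hNv0 : (0 : ℝ) ≤ Nv := Nat.cast_nonneg _
  have hlogN0 : 0 ≤ Real.log ((Nv : ℝ) + 2) := Real.log_nonneg (by linarith)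
  have hNexp : (Nv : ℝ) ≤ Real.exp (3 * L ^ 2) := by
    have g1 : (Nv : ℝ) + 2 = Real.exp (Real.log ((Nv : ℝ) + 2)) := by
      rw [Real.exp_log (by linarith)]
    have g2 : Real.exp (Real.log ((Nv : ℝ) + 2)) ≤ Real.exp (3 * L ^ 2) := by
      rw [Real.exp_le_exp]
      nlinarith
    linarith
  have hlogn : ∀ n : ℕ, n < Nv → Real.log ((n : ℝ) + 2) ^ 2 ≤ Real.log ((Nv : ℝ) + 2) ^ 2 := by
    intro n hn
    have g1 : (n : ℝ) ≤ Nv := by exact_mod_cast hn.le
    have g2 : (0 : ℝ) ≤ n := Nat.cast_nonneg _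
    apply pow_le_pow_left₀ (Real.log_nonneg (by linarith))
    exact Real.log_le_log (by linarith) (by linarith)
  have hZ0 : 0 < Zc D p q (fun _ => True) :=
    lt_of_lt_of_le (ENNReal.ofReal_pos.2 (by positivity)) h5
  have hmu := one_le_mu
  have hZt : Zc D p q (fun _ => True) < ⊤ := by
    refine lt_of_le_of_lt (Zc_le (hlen p q) (B := C2 * Real.exp (K2 * Real.log ((Nv : ℝ) + 2) ^ 2))
      (by positivity) (fun n hn => ?_)) ENNReal.ofReal_lt_top
    have g1 : (((WV hexG p n).filter (fun _ => True)).card : ℝ) ≤ (WV hexG p n).card := by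
      exact_mod_cast Finset.card_filter_le _ _
    refine le_trans ?_ ((g1.trans (hW2 n p)).trans ?_)
    · apply le_of_eq
      congr!
    · have := hlogn n hn
      gcongr
  -- distance
  obtain ⟨d, hd⟩ : ∃ d : ℝ, d = ‖emb p - emb q‖ := ⟨_, rfl⟩
  have hδd : N / 2 ≤ δ * d := by
    have e1 : δ * d = ‖(δ : ℂ) * emb p - δ * emb q‖ := by
      rw [← mul_sub, norm_mul, Complex.norm_real, Real.norm_eq_abs, abs_of_pos hδ, hd]
    have e2 : a - b = ((δ : ℂ) * emb p - δ * emb q) - ((δ : ℂ) * emb p - a) +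
        ((δ : ℂ) * emb q - b) := by ring
    have e3 : N ≤ ‖(δ : ℂ) * emb p - δ * emb q‖ + ‖(δ : ℂ) * emb p - a‖ +
        ‖(δ : ℂ) * emb q - b‖ := by
      rw [hNd, e2]
      refine (norm_add_le _ _).trans ?_
      have := norm_sub_le ((δ : ℂ) * emb p - δ * emb q) ((δ : ℂ) * emb p - a)
      linarith
    have e4 : 4 / N * ‖(δ : ℂ) * emb p - a‖ ≤ 1 := by nlinarith
    have e5 : 4 / N * ‖(δ : ℂ) * emb q - b‖ ≤ 1 := by nlinarith
    rw [div_mul_eq_mul_div, div_le_iff₀ hN] at e4 e5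
    rw [e1]
    linarith
  refine ⟨hZ0, hZt, fun l hl => ?_, fun m hm => ?_⟩
  · have g1 := emb_chain l p q hl.1 hl.2.1 hl.2.2.2.1
    rw [← hd] at g1
    have g2 : 1 / (C * δ) ≤ d := by
      rw [div_le_iff₀ (by positivity)]
      have g3 : 1 ≤ C * (N / 2) := by
        have g4 : 4 / N * N = 4 := div_mul_cancel₀ 4 hN.ne'
        nlinarith
      nlinarith
    linarith
  -- the bad trajectories
  rw [← hL] at hm
  have hmn0 : n0 ≤ m := by
    have g1 : (n0 : ℝ) ≤ m := by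
      have g2 : (1 : ℝ) ≤ L ^ 2 := by nlinarith
      nlinarith
    exact_mod_cast g1
  have h6 := Zc_le (hlen p q) (E := fun l => Bm m l)
    (B := Cw * Real.exp (K * Real.log ((Nv : ℝ) + 2) ^ 2) * Real.exp (-(c * m)))
    (by positivity) (fun n hn => (hP n m hmn0 p).trans (by
      have := hlogn n hn
      gcongr))
  unfold Pc
  refine (ENNReal.div_le_div h6 h5).trans ?_
  rw [← ENNReal.ofReal_div_of_pos (by positivity)]
  apply ENNReal.ofReal_le_ofReal
  rw [div_le_iff₀ (by positivity)]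
  have hδe : δ ^ C0 = Real.exp (-(C0 * L)) := by
    rw [hL, one_div, Real.log_inv, mul_neg, neg_neg, Real.exp_nat_mul, Real.exp_log hδ]
  have hCe : Cw ≤ Real.exp (Cw * L ^ 2) := by
    have g1 := Real.add_one_le_exp (Cw * L ^ 2)
    have g2 : (1 : ℝ) ≤ L ^ 2 := by nlinarith
    nlinarith
  have hKe : K * Real.log ((Nv : ℝ) + 2) ^ 2 ≤ 9 * K * L ^ 2 := by
    have g1 := pow_le_pow_left₀ hlogN0 hlogN 2
    nlinarith
  rw [hδe, ← Real.exp_add]
  calc (Nv : ℝ) * (Cw * Real.exp (K * Real.log ((Nv : ℝ) + 2) ^ 2) * Real.exp (-(c * m))) ≤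
        Real.exp (3 * L ^ 2) * (Real.exp (Cw * L ^ 2) * Real.exp (9 * K * L ^ 2) *
          Real.exp (-(c * m))) := by gcongr
    _ = Real.exp (3 * L ^ 2 + Cw * L ^ 2 + 9 * K * L ^ 2 - c * m) := by
        rw [← Real.exp_add, ← Real.exp_add, ← Real.exp_add]
        congr 1
        ring
    _ ≤ _ := by
        rw [Real.exp_le_exp]
        have g1 : 2 / c * Q * L ^ 2 ≤ m := by
          refine le_trans ?_ hm
          have g2 : 2 / c * Q ≤ C := by linarith
          exact mul_le_mul_of_nonneg_right g2 (sq_nonneg L)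
        have g3 : Q * L ^ 2 ≤ c / 2 * m := by
          calc Q * L ^ 2 = c / 2 * (2 / c * Q * L ^ 2) := by field_simp
            _ ≤ _ := by gcongr
        have g5 : L ≤ L ^ 2 := by nlinarith
        have g4 : (C0 : ℝ) * L ≤ C0 * L ^ 2 := mul_le_mul_of_nonneg_left g5 (by linarith)
        rw [hQ] at g3
        nlinarith

end

end U443.OS
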