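import Pool.Agent.U443.OS.Sep
import Pool.Agent.U443.OS.Pdm

/-!
# The whole walk seen from its pieces: exponential bounds
-/

set_option autoImplicit false

namespace U443.OS

open Finset MeasureTheory Filter Topology U443.LG
open scoped Classical ENNReal
open Pool.Agent.U372.HX (Nbr WW nB Nr cN KW KW_ge Nr_cl Nr_sub bx bx_card mem_bx cl)

noncomputable section

theorem poly_le (n : ℕ) : ((n : ℝ) + 1) ^ 2 ≤ Real.exp (2 / Real.log 2 * Real.log (n + 2) ^ 2) := by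
  have hl2 : 0 < Real.log 2 := Real.log_pos (by norm_num)
  have hn0 : (0 : ℝ) ≤ n := Nat.cast_nonneg _
  have hL : Real.log 2 ≤ Real.log ((n : ℝ) + 2) := Real.log_le_log (by norm_num) (by linarith)
  have e2 : Real.exp (2 * Real.log ((n : ℝ) + 2)) = (n + 2) ^ 2 := by
    have : 2 * Real.log ((n : ℝ) + 2) = ((2 : ℕ) : ℝ) * Real.log (n + 2) := by norm_num
    rw [this, Real.exp_nat_mul, Real.exp_log (by linarith)]
  calc ((n : ℝ) + 1) ^ 2 ≤ (n + 2) ^ 2 := by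
        gcongr
        norm_num
    _ = Real.exp (2 * Real.log ((n : ℝ) + 2)) := e2.symm
    _ ≤ _ := by
        rw [Real.exp_le_exp, div_mul_eq_mul_div, le_div_iff₀ hl2]
        nlinarith

/-- there is a piece with at least `m` steps from which the walk does not look like a critical
two-sided infinite walk -/
def Odd' (K : ℕ) (ε : ℝ) (R : Finset (Sym2 (ℤ × ℤ))) (m : ℕ) (l : List (ℤ × ℤ)) : Prop :=
  ∃ β, β <:+: l ∧ m + 1 ≤ β.length ∧ ¬ CloseIn hexG (1 / mu) (kap K) ε R l β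

theorem pieces_in {K0 : ℕ} (hth : Thin hexG (kap K0)) {ε : ℝ} (hε : 0 < ε)
    (R : Finset (Sym2 (ℤ × ℤ))) : ∃ c K C : ℝ, 0 < c ∧ 0 ≤ K ∧ 1 ≤ C ∧ ∃ n0 : ℕ,
      ∀ n m : ℕ, n0 ≤ m → ∀ v : ℤ × ℤ,
      (((WV hexG v n).filter (fun l => Odd' K0 ε R m l)).card : ℝ) ≤
        C * Real.exp (K * Real.log (n + 2) ^ 2) * Real.exp (-(c * m)) * mu ^ n := by
  obtain ⟨c1, hc1, n1, h1⟩ := bad_all hth (half_pos hε) R
  obtain ⟨Ka, Ca, hKa, hCa, hPa⟩ := pieces_count
    (E := fun l => ¬ Close hexG (1 / mu) (kap K0) (ε / 2) R l) hc1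
    (fun n hn v => by convert h1 n hn v)
  obtain ⟨Kb, Cb, hKb, hCb, hw⟩ := all_count
  obtain ⟨k, hk⟩ := radius hexG R
  have hKW : (0 : ℝ) < (KW : ℝ) ^ (k + 1) := by
    have h2 := KW_pos k
    exact_mod_cast h2
  obtain ⟨σ, hσ⟩ : ∃ σ : ℝ, σ = ε / (4 * (1 + (2 * k + 1) ^ 2) * (KW : ℝ) ^ (k + 1)) := ⟨_, rfl⟩
  have hσ0 : 0 < σ := by rw [hσ]; positivity
  have hσ1 : (1 + (2 * (k : ℝ) + 1) ^ 2) * ((KW : ℝ) ^ (k + 1) * σ) ≤ ε / 4 := by
    rw [hσ]
    apply le_of_eq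
    field_simp
  have hmu := one_le_mu
  have hmu0 : 0 < mu := lt_of_lt_of_le one_pos hmu
  have hl2 : 0 < Real.log 2 := Real.log_pos (by norm_num)
  obtain ⟨c, hc⟩ : ∃ c : ℝ, c = min c1 σ := ⟨_, rfl⟩
  have hcc1 : c ≤ c1 := by rw [hc]; exact min_le_left _ _
  have hcσ : c ≤ σ := by rw [hc]; exact min_le_right _ _
  refine ⟨c, Ka + 3 * Kb + 2 / Real.log 2, Ca + 6 * Cb ^ 3, by rw [hc]; exact lt_min hc1 hσ0,
    by positivity, by nlinarith [show (0 : ℝ) ≤ Cb ^ 3 by positivity],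
    max n1 (⌈1 / σ⌉₊ + 1), fun n m hm v => ?_⟩
  have hm1 : n1 ≤ m := le_trans (le_max_left _ _) hm
  have hm2 : ⌈1 / σ⌉₊ + 1 ≤ m := le_trans (le_max_right _ _) hm
  have hm3 : 1 ≤ m := by omega
  have hσm : 1 ≤ σ * m := by
    have h2 : 1 / σ ≤ (⌈1 / σ⌉₊ : ℝ) := Nat.le_ceil _
    have h3 : (⌈1 / σ⌉₊ : ℝ) ≤ m := by exact_mod_cast (show ⌈1 / σ⌉₊ ≤ m by omega)
    rw [mul_comm, ← div_le_iff₀ hσ0]
    linarith
  have hn0 : (0 : ℝ) ≤ n := Nat.cast_nonneg _
  have hm0 : (0 : ℝ) ≤ m := Nat.cast_nonneg _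
  obtain ⟨L, hL⟩ : ∃ L : ℝ, L = Real.log ((n : ℝ) + 2) ^ 2 := ⟨_, rfl⟩
  have hL0 : 0 ≤ L := by rw [hL]; positivity
  obtain ⟨T, hT⟩ : ∃ T : Finset (ℕ × ℕ), T = ((Finset.range (n + 1)) ×ˢ (Finset.range (n + 1))).filter
      (fun q => m ≤ q.2 ∧ q.1 + q.2 ≤ n) := ⟨_, rfl⟩
  have hsub : (WV hexG v n).filter (fun l => Odd' K0 ε R m l) ⊆
      (WV hexG v n).filter (fun l => HasP m
        (fun l => ¬ Close hexG (1 / mu) (kap K0) (ε / 2) R l) l) ∪
      T.biUnion (fun q => (WV hexG v n).filter (fun l => Crowd k (σ * m) q.1 q.2 l)) := by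
    intro l hl
    rw [Finset.mem_filter] at hl
    obtain ⟨hl1, hl2⟩ := hl
    have hl3 := (mem_WV hexG).1 hl1
    obtain ⟨i, k', g1, g2, g3⟩ := hasP_iff (E := fun β => ¬ CloseIn hexG (1 / mu) (kap K0) ε R l β)
      hl3.2 hl2
    rw [Finset.mem_union]
    by_cases hcl : Close hexG (1 / mu) (kap K0) (ε / 2) R ((l.drop i).take (k' + 1))
    · right
      rw [Finset.mem_biUnion]
      refine ⟨(i, k'), ?_, ?_⟩
      · rw [hT, Finset.mem_filter, Finset.mem_product, Finset.mem_range, Finset.mem_range]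
        exact ⟨⟨by simp only; omega, by simp only; omega⟩, g1, g2⟩
      · rw [Finset.mem_filter]
        refine ⟨hl1, ?_⟩
        by_contra hcon
        exact g3 (good_piece hk hl3.1.2.2 hl3.1.2.1 (by omega) g1 hm3 hσ1 hcl hcon)
    · left
      rw [Finset.mem_filter]
      refine ⟨hl1, (l.drop i).take (k' + 1), ?_, ?_, hcl⟩
      · exact (List.take_prefix _ _).isInfix.trans (List.drop_suffix _ _).isInfix
      · rw [List.length_take, List.length_drop]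
        omega
  have hTc : (T.card : ℝ) ≤ (n + 1) ^ 2 := by
    have h1 : T.card ≤ (n + 1) ^ 2 := by
      rw [hT]
      refine (Finset.card_filter_le _ _).trans ?_
      rw [Finset.card_product, Finset.card_range, sq]
    exact_mod_cast h1
  have h2 : ((T.biUnion (fun q => (WV hexG v n).filter
      (fun l => Crowd k (σ * m) q.1 q.2 l))).card : ℝ) ≤
      (n + 1) ^ 2 * (6 * Cb ^ 3 * Real.exp (3 * Kb * L) * Real.exp (-(σ * m)) * mu ^ n) := by
    have h3 : ((T.biUnion (fun q => (WV hexG v n).filter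
        (fun l => Crowd k (σ * m) q.1 q.2 l))).card : ℝ) ≤
        ∑ q ∈ T, (((WV hexG v n).filter (fun l => Crowd k (σ * m) q.1 q.2 l)).card : ℝ) := by
      exact_mod_cast Finset.card_biUnion_le
    refine h3.trans ((Finset.sum_le_sum (g := fun _ => 6 * Cb ^ 3 * Real.exp (3 * Kb * L) *
      Real.exp (-(σ * m)) * mu ^ n) ?_).trans ?_)
    · rintro ⟨i, k'⟩ hq
      rw [hT, Finset.mem_filter] at hq
      rw [hL]
      exact crowd_count hKb hCb hw v k hσm hq.2.2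
    · rw [Finset.sum_const, nsmul_eq_mul]
      exact mul_le_mul_of_nonneg_right hTc (by positivity)
  have h3 := hPa n m hm1 v
  rw [← hL] at h3 ⊢
  have h4 := (Nat.cast_le (α := ℝ)).2 ((Finset.card_le_card hsub).trans (Finset.card_union_le _ _))
  rw [Nat.cast_add] at h4
  have h5 := poly_le n
  rw [← hL] at h5
  have e1 : Real.exp (Ka * L) ≤ Real.exp ((Ka + 3 * Kb + 2 / Real.log 2) * L) := by
    rw [Real.exp_le_exp]
    have : 0 ≤ (3 * Kb + 2 / Real.log 2) * L := by positivity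
    nlinarith
  have e2 : Real.exp (-(c1 * m)) ≤ Real.exp (-(c * m)) := by
    rw [Real.exp_le_exp]
    nlinarith
  have e3 : Real.exp (-(σ * m)) ≤ Real.exp (-(c * m)) := by
    rw [Real.exp_le_exp]
    nlinarith
  have e4 : ((n : ℝ) + 1) ^ 2 * Real.exp (3 * Kb * L) ≤
      Real.exp ((Ka + 3 * Kb + 2 / Real.log 2) * L) := by
    calc ((n : ℝ) + 1) ^ 2 * Real.exp (3 * Kb * L) ≤
          Real.exp (2 / Real.log 2 * L) * Real.exp (3 * Kb * L) := by gcongr
      _ = Real.exp (2 / Real.log 2 * L + 3 * Kb * L) := by rw [Real.exp_add]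
      _ ≤ _ := by
          rw [Real.exp_le_exp]
          have : 0 ≤ Ka * L := by positivity
          nlinarith
  calc _ ≤ _ := h4
    _ ≤ Ca * Real.exp (Ka * L) * Real.exp (-(c1 * m)) * mu ^ n + (n + 1) ^ 2 *
        (6 * Cb ^ 3 * Real.exp (3 * Kb * L) * Real.exp (-(σ * m)) * mu ^ n) := add_le_add h3 h2
    _ = Ca * Real.exp (Ka * L) * Real.exp (-(c1 * m)) * mu ^ n +
        6 * Cb ^ 3 * (((n : ℝ) + 1) ^ 2 * Real.exp (3 * Kb * L)) * Real.exp (-(σ * m)) * mu ^ n := by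
        ring
    _ ≤ Ca * Real.exp ((Ka + 3 * Kb + 2 / Real.log 2) * L) * Real.exp (-(c * m)) * mu ^ n +
        6 * Cb ^ 3 * Real.exp ((Ka + 3 * Kb + 2 / Real.log 2) * L) * Real.exp (-(c * m)) *
          mu ^ n := by gcongr
    _ = _ := by ring

end

end U443.OS
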