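import Pool.Agent.U372.HX.Step2

/-!
# Near contacts of the blocks of a walk with the past: exponential moments
-/

set_option autoImplicit false

namespace U443.OS

open scoped ENNReal Classical
open Pool.Agent.U372.HX (V Nbr WW nB Nr tot tot_mono tot_one tot_iUnion cN KW KW_ge tailW_all
  WW_finite WW_card small_leW comp_ge few Nr_cl bx bx_card mem_bx cl)

noncomputable section

/-- tails for a block after the past `s` -/
theorem tail_block {s : List V} (hs : s.Nodup) (hc : s.IsChain Nbr) (n : ℕ) (v : V) (k : ℕ) (S : ℝ)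
    (hS : 1 ≤ S) :
    tot (fun _ => 1) {l | l ∈ WW n v ∧ (∀ u ∈ l, u ∉ s) ∧
      (KW : ℝ) ^ (k + 1) * S < (nB (Nr {u | u ∈ s} k) l : ℝ)} ≤
      ENNReal.ofReal (Real.exp (-S)) * (cN n : ℝ≥0∞) := by
  by_cases h7 : 7 ≤ s.length
  · refine (tot_mono _ ?_).trans (tailW_all (D := {u | u ∉ s}) (A := {u | u ∈ s}) ?_ ?_ n v S hS)
    · rintro l ⟨h1, h2, h3⟩
      exact ⟨h1, h2, k, h3⟩
    · exact fun u hu hu' => hu' hu
    · exact comp_ge hc hs (fun u hu hu' => hu' hu) h7
  · have h0 : {l | l ∈ WW n v ∧ (∀ u ∈ l, u ∉ s) ∧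
      (KW : ℝ) ^ (k + 1) * S < (nB (Nr {u | u ∈ s} k) l : ℝ)} = ∅ := by
      ext m
      simp only [Set.mem_setOf_eq, Set.mem_empty_iff_false, iff_false, not_and, not_lt]
      intro _ _
      refine le_trans ?_ (small_leW k hS)
      exact_mod_cast few (by omega) k m
    rw [h0]
    unfold tot
    simp

/-- the level of a block `β` after the past `s` -/
def lv (k : ℕ) (s β : List V) : ℕ := (nB (Nr {u | u ∈ s} k) β - 1) / (2 * KW ^ (k + 1))

theorem KW_pos (k : ℕ) : 0 < KW ^ (k + 1) := pow_pos (lt_of_lt_of_le (by norm_num) KW_ge) _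

theorem nB_le_lv (k : ℕ) (s β : List V) :
    nB (Nr {u | u ∈ s} k) β ≤ 2 * KW ^ (k + 1) * (lv k s β + 1) := by
  unfold lv
  obtain ⟨a, ha⟩ : ∃ a, a = nB (Nr {u | u ∈ s} k) β := ⟨_, rfl⟩
  obtain ⟨b, hb⟩ : ∃ b, b = 2 * KW ^ (k + 1) := ⟨_, rfl⟩
  have hb0 : 0 < b := by rw [hb]; have := KW_pos k; omega
  rw [← ha, ← hb]
  have h1 := Nat.lt_mul_div_succ (a - 1) hb0
  have h2 : a - 1 < b * ((a - 1) / b + 1) := h1
  omega

theorem lt_of_lv {k : ℕ} {s β : List V} {b : ℕ} (h : b + 1 ≤ lv k s β) :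
    (KW : ℝ) ^ (k + 1) * (2 * ((b : ℝ) + 1)) < (nB (Nr {u | u ∈ s} k) β : ℝ) := by
  unfold lv at h
  obtain ⟨a, ha⟩ : ∃ a, a = nB (Nr {u | u ∈ s} k) β := ⟨_, rfl⟩
  obtain ⟨q, hq⟩ : ∃ q, q = KW ^ (k + 1) := ⟨_, rfl⟩
  have hq0 : 0 < q := by rw [hq]; exact KW_pos k
  rw [← ha, ← hq, Nat.le_div_iff_mul_le (by omega)] at h
  have h1 : q * (2 * (b + 1)) < a := by
    have h2 : (b + 1) * (2 * q) = q * (2 * (b + 1)) := by ring
    rw [h2] at h
    have h3 : 0 < q * (2 * (b + 1)) := by positivity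
    omega
  rw [← ha]
  have h4 : ((q * (2 * (b + 1)) : ℕ) : ℝ) < (a : ℝ) := by exact_mod_cast h1
  rw [hq] at h4
  push_cast at h4
  exact h4

theorem small_term (b : ℕ) : (2 : ℝ≥0∞) ^ b * ENNReal.ofReal (Real.exp (-(2 * ((b : ℝ) + 1)))) ≤
    (2⁻¹ : ℝ≥0∞) ^ (b + 1) := by
  have e1 : (2 : ℝ≥0∞) ^ b = ENNReal.ofReal (2 ^ b) := by
    rw [ENNReal.ofReal_pow (by norm_num)]
    norm_num
  have e2 : (2⁻¹ : ℝ≥0∞) ^ (b + 1) = ENNReal.ofReal ((2⁻¹) ^ (b + 1)) := by
    rw [ENNReal.ofReal_pow (by norm_num), ENNReal.ofReal_inv_of_pos (by norm_num)]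
    norm_num
  rw [e1, e2, ← ENNReal.ofReal_mul (by positivity)]
  apply ENNReal.ofReal_le_ofReal
  have h1 : Real.exp (-(2 * ((b : ℝ) + 1))) ≤ ((4 : ℝ)⁻¹) ^ (b + 1) := by
    have h2 : Real.exp (-(2 * ((b : ℝ) + 1))) = (Real.exp (-2)) ^ (b + 1) := by
      rw [← Real.exp_nat_mul]
      congr 1
      push_cast
      ring
    rw [h2]
    apply pow_le_pow_left₀ (Real.exp_pos _).le
    rw [Real.exp_neg, inv_le_inv₀ (Real.exp_pos _) (by norm_num)]
    have h3 := Real.add_one_le_exp (1 : ℝ)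
    have h4 : Real.exp 2 = Real.exp 1 * Real.exp 1 := by rw [← Real.exp_add]; norm_num
    rw [h4]
    nlinarith
  calc (2 : ℝ) ^ b * Real.exp (-(2 * ((b : ℝ) + 1))) ≤ 2 ^ b * ((4 : ℝ)⁻¹) ^ (b + 1) := by gcongr
    _ ≤ 2 ^ (b + 1) * ((4 : ℝ)⁻¹) ^ (b + 1) := by
        gcongr
        · norm_num
        · omega
    _ = _ := by
        rw [← mul_pow]
        norm_num

theorem two_pow_le (a : ℕ) : (2 : ℝ≥0∞) ^ a ≤ 1 + ∑' b : ℕ, if b + 1 ≤ a then (2 : ℝ≥0∞) ^ b else 0 := by
  have h1 : ∑' b : ℕ, (if b + 1 ≤ a then (2 : ℝ≥0∞) ^ b else 0) = ∑ b ∈ Finset.range a, (2 : ℝ≥0∞) ^ b := by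
    rw [tsum_eq_sum (s := Finset.range a)]
    · refine Finset.sum_congr rfl fun b hb => ?_
      rw [Finset.mem_range] at hb
      rw [if_pos (by omega)]
    · intro b hb
      rw [Finset.mem_range] at hb
      rw [if_neg (by omega)]
  rw [h1]
  clear h1
  induction a with
  | zero => simp
  | succ a ih =>
    rw [Finset.sum_range_succ, ← add_assoc, pow_succ, mul_two]
    exact add_le_add ih le_rfl

/-- exponential moment of the level of a block started at `v` -/
theorem moment_one {s : List V} (hs : s.Nodup) (hc : s.IsChain Nbr) (n : ℕ) (v : V) (k : ℕ) :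
    tot (fun l => 2 ^ lv k s l) {l | l ∈ WW n v ∧ ∀ u ∈ l, u ∉ s} ≤ 2 * (cN n : ℝ≥0∞) := by
  obtain ⟨F, hF⟩ : ∃ F : Set (List V), F = {l | l ∈ WW n v ∧ ∀ u ∈ l, u ∉ s} := ⟨_, rfl⟩
  rw [← hF]
  have h1 : tot (fun l => 2 ^ lv k s l) F ≤ tot (fun _ => 1) F +
      ∑' b : ℕ, (2 : ℝ≥0∞) ^ b * tot (fun _ => 1) {l | l ∈ F ∧ b + 1 ≤ lv k s l} := by
    unfold tot
    simp only [← ENNReal.tsum_mul_left]
    rw [ENNReal.tsum_comm, ← ENNReal.tsum_add]
    refine ENNReal.tsum_le_tsum fun l => ?_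
    by_cases hl : l ∈ F
    · rw [Set.indicator_of_mem hl, Set.indicator_of_mem hl]
      refine (two_pow_le _).trans (add_le_add le_rfl (ENNReal.tsum_le_tsum fun b => ?_))
      split_ifs with hb
      · rw [Set.indicator_of_mem (show l ∈ {l | l ∈ F ∧ b + 1 ≤ lv k s l} from ⟨hl, hb⟩), mul_one]
      · exact zero_le
    · rw [Set.indicator_of_notMem hl]
      exact zero_le
  refine h1.trans ?_
  rw [two_mul]
  refine add_le_add ?_ ?_
  · have hfin : F.Finite := by
      rw [hF]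
      exact (WW_finite n v).subset fun l hl => hl.1
    rw [tot_one F hfin]
    have h2 : F.ncard ≤ (WW n v).ncard := by
      rw [hF]
      exact Set.ncard_le_ncard (fun l hl => hl.1) (WW_finite n v)
    exact_mod_cast h2.trans (WW_card n v)
  · have h3 : ∀ b : ℕ, (2 : ℝ≥0∞) ^ b * tot (fun _ => 1) {l | l ∈ F ∧ b + 1 ≤ lv k s l} ≤
        (2⁻¹ : ℝ≥0∞) ^ (b + 1) * cN n := by
      intro b
      have h4 : tot (fun _ => 1) {l | l ∈ F ∧ b + 1 ≤ lv k s l} ≤
          ENNReal.ofReal (Real.exp (-(2 * ((b : ℝ) + 1)))) * (cN n : ℝ≥0∞) := by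
        refine (tot_mono _ ?_).trans (tail_block hs hc n v k (2 * ((b : ℝ) + 1)) ?_)
        · rintro l ⟨h5, h6⟩
          rw [hF] at h5
          exact ⟨h5.1, h5.2, lt_of_lv h6⟩
        · have : (0 : ℝ) ≤ b := Nat.cast_nonneg _
          linarith
      refine (mul_le_mul_right h4 _).trans ?_
      rw [← mul_assoc]
      exact mul_le_mul_left (small_term b) _
    refine (ENNReal.tsum_le_tsum h3).trans ?_
    rw [ENNReal.tsum_mul_right, ENNReal.tsum_geometric_add_one,
      ENNReal.one_sub_inv_two, inv_inv, ENNReal.inv_mul_cancel (by norm_num) (by norm_num), one_mul]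

/-- the continuations with `L` vertices of the walk `s` from `0` -/
def ex (s : List V) (L : ℕ) : Set (List V) :=
  {l | l.length = L ∧ (s ++ l).Nodup ∧ (s ++ l).IsChain Nbr ∧ (s ++ l).head? = some 0}

/-- candidates for the next vertex -/
def cand (s : List V) : Finset V :=
  match s.getLast? with
  | none => {0}
  | some p => {(p.1 + 1, p.2), (p.1 - 1, p.2), (p.1, p.2 + 1), (p.1, p.2 - 1)}

theorem card_cand (s : List V) : (cand s).card ≤ 4 := by
  unfold cand
  split
  · simp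
  · exact Finset.card_le_four

theorem nbr_cases {p q : V} (h : Nbr p q) : q ∈ ({(p.1 + 1, p.2), (p.1 - 1, p.2), (p.1, p.2 + 1),
    (p.1, p.2 - 1)} : Finset V) := by
  obtain ⟨a, b⟩ := p
  obtain ⟨x, y⟩ := q
  unfold Nbr at h
  simp only [Finset.mem_insert, Finset.mem_singleton, Prod.mk.injEq]
  simp only at h
  omega

theorem ex_first {s β : List V} {M : ℕ} (h : β ∈ ex s (M + 1)) :
    ∃ v, v ∈ cand s ∧ β ∈ WW M v ∧ ∀ u ∈ β, u ∉ s := by
  obtain ⟨h1, h2, h3, h4⟩ := h
  rcases β with - | ⟨v, r⟩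
  · simp at h1
  have h5 := List.nodup_append.1 h2
  have h6 := List.isChain_append.1 h3
  refine ⟨v, ?_, ⟨rfl, h1, h5.2.1, h6.2.1⟩, fun u hu hus => h5.2.2 u hus u hu rfl⟩
  unfold cand
  rcases hs : s.getLast? with - | p
  · rw [List.getLast?_eq_none_iff] at hs
    subst hs
    simp only [List.nil_append, List.head?_cons, Option.some.injEq] at h4
    simp [h4]
  · simp only
    exact nbr_cases (h6.2.2 p (by rw [hs]; simp) v (by simp))

theorem tot_ex (s : List V) (M k : ℕ) :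
    tot (fun l => 2 ^ lv k s l) (ex s (M + 1)) ≤ 8 * (cN M : ℝ≥0∞) := by
  by_cases hs : s.Nodup ∧ s.IsChain Nbr
  · have hsub : ex s (M + 1) ⊆ ⋃ v : V, {l | v ∈ cand s ∧ l ∈ WW M v ∧ ∀ u ∈ l, u ∉ s} := by
      intro l hl
      obtain ⟨v, hv⟩ := ex_first hl
      exact Set.mem_iUnion.2 ⟨v, hv⟩
    refine ((tot_mono _ hsub).trans (tot_iUnion _ _)).trans ?_
    rw [tsum_eq_sum (s := cand s)]
    · have h1 : ∀ v ∈ cand s, tot (fun l => 2 ^ lv k s l)
          {l | v ∈ cand s ∧ l ∈ WW M v ∧ ∀ u ∈ l, u ∉ s} ≤ 2 * (cN M : ℝ≥0∞) := by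
        intro v _
        refine (tot_mono _ ?_).trans (moment_one hs.1 hs.2 M v k)
        exact fun l hl => hl.2
      refine (Finset.sum_le_sum h1).trans ?_
      rw [Finset.sum_const, nsmul_eq_mul, ← mul_assoc]
      refine mul_le_mul_left ?_ _
      have h2 : (cand s).card * 2 ≤ 8 := by have := card_cand s; omega
      exact_mod_cast h2
    · intro v hv
      have h0 : {l | v ∈ cand s ∧ l ∈ WW M v ∧ ∀ u ∈ l, u ∉ s} = ∅ := by
        ext l
        simp [hv]
      rw [h0]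
      unfold tot
      simp
  · have h0 : ex s (M + 1) = ∅ := by
      ext l
      simp only [Set.mem_empty_iff_false, iff_false]
      intro h
      exact hs ⟨(List.nodup_append.1 h.2.1).1, (List.isChain_append.1 h.2.2.1).1⟩
    rw [h0]
    unfold tot
    simp

theorem tot_ex_one (s : List V) (M : ℕ) :
    tot (fun _ => 1) (ex s (M + 1)) ≤ 4 * (cN M : ℝ≥0∞) := by
  have hsub : ex s (M + 1) ⊆ ⋃ v : V, {l | v ∈ cand s ∧ l ∈ WW M v} := by
    intro l hl
    obtain ⟨v, hv⟩ := ex_first hl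
    exact Set.mem_iUnion.2 ⟨v, hv.1, hv.2.1⟩
  refine ((tot_mono _ hsub).trans (tot_iUnion _ _)).trans ?_
  rw [tsum_eq_sum (s := cand s)]
  · have h1 : ∀ v ∈ cand s, tot (fun _ => 1) {l | v ∈ cand s ∧ l ∈ WW M v} ≤ (cN M : ℝ≥0∞) := by
      intro v _
      refine (tot_mono _ (fun l hl => hl.2)).trans ?_
      rw [tot_one _ (WW_finite M v)]
      exact_mod_cast WW_card M v
    refine (Finset.sum_le_sum h1).trans ?_
    rw [Finset.sum_const, nsmul_eq_mul]
    refine mul_le_mul_left ?_ _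
    exact_mod_cast card_cand s
  · intro v hv
    have h0 : {l | v ∈ cand s ∧ l ∈ WW M v} = ∅ := by
      ext l
      simp [hv]
    rw [h0]
    unfold tot
    simp

/-- the first block is split off -/
theorem split_tot (s : List V) (M L : ℕ) (hM : 1 ≤ M) (a : List V → ℝ≥0∞)
    (b : List V → List V → ℝ≥0∞) (B : ℝ≥0∞) (hB : ∀ β, tot (b β) (ex (s ++ β) L) ≤ B) :
    tot (fun l => a (l.take M) * b (l.take M) (l.drop M)) (ex s (M + L)) ≤
      tot a (ex s M) * B := by
  obtain ⟨g, hg⟩ : ∃ g : List V × List V → ℝ≥0∞, g = fun z =>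
      (ex s M).indicator a z.1 * (ex (s ++ z.1) L).indicator (b z.1) z.2 := ⟨_, rfl⟩
  have hinj : Function.Injective (fun l : List V => (l.take M, l.drop M)) := by
    intro l l' h
    simp only [Prod.mk.injEq] at h
    rw [← List.take_append_drop M l, ← List.take_append_drop M l', h.1, h.2]
  have h1 : tot (fun l => a (l.take M) * b (l.take M) (l.drop M)) (ex s (M + L)) ≤
      ∑' l : List V, g (l.take M, l.drop M) := by
    unfold tot
    refine ENNReal.tsum_le_tsum fun l => ?_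
    by_cases hl : l ∈ ex s (M + L)
    · rw [Set.indicator_of_mem hl, hg]
      simp only
      obtain ⟨h1, h2, h3, h4⟩ := hl
      have e1 : s ++ l.take M ++ l.drop M = s ++ l := by
        rw [List.append_assoc, List.take_append_drop]
      have m1 : l.take M ∈ ex s M := by
        refine ⟨by rw [List.length_take]; omega, ?_, ?_, ?_⟩
        · rw [← e1] at h2
          exact (List.nodup_append.1 h2).1
        · rw [← e1] at h3
          exact (List.isChain_append.1 h3).1
        · rcases s with - | ⟨x, s⟩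
          · rcases l with - | ⟨y, l⟩
            · simp at h4
            · obtain ⟨M', rfl⟩ : ∃ M', M = M' + 1 := ⟨M - 1, by omega⟩
              simpa using h4
          · simpa using h4
      have m2 : l.drop M ∈ ex (s ++ l.take M) L := by
        refine ⟨by rw [List.length_drop]; omega, ?_, ?_, ?_⟩
        · rw [e1]; exact h2
        · rw [e1]; exact h3
        · rw [e1]; exact h4
      rw [Set.indicator_of_mem m1, Set.indicator_of_mem m2]
    · rw [Set.indicator_of_notMem hl]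
      exact zero_le
  refine h1.trans ((ENNReal.tsum_comp_le_tsum_of_injective hinj g).trans ?_)
  rw [ENNReal.tsum_prod']
  unfold tot
  rw [← ENNReal.tsum_mul_right]
  refine ENNReal.tsum_le_tsum fun β => ?_
  rw [hg]
  simp only
  rw [ENNReal.tsum_mul_left]
  exact mul_le_mul_right (hB β) _

theorem tot_rest (r : ℕ) : ∀ s : List V, tot (fun _ => 1) (ex s r) ≤ 4 ^ r := by
  induction r with
  | zero =>
    intro s
    have hsub : ex s 0 ⊆ {[]} := by
      rintro l ⟨h, -⟩
      rw [Set.mem_singleton_iff]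
      exact List.length_eq_zero_iff.1 h
    refine (tot_mono _ hsub).trans ?_
    rw [tot_one _ (Set.finite_singleton _), Set.ncard_singleton]
    simp
  | succ r ih =>
    intro s
    have h1 := split_tot s 1 r le_rfl (fun _ => 1) (fun _ _ => 1) (4 ^ r) (fun β => ih _)
    simp only [mul_one] at h1
    rw [add_comm r 1]
    refine h1.trans ?_
    rw [pow_add, pow_one]
    refine mul_le_mul_left ?_ _
    refine (tot_ex_one s 0).trans ?_
    have h2 : 4 * cN 0 ≤ 4 := by
      have := Pool.Agent.U372.HX.cN_zero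
      omega
    exact_mod_cast h2

/-- sum of the levels of the first `N` blocks with `M` vertices -/
def lvs (M k : ℕ) : ℕ → List V → List V → ℕ
  | 0, _, _ => 0
  | N + 1, s, l => lv k s (l.take M) + lvs M k N (s ++ l.take M) (l.drop M)

/-- number of the vertices in the first `N` blocks close to the past of their block -/
def nbs (M k : ℕ) : ℕ → List V → List V → ℕ
  | 0, _, _ => 0
  | N + 1, s, l => nB (Nr {u | u ∈ s} k) (l.take M) + nbs M k N (s ++ l.take M) (l.drop M)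

theorem nbs_le (M k N : ℕ) : ∀ s l : List V,
    nbs M k N s l ≤ 2 * KW ^ (k + 1) * (lvs M k N s l + N) := by
  induction N with
  | zero => intro s l; simp [nbs]
  | succ N ih =>
    intro s l
    unfold nbs lvs
    have h1 := nB_le_lv k s (l.take M)
    have h2 := ih (s ++ l.take M) (l.drop M)
    obtain ⟨q, hq⟩ : ∃ q, q = 2 * KW ^ (k + 1) := ⟨_, rfl⟩
    rw [← hq] at h1 h2 ⊢
    nlinarith

/-- **exponential moment of the sum of the levels** -/
theorem moment (M k N r : ℕ) : ∀ s : List V,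
    tot (fun l => 2 ^ lvs (M + 1) k N s l) (ex s (N * (M + 1) + r)) ≤
      (8 * (cN M : ℝ≥0∞)) ^ N * 4 ^ r := by
  induction N with
  | zero =>
    intro s
    simp only [lvs, pow_zero, zero_mul, zero_add, one_mul]
    exact tot_rest r s
  | succ N ih =>
    intro s
    have e1 : (N + 1) * (M + 1) + r = (M + 1) + (N * (M + 1) + r) := by ring
    have h1 := split_tot s (M + 1) (N * (M + 1) + r) (by omega) (fun β => 2 ^ lv k s β)
      (fun β l => 2 ^ lvs (M + 1) k N (s ++ β) l) _ (fun β => ih (s ++ β))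
    rw [e1]
    have e2 : (fun l : List V => (2 : ℝ≥0∞) ^ lvs (M + 1) k (N + 1) s l) =
        fun l => 2 ^ lv k s (l.take (M + 1)) *
          2 ^ lvs (M + 1) k N (s ++ l.take (M + 1)) (l.drop (M + 1)) := by
      funext l
      rw [← pow_add]
      rfl
    rw [e2]
    refine h1.trans ?_
    rw [pow_succ' (8 * (cN M : ℝ≥0∞)) N, mul_assoc]
    exact mul_le_mul_left (tot_ex s M k) _

/-- number of the walks with large sum of the levels -/
theorem count_lvs (M k N r A : ℕ) :
    (2 : ℝ≥0∞) ^ A * (({l | l ∈ ex [] (N * (M + 1) + r) ∧ A ≤ lvs (M + 1) k N [] l}.ncard : ℕ) : ℝ≥0∞) ≤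
      (8 * (cN M : ℝ≥0∞)) ^ N * 4 ^ r := by
  have hfin : {l | l ∈ ex [] (N * (M + 1) + r) ∧ A ≤ lvs (M + 1) k N [] l}.Finite := by
    refine (WW_finite (N * (M + 1) + r) 0 |>.union (WW_finite (N * (M + 1) + r - 1) 0)).subset ?_
    rintro l ⟨⟨h1, h2, h3, h4⟩, -⟩
    simp only [List.nil_append] at h2 h3 h4
    right
    refine ⟨h4, ?_, h2, h3⟩
    rcases l with - | ⟨x, l⟩
    · simp at h4
    · simp only [List.length_cons] at h1 ⊢
      omega
  rw [← tot_one _ hfin]
  refine le_trans ?_ (moment M k N r [])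
  unfold tot
  rw [← ENNReal.tsum_mul_left]
  refine ENNReal.tsum_le_tsum fun l => ?_
  by_cases hl : l ∈ ex [] (N * (M + 1) + r) ∧ A ≤ lvs (M + 1) k N [] l
  · rw [Set.indicator_of_mem (show l ∈ {l | l ∈ ex [] (N * (M + 1) + r) ∧
      A ≤ lvs (M + 1) k N [] l} from hl), Set.indicator_of_mem hl.1, mul_one]
    exact pow_le_pow_right₀ (by norm_num) hl.2
  · rw [Set.indicator_of_notMem (show l ∉ {l | l ∈ ex [] (N * (M + 1) + r) ∧
      A ≤ lvs (M + 1) k N [] l} from hl), mul_zero]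
    exact zero_le

end

end U443.OS
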