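import Pool.Agent.U443.OS.Pairs

/-!
# Limits of empirical fields with few distant close pairs are connected
-/

set_option autoImplicit false

namespace U443.OS

open Finset MeasureTheory Filter Topology U443.LG
open scoped Classical

noncomputable section

variable {V : Type} [AddCommGroup V] (G : Geo V)

/-- a path of open edges from `a` to `b` with at most `n + 1` vertices -/
def Lnk (η : Cfg V) (a b : V) (n : ℕ) : Prop :=
  ∃ p : List V, p.head? = some a ∧ p.getLast? = some b ∧
    p.IsChain (fun u v => G.Adj u v ∧ η s(u, v) = true) ∧ p.length ≤ n + 1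

/-- `y` is visited and not joined to `0` by at most `m` open edges -/
def Far (y : V) (m : ℕ) : Set (Cfg V) := {η | Vis G y η ∧ ¬ Lnk G η 0 y m}

/-- balls -/
def Bl : ℕ → Finset V
  | 0 => {0}
  | n + 1 => Bl n ∪ (Bl n).biUnion G.nb

theorem Bl_mono {i j : ℕ} (h : i ≤ j) : Bl G i ⊆ Bl G j := by
  induction j with
  | zero =>
    have : i = 0 := by omega
    rw [this]
  | succ j ih =>
    rcases Nat.lt_or_ge i (j + 1) with h1 | h1
    · exact (ih (by omega)).trans Finset.subset_union_left
    · have : i = j + 1 := by omega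
      rw [this]

/-- the window of a ball -/
def Wn (m : ℕ) : Finset (Sym2 V) := (Bl G m).biUnion (star G)

theorem chain_win {m : ℕ} {η η' : Cfg V} (he : ∀ e ∈ Wn G m, η e = η' e) (p : List V) :
    ∀ (a : V) (j : ℕ), p.head? = some a → a ∈ Bl G j → p.length + j ≤ m + 1 →
      p.IsChain (fun u v => G.Adj u v ∧ η s(u, v) = true) →
      p.IsChain (fun u v => G.Adj u v ∧ η' s(u, v) = true) := by
  induction p with
  | nil => intro a j h; simp at h
  | cons a p ih =>
    intro a' j h1 h2 h3 h4
    simp only [List.head?_cons, Option.some.injEq] at h1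
    subst h1
    cases p with
    | nil => simp
    | cons b p =>
      rw [List.isChain_cons_cons] at h4 ⊢
      simp only [List.length_cons] at h3
      refine ⟨⟨h4.1.1, ?_⟩, ih b (j + 1) rfl ?_ (by simp only [List.length_cons]; omega) h4.2⟩
      · rw [← he s(a, b) ?_]
        · exact h4.1.2
        · unfold Wn
          rw [Finset.mem_biUnion]
          refine ⟨a, Bl_mono G (by omega) h2, ?_⟩
          exact Finset.mem_image_of_mem _ ((G.mem_nb a b).2 h4.1.1)
      · refine Finset.mem_union_right _ ?_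
        rw [Finset.mem_biUnion]
        exact ⟨a, h2, (G.mem_nb a b).2 h4.1.1⟩

theorem dep_far [Countable V] (y : V) (m : ℕ) : Dep (star G y ∪ Wn G m) (Far G y m) := by
  rintro η η' he ⟨h1, h2⟩
  refine ⟨(dep_vis G y) η η' (fun e h => he e (Finset.mem_union_left _ h)) h1, ?_⟩
  rintro ⟨p, a1, a2, a3, a4⟩
  apply h2
  refine ⟨p, a1, a2, ?_, a4⟩
  refine chain_win G (fun e h => (he e (Finset.mem_union_right _ h)).symm) p 0 0 a1 ?_ (by omega) a3
  exact Finset.mem_singleton_self _

theorem chain_tr {R : V → V → Prop} {l : List V} (h : l.IsChain R) :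
    l.IsChain (fun u v => R u v ∧ s(u, v) ∈ tr l) := by
  rw [List.isChain_iff_forall_rel_of_append_cons_cons] at h ⊢
  intro a b p q e
  exact ⟨h e, mem_tr.2 ⟨p, a, b, q, e, rfl⟩⟩

theorem seg {R : V → V → Prop} {l : List V} {i j : ℕ} {x z : V} (hij : i ≤ j)
    (hi : l[i]? = some x) (hj : l[j]? = some z) (hc : l.IsChain R) :
    ∃ p : List V, p.head? = some x ∧ p.getLast? = some z ∧ p.IsChain R ∧ p.length = j - i + 1 := by
  have hjl : j < l.length := by
    by_contra h8
    rw [List.getElem?_eq_none (by omega)] at hj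
    simp at hj
  refine ⟨(l.drop i).take (j - i + 1), ?_, ?_, (hc.drop i).take _, ?_⟩
  · rw [List.head?_take, if_neg (by omega), List.head?_drop]
    exact hi
  · rw [List.getLast?_eq_getElem?, List.length_take, List.length_drop,
      show min (j - i + 1) (l.length - i) - 1 = j - i by omega,
      List.getElem?_take_of_lt (by omega), List.getElem?_drop,
      show i + (j - i) = j by omega]
    exact hj
  · rw [List.length_take, List.length_drop]
    omega

/-- two visited places are joined in the walk -/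
theorem seg' {l : List V} (hl : l.IsChain G.Adj) {i j : ℕ} {x z : V}
    (hi : l[i]? = some x) (hj : l[j]? = some z) {m : ℕ} (h1 : i ≤ j + m) (h2 : j ≤ i + m) :
    ∃ p : List V, p.head? = some x ∧ p.getLast? = some z ∧
      p.IsChain (fun u v => G.Adj u v ∧ s(u, v) ∈ tr l) ∧ p.length ≤ m + 1 := by
  rcases le_total i j with h | h
  · obtain ⟨p, a1, a2, a3, a4⟩ := seg h hi hj (chain_tr hl)
    exact ⟨p, a1, a2, a3, by omega⟩
  · obtain ⟨p, a1, a2, a3, a4⟩ := seg h hj hi (chain_tr hl)
    refine ⟨p.reverse, by rw [List.head?_reverse]; exact a2, by rw [List.getLast?_reverse]; exact a1,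
      ?_, by rw [List.length_reverse]; omega⟩
    rw [List.isChain_reverse]
    refine a3.imp fun a b hab => ⟨G.symm _ _ hab.1, ?_⟩
    rw [Sym2.eq_swap]
    exact hab.2

theorem within_shift {d : ℕ} {a b g : V} (hg : g ∈ G.T) (h : Within G d a b) :
    Within G d (g + a) (g + b) := by
  obtain ⟨p, h1, h2, h3, h4⟩ := h
  refine ⟨p.map (g + ·), ?_, ?_, ?_, by rw [List.length_map]; exact h4⟩
  · rw [List.head?_map, h1]; rfl
  · rw [List.getLast?_map, h2]; rfl
  · rw [List.isChain_map]
    exact h3.imp fun a b hab => G.shift g hg a b hab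

theorem within_symm {d : ℕ} {a b : V} (h : Within G d a b) : Within G d b a := by
  obtain ⟨p, h1, h2, h3, h4⟩ := h
  refine ⟨p.reverse, by rw [List.head?_reverse]; exact h2, by rw [List.getLast?_reverse]; exact h1,
    ?_, by rw [List.length_reverse]; exact h4⟩
  rw [List.isChain_reverse]
  exact h3.imp fun a b hab => G.symm _ _ hab

/-- joined visited places in the walk seen from `x` -/
theorem lnk_of_near {l : List V} (hl : l.IsChain G.Adj) {x y : V} (hx : x ∈ G.T) {i j m : ℕ}
    (hi : l[i]? = some x) (hj : l[j]? = some (x + y)) (h1 : i ≤ j + m) (h2 : j ≤ i + m) :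
    Lnk G (vw l x) 0 y m := by
  obtain ⟨p, a1, a2, a3, a4⟩ := seg' G hl hi hj h1 h2
  refine ⟨p.map (-x + ·), ?_, ?_, ?_, by rw [List.length_map]; exact a4⟩
  · rw [List.head?_map, a1]
    simp
  · rw [List.getLast?_map, a2]
    simp
  · rw [List.isChain_map]
    refine a3.imp fun a b hab => ⟨G.shift (-x) (G.T.neg_mem hx) a b hab.1, ?_⟩
    rw [vw_mk, add_neg_cancel_left, add_neg_cancel_left]
    exact hab.2

theorem apart_finite (k m : ℕ) (l : List V) :
    {q : ℕ × ℕ | q.1 + m < q.2 ∧ ∃ x y, l[q.1]? = some x ∧ l[q.2]? = some y ∧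
      Within G k x y}.Finite := by
  refine ((Set.finite_lt_nat l.length).prod (Set.finite_lt_nat l.length)).subset ?_
  rintro ⟨i, j⟩ ⟨h1, x, y, h2, h3, -⟩
  simp only at h1 h2 h3
  have hj : j < l.length := by
    by_contra h8
    rw [List.getElem?_eq_none (by omega)] at h3
    simp at h3
  exact ⟨show i < l.length by omega, hj⟩

variable [Countable V]

theorem emp_far {l : List V} (hl : Walk G.Adj 0 l) (h2 : 2 ≤ l.length) {y : V} {d : ℕ}
    (hd : Within G d 0 y) (m : ℕ) :
    (emp G l).real (Far G y m) ≤ 2 * (apart G d m l : ℝ) / (Ts G l).card := by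
  rw [emp_real G (dep_far G y m).meas]
  apply div_le_div_of_nonneg_right _ (Nat.cast_nonneg _)
  obtain ⟨S, hS⟩ : ∃ S : Finset (ℕ × ℕ), S = (apart_finite G d m l).toFinset := ⟨_, rfl⟩
  have hSc : S.card = apart G d m l := by
    rw [hS]
    unfold apart
    rw [Set.ncard_eq_toFinset_card _ (apart_finite G d m l)]
  have hmem : ∀ q : ℕ × ℕ, q ∈ S ↔ (q.1 + m < q.2 ∧ ∃ x y, l[q.1]? = some x ∧ l[q.2]? = some y ∧
      Within G d x y) := by
    intro q
    rw [hS, Set.Finite.mem_toFinset]
    rfl
  have h1 : (Ts G l).filter (fun x => vw l x ∈ Far G y m) ⊆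
      S.image (fun q => l.getD q.1 0) ∪ S.image (fun q => l.getD q.2 0) := by
    intro x hx
    rw [Finset.mem_filter] at hx
    obtain ⟨h3, h4, h5⟩ := hx
    unfold Ts at h3
    rw [Finset.mem_filter, List.mem_toFinset] at h3
    rw [vis_vw G hl h2 h3.2] at h4
    obtain ⟨i, hi⟩ := List.mem_iff_getElem?.1 h3.1
    obtain ⟨j, hj⟩ := List.mem_iff_getElem?.1 h4
    have hw : Within G d x (x + y) := by
      have := within_shift G h3.2 hd
      rwa [add_zero] at this
    rw [Finset.mem_union, Finset.mem_image, Finset.mem_image]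
    by_cases h6 : i + m < j
    · left
      refine ⟨(i, j), (hmem _).2 ⟨h6, x, x + y, hi, hj, hw⟩, ?_⟩
      simp only [List.getD_eq_getElem?_getD, hi, Option.getD_some]
    · by_cases h7 : j + m < i
      · right
        refine ⟨(j, i), (hmem _).2 ⟨h7, x + y, x, hj, hi, within_symm G hw⟩, ?_⟩
        simp only [List.getD_eq_getElem?_getD, hi, Option.getD_some]
      · exact absurd (lnk_of_near G hl.2.2 h3.2 hi hj (by omega) (by omega)) h5
  have h3 := (Finset.card_le_card h1).trans ((Finset.card_union_le _ _).trans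
    (add_le_add Finset.card_image_le Finset.card_image_le))
  rw [hSc] at h3
  have h4 : (((Ts G l).filter (fun x => vw l x ∈ Far G y m)).card : ℝ) ≤
      ((apart G d m l + apart G d m l : ℕ) : ℝ) := by exact_mod_cast h3
  push_cast at h4
  linarith

/-- connectedness in the limit -/
theorem conn_of_limit {Q : ℕ → ProbabilityMeasure (Cfg V)}
    {P : ProbabilityMeasure (Cfg V)} (hQ : Tendsto Q atTop (𝓝 P)) (l : ℕ → List V)
    (hl : ∀ k, Walk G.Adj 0 (l k)) (hlen : Tendsto (fun k => (l k).length) atTop atTop)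
    (hemp : ∀ k, (Q k : Measure (Cfg V)) = emp G (l k))
    (hap : ∀ d : ℕ, ∃ κ : ℕ → ℝ, Tendsto κ atTop (𝓝 0) ∧ ∀ m : ℕ, 2 ≤ m →
      ∀ᶠ k in atTop, (apart G d m (l k) : ℝ) ≤ κ m * (l k).length) :
    ∀ᵐ η ∂(P : Measure (Cfg V)), ∀ y, Vis G y η → ∃ n, Lnk G η 0 y n := by
  have hlim : ∀ {R : Finset (Sym2 V)} {D : Set (Cfg V)}, Dep R D →
      Tendsto (fun k => (emp G (l k)).real D) atTop (𝓝 ((P : Measure (Cfg V)).real D)) := by
    intro R D h
    have h1 := h.tendsto hQ
    simpa only [hemp] using h1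
  have hlen2 : ∀ᶠ k in atTop, 2 ≤ (l k).length := hlen.eventually_ge_atTop 2
  rw [ae_all_iff]
  intro y
  by_cases hd : ∃ d, Within G d 0 y
  · obtain ⟨d, hd⟩ := hd
    obtain ⟨κ, hκ, hap⟩ := hap d
    have h1 : ∀ m, 2 ≤ m → (P : Measure (Cfg V)).real (Far G y m) ≤ 6 * κ m := by
      intro m hm
      refine le_of_tendsto (hlim (dep_far G y m)) ?_
      filter_upwards [hlen2, hap m hm] with k hk1 hk2
      refine (emp_far G (hl k) hk1 hd m).trans ?_
      have hT : (0 : ℝ) < (Ts G (l k)).card := by exact_mod_cast Ts_pos G (hl k)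
      have h7 : ((l k).length : ℝ) ≤ 3 * (Ts G (l k)).card := by
        have h8 := Ts_card G (hl k)
        have h9 := Ts_pos G (hl k)
        have : (l k).length ≤ 3 * (Ts G (l k)).card := by omega
        exact_mod_cast this
      have hκ0 : 0 ≤ κ m := by
        have h8 : (0 : ℝ) < (l k).length := by
          have : 0 < (l k).length := by omega
          exact_mod_cast this
        have h9 : (0 : ℝ) ≤ κ m * (l k).length := le_trans (Nat.cast_nonneg _) hk2
        exact nonneg_of_mul_nonneg_left h9 h8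
      rw [div_le_iff₀ hT]
      nlinarith
    have h2 : ∀ m, 2 ≤ m → (P : Measure (Cfg V)).real {η | Vis G y η ∧ ∀ n, ¬ Lnk G η 0 y n} ≤
        6 * κ m := by
      intro m hm
      refine le_trans (measureReal_mono ?_) (h1 m hm)
      rintro η ⟨h3, h4⟩
      exact ⟨h3, h4 m⟩
    have h3 : (P : Measure (Cfg V)).real {η | Vis G y η ∧ ∀ n, ¬ Lnk G η 0 y n} ≤ 0 := by
      have h4 : Tendsto (fun m => 6 * κ m) atTop (𝓝 (6 * 0)) := hκ.const_mul 6
      rw [mul_zero] at h4
      refine ge_of_tendsto h4 ?_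
      filter_upwards [eventually_ge_atTop 2] with m hm
      exact h2 m hm
    have h5 : (P : Measure (Cfg V)).real {η | Vis G y η ∧ ∀ n, ¬ Lnk G η 0 y n} = 0 :=
      le_antisymm h3 measureReal_nonneg
    rw [measureReal_eq_zero_iff] at h5
    rw [ae_iff]
    refine measure_mono_null (fun η hη => ?_) h5
    rw [Set.mem_setOf_eq] at hη ⊢
    push Not at hη
    exact hη
  · have h1 := hlim (dep_vis G y)
    have h2 : (fun k => (emp G (l k)).real {η : Cfg V | Vis G y η}) =ᶠ[atTop] fun _ => 0 := by
      filter_upwards [hlen2] with k hk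
      apply emp_zero G (dep_vis G y).meas
      intro x hx hcon
      unfold Ts at hx
      rw [Finset.mem_filter, List.mem_toFinset] at hx
      rw [Set.mem_setOf_eq, vis_vw G (hl k) hk hx.2] at hcon
      obtain ⟨i, hi⟩ := List.mem_iff_getElem?.1 hx.1
      obtain ⟨j, hj⟩ := List.mem_iff_getElem?.1 hcon
      obtain ⟨p, a1, a2, a3, a4⟩ := lnk_of_near G (hl k).2.2 hx.2 hi hj (m := i + j)
        (by omega) (by omega)
      exact hd ⟨i + j, p, a1, a2, a3.imp fun a b h => h.1, a4⟩
    have h3 := tendsto_nhds_unique (h1.congr' h2) tendsto_const_nhds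
    rw [measureReal_eq_zero_iff] at h3
    rw [ae_iff]
    refine measure_mono_null (fun η hη => ?_) h3
    rw [Set.mem_setOf_eq] at hη ⊢
    by_contra hcon
    exact hη fun h => absurd h hcon

end

end U443.OS
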