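import Pool.Agent.U443.OS.Ray

/-!
# The Dobrushin-Lanford-Ruelle equations of the two-sided infinite self-avoiding walk
-/

set_option autoImplicit false

namespace U443.OS

open Finset MeasureTheory Filter Topology U443.LG
open scoped Classical

noncomputable section

variable {V : Type} [AddCommGroup V] (G : Geo V)

/-- **DLR equations** at the fugacity `x` for the two-sided infinite self-avoiding walk through `0`:
given the edges outside of the finite window `Λ`, the states `A ⊆ Λ` that complete them to the set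
of edges of such a walk have probabilities proportional to `x ^ |A|`. -/
def Dlr (x : ℝ) (P : Measure (Cfg V)) : Prop :=
  ∀ Λ A A' : Finset (Sym2 V), A ⊆ Λ → A' ⊆ Λ → ∀ C : Set (Cfg V), MeasurableSet C →
    (∀ η η' : Cfg V, (∀ e, e ∉ Λ → η e = η' e) → η ∈ C → η' ∈ C) →
    (∀ η ∈ C, η ∈ Cyl Λ A ∪ Cyl Λ A' → Line G η) →
    x ^ A'.card * P.real (Cyl Λ A ∩ C) = x ^ A.card * P.real (Cyl Λ A' ∩ C)

/-- the state of a window -/
theorem filter_put {Λ A Ω : Finset (Sym2 V)} (hA : A ⊆ Λ) (hΩ : Λ ⊆ Ω) (η : Cfg V) :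
    Ω.filter (fun e => put Λ A η e = true) = A ∪ (Ω \ Λ).filter (fun e => η e = true) := by
  ext e
  rw [Finset.mem_filter, Finset.mem_union, Finset.mem_filter, Finset.mem_sdiff]
  unfold put
  by_cases h : e ∈ Λ
  · simp only [h, if_true, decide_eq_true_eq, not_true_eq_false, and_false, false_and, or_false]
    exact ⟨fun h1 => h1.2, fun h1 => ⟨hΩ h, h1⟩⟩
  · have h1 : e ∉ A := fun h' => h (hA h')
    simp only [h, if_false, h1, false_or, not_false_eq_true, and_true]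

theorem cyl_split {Λ A Ω S : Finset (Sym2 V)} (hA : A ⊆ Λ) (hΩ : Λ ⊆ Ω) (hS : S ⊆ Ω \ Λ)
    {η : Cfg V} : η ∈ Cyl Ω (A ∪ S) ↔ η ∈ Cyl Λ A ∧ η ∈ Cyl (Ω \ Λ) S := by
  constructor
  · intro h
    refine ⟨fun e he => ?_, fun e he => ?_⟩
    · rw [h e (hΩ he), Finset.mem_union]
      constructor
      · rintro (h1 | h1)
        · exact h1
        · exact absurd he (Finset.mem_sdiff.1 (hS h1)).2
      · exact Or.inl
    · rw [h e (Finset.mem_sdiff.1 he).1, Finset.mem_union]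
      constructor
      · rintro (h1 | h1)
        · exact absurd (hA h1) (Finset.mem_sdiff.1 he).2
        · exact h1
      · exact Or.inr
  · rintro ⟨h1, h2⟩ e he
    rw [Finset.mem_union]
    by_cases h3 : e ∈ Λ
    · rw [h1 e h3]
      constructor
      · exact Or.inl
      · rintro (h4 | h4)
        · exact h4
        · exact absurd h3 (Finset.mem_sdiff.1 (hS h4)).2
    · rw [h2 e (Finset.mem_sdiff.2 ⟨he, h3⟩)]
      constructor
      · exact Or.inr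
      · rintro (h4 | h4)
        · exact absurd (hA h4) h3
        · exact h4

variable [Countable V]

/-- one piece -/
theorem dlr_piece {x : ℝ} (hx : 0 < x) {P : Measure (Cfg V)} (h : IsGibbs G x P)
    {Λ A A' Ω S : Finset (Sym2 V)} (hA : A ⊆ Λ) (hA' : A' ⊆ Λ) (hΩ : Λ ⊆ Ω) (hS : S ⊆ Ω \ Λ)
    (hE : Exch G Ω (A ∪ S) (A' ∪ S)) {D : Set (Cfg V)} (hD : MeasurableSet D)
    (hD1 : ∀ η η' : Cfg V, (∀ e, e ∉ Λ → η e = η' e) → η ∈ D → η' ∈ D)
    (hD2 : ∀ η ∈ D, η ∈ Cyl Λ A ∪ Cyl Λ A' → Vis G 0 η) (hD3 : D ⊆ Cyl (Ω \ Λ) S) :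
    x ^ A'.card * P.real (Cyl Λ A ∩ D) = x ^ A.card * P.real (Cyl Λ A' ∩ D) := by
  obtain ⟨D', hD'⟩ : ∃ D' : Set (Cfg V), D' = {η | put (Ω \ Λ) S η ∈ D} := ⟨_, rfl⟩
  have key : ∀ X, X ⊆ Λ → Cyl Λ X ∩ D = Cyl Ω (X ∪ S) ∩ D' := by
    intro X hX
    ext η
    rw [Set.mem_inter_iff, Set.mem_inter_iff, cyl_split hX hΩ hS, hD', Set.mem_setOf_eq]
    constructor
    · rintro ⟨h1, h2⟩
      refine ⟨⟨h1, hD3 h2⟩, ?_⟩
      rw [put_eq (hD3 h2)]
      exact h2
    · rintro ⟨⟨h1, h2⟩, h3⟩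
      rw [put_eq h2] at h3
      exact ⟨h1, h3⟩
  rw [key A hA, key A' hA']
  have h1 := h Ω (A ∪ S) (A' ∪ S) hE D' (by
      rw [hD']
      exact (measurable_put (Ω \ Λ) S) hD) (by
      intro η η' he h2
      rw [hD', Set.mem_setOf_eq] at h2 ⊢
      refine hD1 _ _ (fun e h3 => ?_) h2
      unfold put
      split_ifs with h4
      · rfl
      · exact he e fun h5 => h4 (Finset.mem_sdiff.2 ⟨h5, h3⟩)) (by
      intro η h2 h3
      have h4 : η ∈ D ∧ η ∈ Cyl Λ A ∪ Cyl Λ A' := by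
        rcases h3 with h3 | h3
        · have h5 : η ∈ Cyl Λ A ∩ D := by rw [key A hA]; exact ⟨h3, h2⟩
          exact ⟨h5.2, Or.inl h5.1⟩
        · have h5 : η ∈ Cyl Λ A' ∩ D := by rw [key A' hA']; exact ⟨h3, h2⟩
          exact ⟨h5.2, Or.inr h5.1⟩
      exact hD2 η h4.1 h4.2)
  have hd : ∀ X, X ⊆ Λ → Disjoint X S := by
    intro X hX
    rw [Finset.disjoint_left]
    intro e h2 h3
    exact (Finset.mem_sdiff.1 (hS h3)).2 (hX h2)
  rw [Finset.card_union_of_disjoint (hd A hA), Finset.card_union_of_disjoint (hd A' hA'),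
    pow_add, pow_add] at h1
  have hp : 0 < x ^ S.card := by positivity
  have h6 : x ^ S.card * (x ^ A'.card * P.real (Cyl Ω (A ∪ S) ∩ D')) =
      x ^ S.card * (x ^ A.card * P.real (Cyl Ω (A' ∪ S) ∩ D')) := by linarith
  exact mul_left_cancel₀ hp.ne' h6

theorem Line.vis {η : Cfg V} (h : Line G η) : Vis G 0 η := by
  obtain ⟨γ, h0, h1⟩ := h
  refine ⟨γ 1, ?_, ?_⟩
  · have := h1.2.1 0
    rw [h0, zero_add] at this
    exact this
  · rw [h1.2.2]
    refine ⟨0, ?_⟩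
    rw [h0, zero_add]

/-- **the DLR equations** -/
theorem dlr_of_gibbs {x : ℝ} (hx : 0 < x) {P : Measure (Cfg V)} [IsFiniteMeasure P]
    (h : IsGibbs G x P) : Dlr G x P := by
  intro Λ A A' hA hA' C hC hC1 hC2
  haveI : Countable (Finset (Sym2 V)) := inferInstance
  obtain ⟨τ, hτ⟩ : ∃ τ : ℕ → Finset (Sym2 V) × Finset (Sym2 V), Function.Surjective τ :=
    exists_surjective_nat _
  obtain ⟨f, hf⟩ : ∃ f : ℕ → Set (Cfg V), ∀ j, f j = {η | (Λ ⊆ (τ j).1 ∧ (τ j).2 ⊆ (τ j).1 \ Λ ∧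
      Exch G (τ j).1 (A ∪ (τ j).2) (A' ∪ (τ j).2)) ∧ η ∈ Cyl ((τ j).1 \ Λ) (τ j).2} :=
    ⟨_, fun j => rfl⟩
  obtain ⟨g, hg⟩ : ∃ g : ℕ → Set (Cfg V), ∀ j, g j = f j ∩ ⋂ i ∈ Finset.range j, (f i)ᶜ :=
    ⟨_, fun j => rfl⟩
  have hfm : ∀ j, MeasurableSet (f j) := by
    intro j
    rw [hf]
    by_cases hq : (Λ ⊆ (τ j).1 ∧ (τ j).2 ⊆ (τ j).1 \ Λ ∧
      Exch G (τ j).1 (A ∪ (τ j).2) (A' ∪ (τ j).2))
    · have e1 : {η | (Λ ⊆ (τ j).1 ∧ (τ j).2 ⊆ (τ j).1 \ Λ ∧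
          Exch G (τ j).1 (A ∪ (τ j).2) (A' ∪ (τ j).2)) ∧ η ∈ Cyl ((τ j).1 \ Λ) (τ j).2} =
          Cyl ((τ j).1 \ Λ) (τ j).2 := by
        ext η
        exact ⟨fun h1 => h1.2, fun h1 => ⟨hq, h1⟩⟩
      rw [e1]
      exact (dep_cyl _ _).meas
    · have e1 : {η | (Λ ⊆ (τ j).1 ∧ (τ j).2 ⊆ (τ j).1 \ Λ ∧
          Exch G (τ j).1 (A ∪ (τ j).2) (A' ∪ (τ j).2)) ∧ η ∈ Cyl ((τ j).1 \ Λ) (τ j).2} =
          (∅ : Set (Cfg V)) := by
        ext η
        exact ⟨fun h1 => hq h1.1, fun h1 => h1.elim⟩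
      rw [e1]
      exact MeasurableSet.empty
  have hgm : ∀ j, MeasurableSet (g j) := by
    intro j
    rw [hg]
    exact (hfm j).inter (Finset.measurableSet_biInter _ fun i _ => (hfm i).compl)
  have hf1 : ∀ j, ∀ η η' : Cfg V, (∀ e, e ∉ Λ → η e = η' e) → (η ∈ f j ↔ η' ∈ f j) := by
    have key : ∀ j, ∀ η η' : Cfg V, (∀ e, e ∉ Λ → η e = η' e) → (η ∈ f j → η' ∈ f j) := by
      intro j η η' he h1
      rw [hf, Set.mem_setOf_eq] at h1 ⊢
      refine ⟨h1.1, fun e h2 => ?_⟩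
      rw [← he e (Finset.mem_sdiff.1 h2).2]
      exact h1.2 e h2
    exact fun j η η' he => ⟨key j η η' he, key j η' η fun e h1 => (he e h1).symm⟩
  have hg1 : ∀ j, ∀ η η' : Cfg V, (∀ e, e ∉ Λ → η e = η' e) → (η ∈ g j → η' ∈ g j) := by
    intro j η η' he h1
    rw [hg] at h1 ⊢
    refine ⟨(hf1 j η η' he).1 h1.1, ?_⟩
    have h2 := h1.2
    rw [Set.mem_iInter₂] at h2 ⊢
    intro i hi h3
    exact h2 i hi ((hf1 i η η' he).2 h3)
  have hdisj : Pairwise (Function.onFun Disjoint g) := by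
    have key : ∀ i j, i < j → Disjoint (g i) (g j) := by
      intro i j hij
      rw [Set.disjoint_left]
      intro η h1 h2
      rw [hg] at h1 h2
      have h3 := h2.2
      rw [Set.mem_iInter₂] at h3
      exact h3 i (Finset.mem_range.2 hij) h1.1
    intro i j hij
    rcases lt_or_gt_of_ne hij with h1 | h1
    · exact key i j h1
    · exact (key j i h1).symm
  have hcov : ∀ η ∈ C, ∃ j, η ∈ g j := by
    intro η hη
    have hex : ∃ j, η ∈ f j := by
      have a1 : put Λ A η ∈ C := hC1 η _ (fun e he => (put_out he).symm) hη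
      have a2 : put Λ A' η ∈ C := hC1 η _ (fun e he => (put_out he).symm) hη
      obtain ⟨γ, -, hγ⟩ := hC2 _ a1 (Or.inl (put_cyl η))
      obtain ⟨δ, -, hδ⟩ := hC2 _ a2 (Or.inr (put_cyl η))
      obtain ⟨Ω, h1, h2⟩ := exch_of_trk G hγ hδ Λ (fun e he => by rw [put_out he, put_out he])
      rw [filter_put hA h1, filter_put hA' h1] at h2
      obtain ⟨j, hj⟩ := hτ (Ω, (Ω \ Λ).filter (fun e => η e = true))
      refine ⟨j, ?_⟩
      rw [hf, hj]
      refine ⟨⟨h1, Finset.filter_subset _ _, h2⟩, fun e he => ?_⟩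
      simp only at he ⊢
      rw [Finset.mem_filter]
      exact ⟨fun h3 => ⟨he, h3⟩, fun h3 => h3.2⟩
    refine ⟨Nat.find hex, ?_⟩
    rw [hg]
    refine ⟨Nat.find_spec hex, ?_⟩
    rw [Set.mem_iInter₂]
    intro i hi
    exact Nat.find_min hex (Finset.mem_range.1 hi)
  have hpiece : ∀ j, x ^ A'.card * P.real (Cyl Λ A ∩ (C ∩ g j)) =
      x ^ A.card * P.real (Cyl Λ A' ∩ (C ∩ g j)) := by
    intro j
    by_cases hq : (Λ ⊆ (τ j).1 ∧ (τ j).2 ⊆ (τ j).1 \ Λ ∧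
      Exch G (τ j).1 (A ∪ (τ j).2) (A' ∪ (τ j).2))
    · refine dlr_piece G hx h hA hA' hq.1 hq.2.1 hq.2.2 (hC.inter (hgm j)) ?_ ?_ ?_
      · intro η η' he h1
        exact ⟨hC1 η η' he h1.1, hg1 j η η' he h1.2⟩
      · intro η h1 h2
        exact (hC2 η h1.1 h2).vis G
      · intro η h1
        have h2 := h1.2
        rw [hg, hf] at h2
        exact h2.1.2
    · have h0 : g j = ∅ := by
        rw [hg, hf]
        ext η
        exact ⟨fun h1 => hq h1.1.1, fun h1 => h1.elim⟩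
      rw [h0]
      simp
  -- summation
  have hsum : ∀ X, P (Cyl Λ X ∩ C) = ∑' j, P (Cyl Λ X ∩ (C ∩ g j)) := by
    intro X
    have e1 : Cyl Λ X ∩ C = ⋃ j, Cyl Λ X ∩ (C ∩ g j) := by
      ext η
      rw [Set.mem_iUnion]
      constructor
      · rintro ⟨h1, h2⟩
        obtain ⟨j, hj⟩ := hcov η h2
        exact ⟨j, h1, h2, hj⟩
      · rintro ⟨j, h1, h2, -⟩
        exact ⟨h1, h2⟩
    rw [e1, measure_iUnion]
    · intro i j hij
      exact (hdisj hij).mono (fun η h1 => h1.2.2) (fun η h1 => h1.2.2)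
    · exact fun j => (dep_cyl Λ X).meas.inter (hC.inter (hgm j))
  have hEN : ENNReal.ofReal (x ^ A'.card) * P (Cyl Λ A ∩ C) =
      ENNReal.ofReal (x ^ A.card) * P (Cyl Λ A' ∩ C) := by
    rw [hsum A, hsum A', ← ENNReal.tsum_mul_left, ← ENNReal.tsum_mul_left]
    refine tsum_congr fun j => ?_
    have h1 := hpiece j
    unfold Measure.real at h1
    rw [← ENNReal.toReal_ofReal (show 0 ≤ x ^ A'.card by positivity),
      ← ENNReal.toReal_ofReal (show 0 ≤ x ^ A.card by positivity), ← ENNReal.toReal_mul,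
      ← ENNReal.toReal_mul] at h1
    exact (ENNReal.toReal_eq_toReal_iff' (ENNReal.mul_ne_top ENNReal.ofReal_ne_top
      (measure_ne_top _ _)) (ENNReal.mul_ne_top ENNReal.ofReal_ne_top (measure_ne_top _ _))).1 h1
  have h2 := congrArg ENNReal.toReal hEN
  rw [ENNReal.toReal_mul, ENNReal.toReal_mul, ENNReal.toReal_ofReal (by positivity),
    ENNReal.toReal_ofReal (by positivity)] at h2
  exact h2

end

end U443.OS
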