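import Pool.Agent.U443.OS.Pcs

/-!
# Blocks with many vertices close to the past
-/

set_option autoImplicit false

namespace U443.OS

open Finset MeasureTheory Filter Topology U443.LG
open scoped Classical ENNReal
open Pool.Agent.U372.HX (Nbr WW nB Nr tot tot_mono tot_one cN KW KW_ge WW_finite Nr_cl Nr_sub)

noncomputable section

/-- after the first `i` vertices there are more than `KW ^ (k + 1) * S` vertices within distance `k`
of the first `i` vertices -/
def Exc (k : ℕ) (S : ℝ) (i : ℕ) (l : List (ℤ × ℤ)) : Prop :=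
  (KW : ℝ) ^ (k + 1) * S < (nB (Nr {u | u ∈ l.take i} k) (l.drop i) : ℝ)

theorem chain_nbr {l : List (ℤ × ℤ)} (h : l.IsChain HexAdj) : l.IsChain Nbr :=
  h.imp fun a b hab => (nbr_iff a b).1 hab

theorem exc_block {s : List (ℤ × ℤ)} (hs : s.Nodup) (hc : s.IsChain Nbr) (n : ℕ) (v : ℤ × ℤ) (k : ℕ)
    (S : ℝ) (hS : 1 ≤ S) :
    (({l | l ∈ WW n v ∧ (∀ u ∈ l, u ∉ s) ∧
      (KW : ℝ) ^ (k + 1) * S < (nB (Nr {u | u ∈ s} k) l : ℝ)}.ncard : ℕ) : ℝ) ≤
      Real.exp (-S) * cN n := by
  have h1 := tail_block hs hc n v k S hS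
  rw [tot_one _ ((WW_finite n v).subset fun l hl => hl.1)] at h1
  have h2 := ENNReal.toReal_mono (ENNReal.mul_ne_top ENNReal.ofReal_ne_top
    (ENNReal.natCast_ne_top _)) h1
  rw [ENNReal.toReal_mul, ENNReal.toReal_ofReal (Real.exp_pos _).le, ENNReal.toReal_natCast,
    ENNReal.toReal_natCast] at h2
  exact h2

/-- number of the walks with an exceptional last block -/
theorem exc_count (v : ℤ × ℤ) (k : ℕ) {S : ℝ} (hS : 1 ≤ S) (i m : ℕ) :
    (((WV hexG v (i + 1 + m)).filter (fun l => Exc k S (i + 1) l)).card : ℝ) ≤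
      3 * (Real.exp (-S) * cN m) * (WV hexG v i).card := by
  obtain ⟨B, hB⟩ : ∃ B : ℕ, B = ⌊Real.exp (-S) * cN m⌋₊ := ⟨_, rfl⟩
  have hBle : (B : ℝ) ≤ Real.exp (-S) * cN m := by
    rw [hB]
    exact Nat.floor_le (by positivity)
  have h1 : ((WV hexG v (i + 1 + m)).filter (fun l => Exc k S (i + 1) l)).card ≤
      (3 * B) * (WV hexG v i).card := by
    refine Finset.card_le_mul_card_image_of_maps_to (f := fun l => l.take (i + 1)) ?_ (3 * B) ?_
    · intro l hl
      rw [Finset.mem_filter, mem_WV] at hl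
      rw [mem_WV]
      obtain ⟨⟨⟨h1, h2, h3⟩, h4⟩, -⟩ := hl
      refine ⟨⟨?_, (List.take_sublist _ _).nodup h2, h3.take _⟩, ?_⟩
      · rw [List.head?_take, if_neg (by omega)]
        exact h1
      · rw [List.length_take]
        omega
    · intro s hs
      rw [mem_WV] at hs
      obtain ⟨⟨s1, s2, s3⟩, s4⟩ := hs
      obtain ⟨T, hT⟩ : ∃ T : ℤ × ℤ → Set (List (ℤ × ℤ)), ∀ w, T w = {l | l ∈ WW m w ∧
        (∀ u ∈ l, u ∉ s) ∧ (KW : ℝ) ^ (k + 1) * S < (nB (Nr {u | u ∈ s} k) l : ℝ)} :=
        ⟨_, fun w => rfl⟩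
      have hTf : ∀ w, (T w).Finite := by
        intro w
        rw [hT]
        exact (WW_finite m w).subset fun l hl => hl.1
      have hTc : ∀ w, (hTf w).toFinset.card ≤ B := by
        intro w
        rw [← Set.ncard_eq_toFinset_card (T w) (hTf w), hB]
        apply Nat.le_floor
        rw [hT]
        exact exc_block s2 (chain_nbr s3) m w k S hS
      refine le_trans (Finset.card_le_card_of_injOn
        (t := (hexG.nb ((s[i]?).getD 0)).biUnion (fun w => (hTf w).toFinset))
        (fun l => l.drop (i + 1)) ?_ ?_) ?_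
      · intro l hl
        rw [Finset.mem_coe, Finset.mem_filter, Finset.mem_filter, mem_WV] at hl
        obtain ⟨⟨⟨⟨h1, h2, h3⟩, h4⟩, h5⟩, h6⟩ := hl
        have h7 : l = s ++ l.drop (i + 1) := by rw [← h6, List.take_append_drop]
        obtain ⟨w, hw⟩ : ∃ w, l[i + 1]? = some w := by
          rw [List.getElem?_eq_getElem (by omega)]
          exact ⟨_, rfl⟩
        obtain ⟨z, hz⟩ : ∃ z, l[i]? = some z := by
          rw [List.getElem?_eq_getElem (by omega)]
          exact ⟨_, rfl⟩
        have hz' : s[i]? = some z := by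
          rw [← h6, List.getElem?_take_of_lt (by omega)]
          exact hz
        have hzw : HexAdj z w := by
          have h8 := List.isChain_iff_getElem.1 h3 i (by omega)
          rw [List.getElem?_eq_getElem (by omega), Option.some.injEq] at hw hz
          rw [hw, hz] at h8
          exact h8
        rw [Finset.mem_coe, Finset.mem_biUnion]
        refine ⟨w, ?_, ?_⟩
        · rw [hz', Option.getD_some]
          exact (hexG.mem_nb _ _).2 hzw
        · rw [Set.Finite.mem_toFinset, hT]
          refine ⟨⟨?_, ?_, (List.drop_sublist _ _).nodup h2, chain_nbr (h3.drop _)⟩, ?_, ?_⟩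
          · rw [List.head?_drop]
            exact hw
          · rw [List.length_drop]
            omega
          · intro u hu hus
            rw [h7, List.nodup_append] at h2
            exact h2.2.2 u hus u hu rfl
          · unfold Exc at h5
            rw [h6] at h5
            exact h5
      · intro l hl l' hl' h
        rw [Finset.mem_coe, Finset.mem_filter] at hl hl'
        simp only at h
        rw [← List.take_append_drop (i + 1) l, ← List.take_append_drop (i + 1) l', h, hl.2, hl'.2]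
      · refine (Finset.card_biUnion_le_card_mul _ _ B fun w _ => hTc w).trans ?_
        exact Nat.mul_le_mul_right _ Finset.card_le_three
  have h2 := (Nat.cast_le (α := ℝ)).2 h1
  push_cast at h2
  refine h2.trans ?_
  gcongr

theorem exc_zero {k : ℕ} {S : ℝ} (hS : 1 ≤ S) {l : List (ℤ × ℤ)} : ¬ Exc k S 0 l := by
  unfold Exc
  have h0 : nB (Nr {u | u ∈ l.take 0} k) (l.drop 0) = 0 := by
    unfold nB
    rw [Finset.card_eq_zero, Finset.filter_eq_empty_iff]
    intro x _ hx
    obtain ⟨a, ha, -⟩ := Nr_cl hx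
    simp at ha
  rw [h0]
  push_cast
  have : (0 : ℝ) ≤ (KW : ℝ) ^ (k + 1) * S := by positivity
  linarith

theorem exc_nil {k i : ℕ} {S : ℝ} (hS : 1 ≤ S) {l : List (ℤ × ℤ)} (hl : l.length ≤ i) :
    ¬ Exc k S i l := by
  unfold Exc
  have h0 : nB (Nr {u | u ∈ l.take i} k) (l.drop i) = 0 := by
    rw [List.drop_eq_nil_of_le hl]
    unfold nB
    simp
  rw [h0]
  push_cast
  have : (0 : ℝ) ≤ (KW : ℝ) ^ (k + 1) * S := by positivity
  linarith

/-- the piece of `l` with `k' + 1` vertices from the position `i` is close to the rest -/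
def Crowd (k : ℕ) (S : ℝ) (i k' : ℕ) (l : List (ℤ × ℤ)) : Prop :=
  Exc k S i (l.take (i + k' + 1)) ∨ Exc k S (k' + 1) (l.drop i)

/-- number of the walks with a crowded piece at a given place -/
theorem crowd_count {K C : ℝ} (hK0 : 0 ≤ K) (hC : 1 ≤ C) (hw : ∀ n : ℕ, ∀ v : ℤ × ℤ,
    ((WV hexG v n).card : ℝ) ≤ C * Real.exp (K * Real.log (n + 2) ^ 2) * mu ^ n)
    (v : ℤ × ℤ) (k : ℕ) {S : ℝ} (hS : 1 ≤ S) {i k' n : ℕ} (hn : i + k' ≤ n) :
    (((WV hexG v n).filter (fun l => Crowd k S i k' l)).card : ℝ) ≤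
      6 * C ^ 3 * Real.exp (3 * K * Real.log (n + 2) ^ 2) * Real.exp (-S) * mu ^ n := by
  have hmu := one_le_mu
  have hmu0 : 0 < mu := lt_of_lt_of_le one_pos hmu
  obtain ⟨X, hX⟩ : ∃ X : ℝ, X = Real.exp (K * Real.log (n + 2) ^ 2) := ⟨_, rfl⟩
  have hX0 : 0 < X := by rw [hX]; exact Real.exp_pos _
  have hX1 : 1 ≤ X := by rw [hX]; exact Real.one_le_exp (by positivity)
  have hlog : ∀ j : ℕ, j ≤ n → ∀ v : ℤ × ℤ, ((WV hexG v j).card : ℝ) ≤ C * X * mu ^ j := by
    intro j hj v
    refine (hw j v).trans ?_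
    have hj' : (j : ℝ) ≤ n := by exact_mod_cast hj
    have hj0 : (0 : ℝ) ≤ j := Nat.cast_nonneg _
    have h2 : 0 ≤ Real.log ((j : ℝ) + 2) := Real.log_nonneg (by linarith)
    have h3 : Real.log ((j : ℝ) + 2) ≤ Real.log (n + 2) := Real.log_le_log (by linarith) (by linarith)
    rw [hX]
    gcongr
  have hcN : ∀ j : ℕ, j ≤ n → (cN j : ℝ) ≤ C * X * mu ^ j := by
    intro j hj
    rw [cN_eq]
    exact hlog j hj 0
  have hS0 := Real.exp_pos (-S)
  obtain ⟨Y, hY⟩ : ∃ Y : ℝ, Y = 3 * C ^ 3 * X ^ 3 * Real.exp (-S) * mu ^ n := ⟨_, rfl⟩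
  obtain ⟨P0, hP0⟩ : ∃ P0 : List (ℤ × ℤ) → Prop, ∀ l, P0 l := ⟨fun _ => True, fun _ => trivial⟩
  -- the past
  have hA : (((WV hexG v n).filter (fun l => Exc k S i (l.take (i + k' + 1)))).card : ℝ) ≤ Y := by
    cases i with
    | zero =>
      rw [Finset.filter_eq_empty_iff.2 (fun l _ => exc_zero hS)]
      rw [hY]
      simp only [Finset.card_empty, Nat.cast_zero]
      positivity
    | succ i =>
      obtain ⟨j, rfl⟩ : ∃ j, n = (i + 1 + k') + j := ⟨n - (i + 1 + k'), by omega⟩
      have h1 := split_real hexG v (i + 1 + k') j (fun l => Exc k S (i + 1) l) P0 (C * X * mu ^ j)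
        (fun u => le_trans (by exact_mod_cast Finset.card_filter_le _ _) (hlog j (by omega) u))
      have h2 := exc_count v k hS i k'
      refine le_trans (Nat.cast_le.2 (Finset.card_le_card ?_)) (h1.trans
        ((mul_le_mul_of_nonneg_left h2 (by positivity)).trans ?_))
      · intro l hl
        rw [Finset.mem_filter] at hl ⊢
        exact ⟨hl.1, hl.2, hP0 _⟩
      · have h3 := hlog i (by omega) v
        have h4 := hcN k' (by omega)
        calc C * X * mu ^ j * (3 * (Real.exp (-S) * cN k') * (WV hexG v i).card) ≤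
              C * X * mu ^ j * (3 * (Real.exp (-S) * (C * X * mu ^ k')) * (C * X * mu ^ i)) := by
              gcongr
          _ = 3 * C ^ 3 * X ^ 3 * Real.exp (-S) * mu ^ (i + k' + j) := by
              rw [pow_add, pow_add]
              ring
          _ ≤ Y := by
              rw [hY]
              gcongr
              omega
  -- the future
  have hB : (((WV hexG v n).filter (fun l => Exc k S (k' + 1) (l.drop i))).card : ℝ) ≤ Y := by
    obtain ⟨j, rfl⟩ : ∃ j, n = i + j := ⟨n - i, by omega⟩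
    have h5 : ∀ u, (((WV hexG u j).filter (fun b => Exc k S (k' + 1) b)).card : ℝ) ≤
        3 * C ^ 2 * X ^ 2 * Real.exp (-S) * mu ^ j := by
      intro u
      rcases Nat.lt_or_ge j (k' + 1) with hj | hj
      · rw [Finset.filter_eq_empty_iff.2 (fun l hl => exc_nil hS (by
          have := ((mem_WV hexG).1 hl).2
          omega))]
        simp only [Finset.card_empty, Nat.cast_zero]
        positivity
      · obtain ⟨j', rfl⟩ : ∃ j', j = k' + 1 + j' := ⟨j - (k' + 1), by omega⟩
        have h2 := exc_count u k hS k' j'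
        have h3 := hlog k' (by omega) u
        have h4 := hcN j' (by omega)
        calc _ ≤ _ := h2
          _ ≤ 3 * (Real.exp (-S) * (C * X * mu ^ j')) * (C * X * mu ^ k') := by gcongr
          _ = 3 * C ^ 2 * X ^ 2 * Real.exp (-S) * mu ^ (k' + j') := by
              rw [pow_add]
              ring
          _ ≤ _ := by
              gcongr
              omega
    have h1 := split_real hexG v i j P0 (fun b => Exc k S (k' + 1) b) _ h5
    refine le_trans (Nat.cast_le.2 (Finset.card_le_card ?_)) (h1.trans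
      ((mul_le_mul_of_nonneg_left (le_trans (by exact_mod_cast Finset.card_filter_le _ _)
        (hlog i (by omega) v)) (by positivity)).trans ?_))
    · intro l hl
      rw [Finset.mem_filter] at hl ⊢
      exact ⟨hl.1, hP0 _, hl.2⟩
    · rw [hY]
      apply le_of_eq
      rw [pow_add]
      ring
  have hsub : (WV hexG v n).filter (fun l => Crowd k S i k' l) ⊆
      (WV hexG v n).filter (fun l => Exc k S i (l.take (i + k' + 1))) ∪
      (WV hexG v n).filter (fun l => Exc k S (k' + 1) (l.drop i)) := by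
    intro l hl
    rw [Finset.mem_filter] at hl
    rw [Finset.mem_union, Finset.mem_filter, Finset.mem_filter]
    rcases hl.2 with h1 | h1
    · exact Or.inl ⟨hl.1, h1⟩
    · exact Or.inr ⟨hl.1, h1⟩
  have h1 := (Nat.cast_le (α := ℝ)).2 ((Finset.card_le_card hsub).trans (Finset.card_union_le _ _))
  rw [Nat.cast_add] at h1
  have e1 : Real.exp (3 * K * Real.log (n + 2) ^ 2) = X ^ 3 := by
    rw [hX, ← Real.exp_nat_mul]
    congr 1
    push_cast
    ring
  rw [e1]
  calc _ ≤ _ := h1
    _ ≤ Y + Y := add_le_add hA hB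
    _ = _ := by rw [hY]; ring

end

end U443.OS
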