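import Pool.Agent.U443.OS.Dlr
import Pool.Agent.U443.OS.NearP

/-!
# Almost all walks are locally close to a critical two-sided infinite self-avoiding walk
-/

set_option autoImplicit false

namespace U443.OS

open Finset MeasureTheory Filter Topology U443.LG
open scoped Classical

noncomputable section

variable {V : Type} [AddCommGroup V] (G : Geo V)

/-- few distant close pairs, except for exponentially few walks -/
def Thin (κ : ℕ → ℕ → ℝ) : Prop :=
  (∀ d, Tendsto (κ d) atTop (𝓝 0)) ∧ ∀ d m : ℕ, 2 ≤ m → ∃ c : ℝ, 0 < c ∧ ∀ᶠ n : ℕ in atTop,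
    (((WL G n).filter (fun l => κ d m * l.length < 6 * apart G d m l)).card : ℝ) ≤
      Real.exp (-(c * n)) * (WL G n).card

/-- finitely many exponentially small exceptional sets -/
theorem union_small (B : ℕ → List V → Prop)
    (hB : ∀ j, ∃ c : ℝ, 0 < c ∧ ∀ᶠ n : ℕ in atTop,
      (((WL G n).filter (fun l => B j l)).card : ℝ) ≤ Real.exp (-(c * n)) * (WL G n).card)
    (m : ℕ) : ∃ c : ℝ, 0 < c ∧ ∀ᶠ n : ℕ in atTop,
      (((WL G n).filter (fun l => ∃ j < m, B j l)).card : ℝ) ≤
        Real.exp (-(c * n)) * (WL G n).card := by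
  induction m with
  | zero =>
    refine ⟨1, one_pos, Eventually.of_forall fun n => ?_⟩
    rw [Finset.filter_eq_empty_iff.2 (fun l _ => by
      rintro ⟨j, hj, -⟩
      omega)]
    simp only [Finset.card_empty, Nat.cast_zero]
    positivity
  | succ m ih =>
    obtain ⟨c1, hc1, h1⟩ := ih
    obtain ⟨c2, hc2, h2⟩ := hB m
    have hcm : 0 < min c1 c2 := lt_min hc1 hc2
    refine ⟨min c1 c2 / 2, by positivity, ?_⟩
    have hlim : Tendsto (fun n : ℕ => (min c1 c2 / 2) * (n : ℝ)) atTop atTop :=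
      tendsto_natCast_atTop_atTop.const_mul_atTop (by positivity)
    filter_upwards [h1, h2, hlim.eventually_ge_atTop (Real.log 2)] with n h3 h4 h5
    have hsub : ((WL G n).filter (fun l => ∃ j < m + 1, B j l)) ⊆
        ((WL G n).filter (fun l => ∃ j < m, B j l)) ∪ ((WL G n).filter (fun l => B m l)) := by
      intro l hl
      rw [Finset.mem_filter] at hl
      obtain ⟨hl1, j, hj, hl2⟩ := hl
      rw [Finset.mem_union, Finset.mem_filter, Finset.mem_filter]
      rcases Nat.lt_succ_iff_lt_or_eq.1 hj with h6 | h6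
      · exact Or.inl ⟨hl1, j, h6, hl2⟩
      · subst h6
        exact Or.inr ⟨hl1, hl2⟩
    have h6 := (Finset.card_le_card hsub).trans (Finset.card_union_le _ _)
    have h7 := (Nat.cast_le (α := ℝ)).2 h6
    rw [Nat.cast_add] at h7
    have hn0 : (0 : ℝ) ≤ n := Nat.cast_nonneg _
    have hW : (0 : ℝ) ≤ (WL G n).card := Nat.cast_nonneg _
    have h8 : Real.exp (-(c1 * n)) ≤ Real.exp (-(min c1 c2 * n)) := by
      rw [Real.exp_le_exp]
      nlinarith [min_le_left c1 c2]
    have h9 : Real.exp (-(c2 * n)) ≤ Real.exp (-(min c1 c2 * n)) := by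
      rw [Real.exp_le_exp]
      nlinarith [min_le_right c1 c2]
    have h10 : 2 * Real.exp (-(min c1 c2 * n)) ≤ Real.exp (-(min c1 c2 / 2 * n)) := by
      have e1 : (2 : ℝ) = Real.exp (Real.log 2) := (Real.exp_log two_pos).symm
      conv_lhs => rw [e1]
      rw [← Real.exp_add, Real.exp_le_exp]
      linarith
    calc _ ≤ _ := h7
      _ ≤ Real.exp (-(c1 * n)) * (WL G n).card + Real.exp (-(c2 * n)) * (WL G n).card :=
          add_le_add h3 h4
      _ ≤ Real.exp (-(min c1 c2 * n)) * (WL G n).card +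
          Real.exp (-(min c1 c2 * n)) * (WL G n).card := by gcongr
      _ = (2 * Real.exp (-(min c1 c2 * n))) * (WL G n).card := by ring
      _ ≤ _ := by gcongr

variable [Countable V]

/-- laws of two-sided infinite self-avoiding walks at the fugacity `x` -/
structure Inf (x : ℝ) (κ : ℕ → ℕ → ℝ) (P : Measure (Cfg V)) : Prop where
  prob : IsProbabilityMeasure P
  line : ∀ᵐ η ∂P, Line G η
  dlr : Dlr G x P
  stat : ∀ g ∈ G.T, ∀ D : Set (Cfg V), MeasurableSet D →
    P.real ({η | Vis G g η} ∩ D) = P.real ({η | Vis G (-g) η} ∩ {η | mv g η ∈ D})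
  far : ∀ d m : ℕ, 2 ≤ m → ∀ y, Within G d 0 y → P.real (Far G y m) ≤ κ d m

/-- weak limits -/
theorem inf_of_limit {μ : ℝ} (hμ : 0 < μ) {κ : ℕ → ℕ → ℝ} (hκ : ∀ d, Tendsto (κ d) atTop (𝓝 0))
    {Q : ℕ → ProbabilityMeasure (Cfg V)}
    {P : ProbabilityMeasure (Cfg V)} (hQ : Tendsto Q atTop (𝓝 P)) (l : ℕ → List V)
    (hl : ∀ k, Walk G.Adj 0 (l k)) (hlen : Tendsto (fun k => (l k).length) atTop atTop)
    (hemp : ∀ k, (Q k : Measure (Cfg V)) = emp G (l k))
    (hbal : ∀ Λ A A' : Finset (Sym2 V), Exch G Λ A A' → A.Nonempty → A'.Nonempty →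
      Tendsto (fun k => (μ ^ A.card * NN G Λ A (tr (l k)) - μ ^ A'.card * NN G Λ A' (tr (l k))) /
        (l k).length) atTop (𝓝 0))
    (hap : ∀ d m : ℕ, 2 ≤ m → ∀ᶠ k in atTop,
      6 * (apart G d m (l k) : ℝ) ≤ κ d m * (l k).length) : Inf G (1 / μ) κ (P : Measure (Cfg V)) := by
  have hph := phase_of_limit G hμ hQ l hl hlen hemp hbal
  have hc := conn_of_limit G hQ l hl hlen hemp (fun d => ⟨fun m => κ d m / 6, by
    have := (hκ d).div_const 6
    rwa [zero_div] at this, fun m hm => by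
    filter_upwards [hap d m hm] with k hk
    linarith⟩)
  refine ⟨hph.prob, ?_, ?_, hph.stat, ?_⟩
  · filter_upwards [hph.vis, hph.paths, hc] with η h1 h2 h3
    exact line_of_conn G h2 h1 h3
  · exact dlr_of_gibbs G (by positivity) hph.gibbs
  · intro d m hm y hy
    have h1 := (dep_far G y m).tendsto hQ
    refine le_of_tendsto h1 ?_
    filter_upwards [hlen.eventually_ge_atTop 2, hap d m hm] with k hk1 hk2
    simp only [Function.comp_apply, hemp]
    refine (emp_far G (hl k) hk1 hy m).trans ?_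
    have hT : (0 : ℝ) < (Ts G (l k)).card := by exact_mod_cast Ts_pos G (hl k)
    have h7 : ((l k).length : ℝ) ≤ 3 * (Ts G (l k)).card := by
      have h8 := Ts_card G (hl k)
      have h9 := Ts_pos G (hl k)
      have : (l k).length ≤ 3 * (Ts G (l k)).card := by omega
      exact_mod_cast this
    have hκ0 : 0 ≤ κ d m := by
      have h8 : (0 : ℝ) < (l k).length := by
        have : 0 < (l k).length := by omega
        exact_mod_cast this
      have h9 : (0 : ℝ) ≤ κ d m * (l k).length :=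
        le_trans (mul_nonneg (by norm_num) (Nat.cast_nonneg _)) hk2
      exact nonneg_of_mul_nonneg_left h9 h8
    rw [div_le_iff₀ hT]
    nlinarith

/-- `l` is `ε`-close in the window `R` to a critical two-sided infinite self-avoiding walk -/
def Close (x : ℝ) (κ : ℕ → ℕ → ℝ) (ε : ℝ) (R : Finset (Sym2 V)) (l : List V) : Prop :=
  ∃ P : Measure (Cfg V), Inf G x κ P ∧
    ∀ S, S ⊆ R → |(emp G l).real (Cyl R S) - P.real (Cyl R S)| ≤ ε

/-- **almost all walks are locally close to a critical two-sided infinite walk** -/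
theorem quenched_inf {μ : ℝ} (hg : Growth G μ) {κ : ℕ → ℕ → ℝ} (hth : Thin G κ) {ε : ℝ}
    (hε : 0 < ε) (R : Finset (Sym2 V)) :
    ∃ c : ℝ, 0 < c ∧ ∀ᶠ n : ℕ in atTop,
      (((WL G n).filter (fun l => ¬ Close G (1 / μ) κ ε R l)).card : ℝ) ≤
        Real.exp (-(c * n)) * (WL G n).card := by
  by_contra hcon
  push Not at hcon
  have hmu : 0 < μ := lt_of_lt_of_le one_pos hg.one
  haveI : Countable (Finset (Sym2 V)) := inferInstance
  obtain ⟨τ, hτ⟩ : ∃ τ : ℕ → Finset (Sym2 V) × Finset (Sym2 V) × Finset (Sym2 V),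
      Function.Surjective τ := exists_surjective_nat _
  obtain ⟨σ, hσ⟩ : ∃ σ : ℕ → ℕ × ℕ, Function.Surjective σ := exists_surjective_nat _
  -- choice of the walks
  have hex : ∀ m : ℕ, ∃ l : List V, Walk G.Adj 0 l ∧ m ≤ l.length ∧ ¬ Close G (1 / μ) κ ε R l ∧
      (∀ j < m, Exch G (τ j).1 (τ j).2.1 (τ j).2.2 → (τ j).2.1.Nonempty → (τ j).2.2.Nonempty →
        |μ ^ (τ j).2.1.card * NN G (τ j).1 (τ j).2.1 (tr l) -
        μ ^ (τ j).2.2.card * NN G (τ j).1 (τ j).2.2 (tr l)| < 1 / ((m : ℝ) + 1) * l.length) ∧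
      ∀ j < m, 2 ≤ (σ j).2 → 6 * (apart G (σ j).1 (σ j).2 l : ℝ) ≤
        κ (σ j).1 (σ j).2 * l.length := by
    intro m
    obtain ⟨c1, hc1, h1⟩ := exp_small_union G hg τ (ε := 1 / ((m : ℝ) + 1)) (by positivity) m
    obtain ⟨Bd, hBd⟩ : ∃ Bd : ℕ → List V → Prop, ∀ j l, Bd j l ↔ (2 ≤ (σ j).2 ∧
      κ (σ j).1 (σ j).2 * l.length < 6 * apart G (σ j).1 (σ j).2 l) := ⟨_, fun _ _ => Iff.rfl⟩
    obtain ⟨c2, hc2, h2⟩ := union_small G Bd (by
        intro j
        by_cases h3 : 2 ≤ (σ j).2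
        · obtain ⟨c, hc, h4⟩ := hth.2 (σ j).1 (σ j).2 h3
          refine ⟨c, hc, ?_⟩
          filter_upwards [h4] with n h5
          refine le_trans (Nat.cast_le.2 (Finset.card_le_card ?_)) h5
          intro l hl
          rw [Finset.mem_filter] at hl ⊢
          exact ⟨hl.1, ((hBd _ _).1 hl.2).2⟩
        · refine ⟨1, one_pos, Eventually.of_forall fun n => ?_⟩
          rw [Finset.filter_eq_empty_iff.2 (fun l _ h => h3 ((hBd _ _).1 h).1)]
          simp only [Finset.card_empty, Nat.cast_zero]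
          positivity) m
    have hcm : 0 < min c1 c2 := lt_min hc1 hc2
    have hlim : Tendsto (fun n : ℕ => (min c1 c2 / 2) * (n : ℝ)) atTop atTop :=
      tendsto_natCast_atTop_atTop.const_mul_atTop (by positivity)
    obtain ⟨n, h3, h4, h5, h6, h7⟩ := ((hcon (min c1 c2 / 2) (by positivity)).and_eventually
      (h1.and (h2.and ((eventually_ge_atTop m).and
        (hlim.eventually_ge_atTop (Real.log 2)))))).exists
    obtain ⟨E1, hE1⟩ : ∃ E1, E1 = ((WL G n).filter (fun l => ∃ j < m, Exch G (τ j).1 (τ j).2.1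
        (τ j).2.2 ∧ (τ j).2.1.Nonempty ∧ (τ j).2.2.Nonempty ∧
        1 / ((m : ℝ) + 1) * l.length ≤ |μ ^ (τ j).2.1.card * NN G (τ j).1 (τ j).2.1 (tr l) -
        μ ^ (τ j).2.2.card * NN G (τ j).1 (τ j).2.2 (tr l)|)) := ⟨_, rfl⟩
    obtain ⟨E2, hE2⟩ : ∃ E2, E2 = ((WL G n).filter (fun l => ∃ j < m, Bd j l)) := ⟨_, rfl⟩
    rw [← hE1] at h4
    rw [← hE2] at h5
    have hW : (0 : ℝ) ≤ (WL G n).card := Nat.cast_nonneg _
    have hn0 : (0 : ℝ) ≤ n := Nat.cast_nonneg _
    have h8 : ((E1 ∪ E2).card : ℝ) ≤ Real.exp (-(min c1 c2 / 2 * n)) * (WL G n).card := by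
      have a1 : ((E1 ∪ E2).card : ℝ) ≤ E1.card + E2.card := by
        exact_mod_cast Finset.card_union_le _ _
      have a2 : Real.exp (-(c1 * n)) ≤ Real.exp (-(min c1 c2 * n)) := by
        rw [Real.exp_le_exp]
        nlinarith [min_le_left c1 c2]
      have a3 : Real.exp (-(c2 * n)) ≤ Real.exp (-(min c1 c2 * n)) := by
        rw [Real.exp_le_exp]
        nlinarith [min_le_right c1 c2]
      have a4 : 2 * Real.exp (-(min c1 c2 * n)) ≤ Real.exp (-(min c1 c2 / 2 * n)) := by
        have e1 : (2 : ℝ) = Real.exp (Real.log 2) := (Real.exp_log two_pos).symm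
        conv_lhs => rw [e1]
        rw [← Real.exp_add, Real.exp_le_exp]
        linarith
      calc ((E1 ∪ E2).card : ℝ) ≤ E1.card + E2.card := a1
        _ ≤ Real.exp (-(c1 * n)) * (WL G n).card + Real.exp (-(c2 * n)) * (WL G n).card :=
            add_le_add h4 h5
        _ ≤ Real.exp (-(min c1 c2 * n)) * (WL G n).card +
            Real.exp (-(min c1 c2 * n)) * (WL G n).card := by gcongr
        _ = (2 * Real.exp (-(min c1 c2 * n))) * (WL G n).card := by ring
        _ ≤ _ := by gcongr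
    have h9 := lt_of_le_of_lt h8 h3
    have h10 := (Nat.cast_lt (α := ℝ)).1 h9
    have h11 : ¬ (((WL G n).filter (fun l => ¬ Close G (1 / μ) κ ε R l)) ⊆ E1 ∪ E2) :=
      fun h => absurd (Finset.card_le_card h) (by omega)
    rw [Finset.not_subset] at h11
    obtain ⟨l, h12, h13⟩ := h11
    rw [Finset.mem_filter] at h12
    rw [Finset.mem_union, not_or, hE1, hE2, Finset.mem_filter, Finset.mem_filter] at h13
    have h14 := (mem_WL G).1 h12.1
    refine ⟨l, h14.1, by rw [h14.2]; omega, h12.2, fun j hj a1 a2 a3 => ?_, fun j hj a1 => ?_⟩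
    · by_contra h15
      rw [not_lt] at h15
      exact h13.1 ⟨h12.1, j, hj, a1, a2, a3, h15⟩
    · by_contra h15
      rw [not_le] at h15
      exact h13.2 ⟨h12.1, j, hj, (hBd _ _).2 ⟨a1, h15⟩⟩
  choose l hl1 hl2 hl3 hl4 hl5 using hex
  obtain ⟨Q, hQ⟩ : ∃ Q : ℕ → ProbabilityMeasure (Cfg V), ∀ k, (Q k : Measure (Cfg V)) =
      emp G (l k) :=
    ⟨fun k => ⟨emp G (l k), emp_prob G (hl1 k)⟩, fun k => rfl⟩
  haveI : TopologicalSpace.PseudoMetrizableSpace (Cfg V) := by
    haveI : TopologicalSpace.MetrizableSpace (Cfg V) :=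
      TopologicalSpace.metrizableSpace_of_t3_secondCountable _
    infer_instance
  obtain ⟨P, -, φ, hφ, hP⟩ := (isCompact_univ (X := ProbabilityMeasure (Cfg V))).isSeqCompact
    (x := Q) (fun _ => Set.mem_univ _)
  have hlen : Tendsto (fun k => (l (φ k)).length) atTop atTop :=
    tendsto_atTop_mono (fun k => hl2 (φ k)) hφ.tendsto_atTop
  have hph : Inf G (1 / μ) κ (P : Measure (Cfg V)) := by
    refine inf_of_limit G hmu hth.1 hP (fun k => l (φ k)) (fun k => hl1 _) hlen (fun k => hQ _)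
      ?_ ?_
    · intro Λ A A' hE h0 h0'
      obtain ⟨j, hj⟩ := hτ (Λ, A, A')
      rw [tendsto_zero_iff_abs_tendsto_zero]
      have h1 : Tendsto (fun k => 1 / ((φ k : ℝ) + 1)) atTop (𝓝 0) :=
        (tendsto_one_div_add_atTop_nhds_zero_nat (𝕜 := ℝ)).comp hφ.tendsto_atTop
      refine squeeze_zero' (Eventually.of_forall fun k => abs_nonneg _) ?_ h1
      filter_upwards [hφ.tendsto_atTop.eventually_gt_atTop j] with k hk
      have h2 := hl4 (φ k) j hk (by rw [hj]; exact hE) (by rw [hj]; exact h0) (by rw [hj]; exact h0')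
      rw [hj] at h2
      simp only at h2
      have h3 : (0 : ℝ) < (l (φ k)).length := by
        have h4 : 0 < (l (φ k)).length := by
          have := hl2 (φ k)
          omega
        exact_mod_cast h4
      simp only [Function.comp_apply]
      rw [abs_div, abs_of_pos h3, div_le_iff₀ h3]
      exact h2.le
    · intro d m hm
      obtain ⟨j, hj⟩ := hσ (d, m)
      filter_upwards [hφ.tendsto_atTop.eventually_gt_atTop j] with k hk
      have h2 := hl5 (φ k) j hk (by rw [hj]; exact hm)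
      rw [hj] at h2
      exact h2
  -- contradiction
  have hev : ∀ᶠ k in atTop, ∀ S ∈ R.powerset,
      |(emp G (l (φ k))).real (Cyl R S) - (P : Measure (Cfg V)).real (Cyl R S)| ≤ ε := by
    rw [Filter.eventually_all_finset]
    intro S _
    have h1 := (dep_cyl R S).tendsto hP
    have h2 : Tendsto (fun k => (emp G (l (φ k))).real (Cyl R S)) atTop
        (𝓝 ((P : Measure (Cfg V)).real (Cyl R S))) := by
      simpa only [Function.comp_apply, hQ] using h1
    have h3 := (Metric.tendsto_nhds.1 h2) ε hε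
    filter_upwards [h3] with k hk
    rw [Real.dist_eq] at hk
    exact hk.le
  obtain ⟨k, hk⟩ := hev.exists
  exact hl3 (φ k) ⟨P, hph, fun S hS => hk S (Finset.mem_powerset.2 hS)⟩

theorem inf_avg {ι : Type} {F : Finset ι} (hF : F.Nonempty) {P : ι → Measure (Cfg V)} {x : ℝ}
    {κ : ℕ → ℕ → ℝ} (h : ∀ i ∈ F, Inf G x κ (P i)) : Inf G x κ (avg F P) := by
  have hp : ∀ i ∈ F, IsProbabilityMeasure (P i) := fun i hi => (h i hi).prob
  have hc : (F.card : ℝ) ≠ 0 := by exact_mod_cast (Finset.card_pos.2 hF).ne'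
  have hc0 : (0 : ℝ) < F.card := by exact_mod_cast Finset.card_pos.2 hF
  refine ⟨?_, avg_ae fun i hi => (h i hi).line, ?_, ?_, ?_⟩
  · have h1 : (avg F P).real Set.univ = 1 := by
      rw [avg_real hp]
      have h2 : ∑ i ∈ F, (P i).real Set.univ = F.card := by
        rw [Finset.sum_congr rfl (g := fun _ => (1 : ℝ))]
        · simp
        · intro i hi
          haveI := hp i hi
          exact probReal_univ
      rw [h2, div_self hc]
    constructor
    unfold Measure.real at h1
    rw [ENNReal.toReal_eq_one_iff] at h1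
    exact h1
  · intro Λ A A' hA hA' C hC hC1 hC2
    rw [avg_real hp, avg_real hp, mul_div_assoc', mul_div_assoc', Finset.mul_sum, Finset.mul_sum]
    congr 1
    exact Finset.sum_congr rfl fun i hi => (h i hi).dlr Λ A A' hA hA' C hC hC1 hC2
  · intro g hg D hD
    rw [avg_real hp, avg_real hp]
    congr 1
    exact Finset.sum_congr rfl fun i hi => (h i hi).stat g hg D hD
  · intro d m hm y hy
    rw [avg_real hp, div_le_iff₀ hc0]
    refine (Finset.sum_le_sum fun i hi => (h i hi).far d m hm y hy).trans ?_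
    rw [Finset.sum_const, nsmul_eq_mul, mul_comm]

end

end U443.OS
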