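import Pool.Agent.U443.OS.Conn

/-!
# Connected configurations are single two-sided infinite self-avoiding walks
-/

set_option autoImplicit false

namespace U443.OS

open Finset MeasureTheory Filter Topology U443.LG
open scoped Classical

noncomputable section

variable {V : Type} [AddCommGroup V] (G : Geo V)

/-- the open pairs of `η` are the edges of the two-sided infinite self-avoiding walk `γ` -/
def Trk (η : Cfg V) (γ : ℤ → V) : Prop :=
  Function.Injective γ ∧ (∀ i, G.Adj (γ i) (γ (i + 1))) ∧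
    ∀ e, η e = true ↔ ∃ i, e = s(γ i, γ (i + 1))

/-- the open pairs are the edges of one two-sided infinite self-avoiding walk through `0` -/
def Line (η : Cfg V) : Prop := ∃ γ : ℤ → V, γ 0 = 0 ∧ Trk G η γ

theorem two_nb {η : Cfg V} (h : BiInf G η) {x y : V} (hxy : η s(x, y) = true) :
    ∃ z, η s(x, z) = true ∧ z ≠ y ∧ ∀ w, η s(x, w) = true → w = y ∨ w = z := by
  obtain ⟨h1, h2, -⟩ := h
  have hy : s(x, y) ∈ (star G x).filter (fun e => η e = true) := by
    rw [Finset.mem_filter]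
    exact ⟨Finset.mem_image_of_mem _ ((G.mem_nb x y).2 (h1 x y hxy)), hxy⟩
  have h3 : ((star G x).filter (fun e => η e = true)).card = 2 := by
    rcases h2 x with h3 | h3
    · rw [Finset.card_eq_zero] at h3
      rw [h3] at hy
      simp at hy
    · exact h3
  have h4 : (((star G x).filter (fun e => η e = true)).erase s(x, y)).card = 1 := by
    rw [Finset.card_erase_of_mem hy, h3]
  obtain ⟨e, he⟩ := Finset.card_eq_one.1 h4
  have h5 : e ∈ ((star G x).filter (fun e => η e = true)).erase s(x, y) := by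
    rw [he]; exact Finset.mem_singleton_self _
  rw [Finset.mem_erase, Finset.mem_filter] at h5
  obtain ⟨h6, h7, h8⟩ := h5
  unfold U443.LG.star at h7
  rw [Finset.mem_image] at h7
  obtain ⟨z, hz, rfl⟩ := h7
  refine ⟨z, h8, ?_, fun w hw => ?_⟩
  · rintro rfl
    exact h6 rfl
  · by_contra hcon
    rw [not_or] at hcon
    have h9 : s(x, w) ∈ ((star G x).filter (fun e => η e = true)).erase s(x, y) := by
      rw [Finset.mem_erase, Finset.mem_filter]
      refine ⟨?_, Finset.mem_image_of_mem _ ((G.mem_nb x w).2 (h1 x w hw)), hw⟩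
      intro h10
      rw [Sym2.eq_iff] at h10
      rcases h10 with ⟨-, h10⟩ | ⟨h10, h11⟩
      · exact hcon.1 h10
      · exact hcon.1 (h11.trans h10)
    rw [he, Finset.mem_singleton, Sym2.eq_iff] at h9
    rcases h9 with ⟨-, h10⟩ | ⟨h10, h11⟩
    · exact hcon.2 h10
    · exact hcon.2 (h11.trans h10)

theorem open_symm {η : Cfg V} {x y : V} (h : η s(x, y) = true) : η s(y, x) = true := by
  rw [Sym2.eq_swap]; exact h

/-- the walk along the open edges -/
theorem exists_track {η : Cfg V} (h : BiInf G η) {a b : V} (hab : η s(a, b) = true) :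
    ∃ γ : ℤ → V, γ 0 = a ∧ (∀ i, η s(γ i, γ (i + 1)) = true) ∧ (∀ i, γ (i + 2) ≠ γ i) ∧
      ∀ i w, η s(γ (i + 1), w) = true → w = γ i ∨ w = γ (i + 2) := by
  have hex : ∀ x y, ∃ z, η s(x, y) = true → (η s(x, z) = true ∧ z ≠ y ∧
      ∀ w, η s(x, w) = true → w = y ∨ w = z) := by
    intro x y
    by_cases hxy : η s(x, y) = true
    · obtain ⟨z, hz⟩ := two_nb G h hxy
      exact ⟨z, fun _ => hz⟩
    · exact ⟨x, fun h' => absurd h' hxy⟩
  choose oth hoth using hex
  obtain ⟨f, hf⟩ : ∃ f : Equiv.Perm {q : V × V // η s(q.1, q.2) = true},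
      ∀ q, (f q).1 = (q.1.2, oth q.1.2 q.1.1) := by
    refine ⟨⟨fun q => ⟨(q.1.2, oth q.1.2 q.1.1), (hoth _ _ (open_symm q.2)).1⟩,
      fun q => ⟨(oth q.1.1 q.1.2, q.1.1), open_symm (hoth _ _ q.2).1⟩, ?_, ?_⟩, fun q => rfl⟩
    · rintro ⟨⟨u, v⟩, huv⟩
      simp only [Subtype.mk.injEq, Prod.mk.injEq, and_true]
      simp only at huv
      have h1 := hoth v u (open_symm huv)
      have h2 := hoth v (oth v u) h1.1
      rcases h2.2.2 u (open_symm huv) with h3 | h3
      · exact absurd h3.symm h1.2.1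
      · exact h3.symm
    · rintro ⟨⟨u, v⟩, huv⟩
      simp only [Subtype.mk.injEq, Prod.mk.injEq, true_and]
      simp only at huv
      have h1 := hoth u v huv
      have h2 := hoth u (oth u v) h1.1
      rcases h2.2.2 v huv with h3 | h3
      · exact absurd h3.symm h1.2.1
      · exact h3.symm
  obtain ⟨g, hg⟩ : ∃ g : ℤ → {q : V × V // η s(q.1, q.2) = true},
      g = fun i => (f ^ i) ⟨(a, b), hab⟩ := ⟨_, rfl⟩
  have hg0 : g 0 = ⟨(a, b), hab⟩ := by rw [hg]; simp
  have hgs : ∀ i, g (i + 1) = f (g i) := by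
    intro i
    rw [hg]
    simp only
    rw [add_comm, zpow_add, zpow_one, Equiv.Perm.mul_apply]
  have h1 : ∀ i, (g (i + 1)).1.1 = (g i).1.2 := by
    intro i
    rw [hgs, hf]
  have h2 : ∀ i, (g (i + 1)).1.2 = oth (g i).1.2 (g i).1.1 := by
    intro i
    rw [hgs, hf]
  have h3 : ∀ i, (g (i + 2)).1.1 = oth (g i).1.2 (g i).1.1 := by
    intro i
    rw [show i + 2 = (i + 1) + 1 by ring, h1, h2]
  refine ⟨fun i => (g i).1.1, by simp only [hg0], fun i => ?_, fun i => ?_, fun i w hw => ?_⟩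
  · simp only
    rw [h1]
    exact (g i).2
  · simp only
    rw [h3]
    exact (hoth _ _ (open_symm (g i).2)).2.1
  · simp only at hw ⊢
    rw [h1] at hw
    rw [h3]
    exact (hoth _ _ (open_symm (g i).2)).2.2 w hw

theorem track_inj {η : Cfg V} (h : BiInf G η) {γ : ℤ → V}
    (h1 : ∀ i, η s(γ i, γ (i + 1)) = true) (h2 : ∀ i, γ (i + 2) ≠ γ i) :
    Function.Injective γ := by
  by_contra hcon
  have hex : ∃ n : ℕ, 0 < n ∧ ∃ i : ℤ, γ (i + n) = γ i := by
    unfold Function.Injective at hcon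
    push Not at hcon
    obtain ⟨a, b, hab, hne⟩ := hcon
    rcases lt_or_gt_of_ne hne with h3 | h3
    · refine ⟨(b - a).toNat, by omega, a, ?_⟩
      rw [Int.toNat_of_nonneg (by omega), add_sub_cancel]
      exact hab.symm
    · refine ⟨(a - b).toNat, by omega, b, ?_⟩
      rw [Int.toNat_of_nonneg (by omega), add_sub_cancel]
      exact hab
  obtain ⟨n, hn⟩ : ∃ n, n = Nat.find hex := ⟨_, rfl⟩
  obtain ⟨hn0, i, hi⟩ := Nat.find_spec hex
  rw [← hn] at hn0 hi
  have hmin : ∀ m : ℕ, 0 < m → m < n → ∀ j : ℤ, γ (j + m) ≠ γ j := by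
    intro m hm hmn j hj
    exact Nat.find_min hex (m := m) (by rw [← hn]; exact hmn) ⟨hm, j, hj⟩
  have hn1 : n ≠ 1 := by
    rintro rfl
    have h3 := h1 i
    simp only [Nat.cast_one] at hi
    rw [hi] at h3
    exact G.irr _ (h.1 _ _ h3)
  have hn2 : n ≠ 2 := by
    rintro rfl
    exact h2 i hi
  obtain ⟨Z, hZ⟩ : ∃ Z : Finset (Sym2 V), Z = (Finset.range n).image
    (fun t : ℕ => s(γ (i + t), γ (i + t + 1))) := ⟨_, rfl⟩
  have hmemZ : ∀ t : ℕ, t < n → s(γ (i + t), γ (i + t + 1)) ∈ Z := by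
    intro t ht
    rw [hZ, Finset.mem_image]
    exact ⟨t, Finset.mem_range.2 ht, rfl⟩
  obtain ⟨x, y, h3, h4⟩ := h.2.2 Z ⟨_, hmemZ 0 hn0⟩ (by
    intro e he
    rw [hZ, Finset.mem_image] at he
    obtain ⟨t, -, rfl⟩ := he
    exact h1 _)
  obtain ⟨t, ht, rfl⟩ : ∃ t : ℕ, t < n ∧ x = γ (i + t) := by
    rw [hZ, Finset.mem_image] at h3
    obtain ⟨t, ht, h5⟩ := h3
    rw [Finset.mem_range] at ht
    rw [Sym2.eq_iff] at h5
    rcases h5 with ⟨h5, -⟩ | ⟨-, h5⟩
    · exact ⟨t, ht, h5.symm⟩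
    · by_cases h6 : t + 1 < n
      · refine ⟨t + 1, h6, ?_⟩
        rw [← h5]
        push_cast
        congr 1
        ring
      · refine ⟨0, hn0, ?_⟩
        rw [← h5, Nat.cast_zero, add_zero, ← hi]
        congr 1
        have : t + 1 = n := by omega
        rw [← this]
        push_cast
        ring
  have h5 := h4 _ (hmemZ t ht)
  rcases Nat.eq_zero_or_pos t with rfl | ht0
  · have h6 := h4 (γ (i + (n - 1 : ℕ))) (by
      have h7 := hmemZ (n - 1) (by omega)
      have e1 : i + ((n - 1 : ℕ) : ℤ) + 1 = i + n := by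
        push_cast [Nat.cast_sub (show 1 ≤ n by omega)]
        ring
      rw [e1, hi] at h7
      rw [Nat.cast_zero, add_zero, Sym2.eq_swap]
      exact h7)
    rw [← h5] at h6
    refine hmin (n - 2) (by omega) (by omega) (i + 1) ?_
    rw [Nat.cast_zero, add_zero] at h6
    rw [← h6]
    congr 1
    push_cast [Nat.cast_sub (show 1 ≤ n by omega), Nat.cast_sub (show 2 ≤ n by omega)]
    ring
  · have h6 := h4 (γ (i + (t - 1 : ℕ))) (by
      have h7 := hmemZ (t - 1) (by omega)
      have e1 : i + ((t - 1 : ℕ) : ℤ) + 1 = i + t := by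
        push_cast [Nat.cast_sub (show 1 ≤ t by omega)]
        ring
      rw [e1] at h7
      rw [Sym2.eq_swap]
      exact h7)
    rw [← h5] at h6
    refine h2 (i + (t - 1 : ℕ)) ?_
    rw [h6]
    congr 1
    push_cast [Nat.cast_sub (show 1 ≤ t by omega)]
    ring

/-- **one walk** -/
theorem line_of_conn {η : Cfg V} (h : BiInf G η) (h0 : Vis G 0 η)
    (hc : ∀ y, Vis G y η → ∃ n, Lnk G η 0 y n) : Line G η := by
  obtain ⟨b, -, hb⟩ := h0
  obtain ⟨γ, g0, g1, g2, g3⟩ := exists_track G h hb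
  have hinj := track_inj G h g1 g2
  have hcov : ∀ p : List V, ∀ a, p.head? = some a → (∃ i, a = γ i) →
      p.IsChain (fun u v => G.Adj u v ∧ η s(u, v) = true) → ∀ b, p.getLast? = some b →
      ∃ j, b = γ j := by
    intro p
    induction p with
    | nil => intro a ha; simp at ha
    | cons a p ih =>
      intro a' ha hi hp b hb
      simp only [List.head?_cons, Option.some.injEq] at ha
      subst ha
      cases p with
      | nil =>
        simp only [List.getLast?_singleton, Option.some.injEq] at hb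
        subst hb
        exact hi
      | cons c p =>
        rw [List.isChain_cons_cons] at hp
        refine ih c rfl ?_ hp.2 b (by rw [List.getLast?_cons_cons] at hb; exact hb)
        obtain ⟨i, rfl⟩ := hi
        have h5 := g3 (i - 1) c (by rw [sub_add_cancel]; exact hp.1.2)
        rcases h5 with h5 | h5
        · exact ⟨_, h5⟩
        · exact ⟨_, h5⟩
  refine ⟨γ, g0, hinj, fun i => h.1 _ _ (g1 i), fun e => ⟨fun he => ?_, ?_⟩⟩
  · induction e with
    | _ x y =>
      obtain ⟨n, p, a1, a2, a3, -⟩ := hc x ⟨y, h.1 _ _ he, he⟩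
      obtain ⟨i, rfl⟩ := hcov p 0 a1 ⟨0, g0.symm⟩ a3 x a2
      rcases g3 (i - 1) y (by rw [sub_add_cancel]; exact he) with h5 | h5
      · refine ⟨i - 1, ?_⟩
        rw [h5, sub_add_cancel]
        exact Sym2.eq_swap
      · refine ⟨i, ?_⟩
        rw [h5, show i - 1 + 2 = i + 1 by ring]
  · rintro ⟨i, rfl⟩
    exact g1 i

end

end U443.OS
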