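import Pool.Agent.U443.OS.Blk
import Pool.Agent.U443.LG.Pat

/-!
# Pairs of close vertices with a large gap: exponentially small probabilities
-/

set_option autoImplicit false

namespace U443.OS

open scoped ENNReal Classical
open Filter Topology U443.LG
open Pool.Agent.U372.HX (Nbr WW nB Nr tot tot_mono tot_one tot_iUnion cN KW KW_ge
  Nr_cl bx bx_card mem_bx cl)

noncomputable section

/-- graph distance at most `k` -/
def Within {V : Type} [AddCommGroup V] (G : Geo V) (k : ℕ) (x y : V) : Prop :=
  ∃ p : List V, p.head? = some x ∧ p.getLast? = some y ∧ p.IsChain G.Adj ∧ p.length ≤ k + 1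

/-- the number of the pairs of positions `i`, `j` with `j > i + m` at which the walk is at vertices
with graph distance at most `k` -/
def apart {V : Type} [AddCommGroup V] (G : Geo V) (k m : ℕ) (l : List V) : ℕ :=
  Set.ncard {q : ℕ × ℕ | q.1 + m < q.2 ∧ ∃ x y, l[q.1]? = some x ∧ l[q.2]? = some y ∧
    Within G k x y}

theorem nbr_iff (p q : ℤ × ℤ) : HexAdj p q ↔ Nbr p q := by
  obtain ⟨a, b⟩ := p
  obtain ⟨x, y⟩ := q
  unfold HexAdj Nbr
  simp only [Int.even_iff]
  omega

theorem nr_mono {A : Set (ℤ × ℤ)} {k : ℕ} {v : ℤ × ℤ} (h : v ∈ Nr A k) : v ∈ Nr A (k + 1) := Or.inl h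

theorem within_nr {k : ℕ} {x y : ℤ × ℤ} (h : Within hexG k x y) : y ∈ Nr {x} k := by
  obtain ⟨p, h1, h2, h3, h4⟩ := h
  induction k generalizing p y with
  | zero =>
    rcases p with - | ⟨a, p⟩
    · simp at h1
    rcases p with - | ⟨b, p⟩
    · simp only [List.head?_cons, Option.some.injEq, List.getLast?_singleton] at h1 h2
      show y ∈ ({x} : Set (ℤ × ℤ))
      rw [Set.mem_singleton_iff, ← h2, h1]
    · simp at h4
  | succ k ih =>
    by_cases h5 : p.length ≤ k + 1
    · exact nr_mono (ih p h1 h2 h3 h5)
    · rcases List.eq_nil_or_concat p with rfl | ⟨q, b, rfl⟩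
      · simp at h1
      rw [List.concat_eq_append] at h1 h2 h3 h4 h5
      rw [List.getLast?_append] at h2
      simp only [List.getLast?_singleton, Option.some_or, Option.some.injEq] at h2
      subst h2
      rcases List.eq_nil_or_concat q with rfl | ⟨q', a, rfl⟩
      · simp at h5
      rw [List.concat_eq_append] at h1 h3 h4 h5
      have h6 := List.isChain_append.1 h3
      have h7 : HexAdj a b := h6.2.2 a (by simp) b (by simp)
      refine Or.inr ⟨a, ih (q' ++ [a]) ?_ ?_ h6.1 ?_, (nbr_iff _ _).1 h7⟩
      · rw [List.head?_append] at h1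
        have : (q' ++ [a]).head? ≠ none := by simp
        rcases h8 : (q' ++ [a]).head? with - | z
        · exact absurd h8 this
        · rw [h8] at h1
          simpa using h1
      · simp
      · simp only [List.length_append, List.length_cons, List.length_nil] at h4 ⊢
        omega

theorem nr_sub {A B : Set (ℤ × ℤ)} (hAB : A ⊆ B) {k : ℕ} : Nr A k ⊆ Nr B k :=
  Pool.Agent.U372.HX.Nr_sub hAB

/-- positions in the blocks, close to the past of the block -/
def JJ (M k N : ℕ) (s l : List (ℤ × ℤ)) : Set ℕ :=
  {j | j < N * M ∧ ∃ v, l[j]? = some v ∧ v ∈ Nr {u | u ∈ s ++ l.take ((j / M) * M)} k}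

theorem JJ_finite (M k N : ℕ) (s l : List (ℤ × ℤ)) : (JJ M k N s l).Finite :=
  (Set.finite_lt_nat (N * M)).subset fun _ h => h.1

theorem JJ_le (M k : ℕ) (hM : 1 ≤ M) (N : ℕ) : ∀ s l : List (ℤ × ℤ), l.Nodup →
    (JJ M k N s l).ncard ≤ nbs M k N s l := by
  induction N with
  | zero =>
    intro s l _
    have : JJ M k 0 s l = ∅ := by
      ext j
      simp [JJ]
    rw [this]
    simp
  | succ N ih =>
    intro s l hl
    obtain ⟨F, hF⟩ : ∃ F : Set ℕ, F = {j | j < M ∧ ∃ v, l[j]? = some v ∧ v ∈ Nr {u | u ∈ s} k} :=
      ⟨_, rfl⟩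
    have hFf : F.Finite := by
      rw [hF]
      exact (Set.finite_lt_nat M).subset fun _ h => h.1
    have hsub : JJ M k (N + 1) s l ⊆ F ∪ (fun j => j + M) '' (JJ M k N (s ++ l.take M) (l.drop M)) := by
      rintro j ⟨h1, v, h2, h3⟩
      by_cases hj : j < M
      · left
        rw [hF]
        rw [Nat.div_eq_of_lt hj] at h3
        simp only [zero_mul, List.take_zero, List.append_nil] at h3
        exact ⟨hj, v, h2, h3⟩
      · right
        refine ⟨j - M, ⟨?_, v, ?_, ?_⟩, by simp only; omega⟩
        · rw [Nat.add_mul, one_mul] at h1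
          omega
        · rw [List.getElem?_drop]
          rw [show M + (j - M) = j by omega]
          exact h2
        · have e1 : j / M = (j - M) / M + 1 := by
            rw [Nat.div_eq_sub_div (by omega) (by omega)]
          have e2 : s ++ l.take ((j / M) * M) =
              (s ++ l.take M) ++ (l.drop M).take (((j - M) / M) * M) := by
            rw [e1, Nat.add_mul, one_mul, Nat.add_comm, List.take_add, List.append_assoc]
          rw [e2] at h3
          exact h3
    have hfin2 : ((fun j => j + M) '' (JJ M k N (s ++ l.take M) (l.drop M))).Finite :=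
      (JJ_finite _ _ _ _ _).image _
    refine (Set.ncard_le_ncard hsub (hFf.union hfin2)).trans ?_
    refine (Set.ncard_union_le _ _).trans ?_
    unfold nbs
    refine add_le_add ?_ ?_
    · unfold nB
      rw [← Set.ncard_coe_finset]
      refine Set.ncard_le_ncard_of_injOn (fun j => l.getD j 0) ?_ ?_ (Finset.finite_toSet _)
      · intro j hj
        rw [hF] at hj
        obtain ⟨h1, v, h2, h3⟩ := hj
        have h4 : l.getD j 0 = v := by
          rw [List.getD_eq_getElem?_getD, h2]
          rfl
        rw [Finset.mem_coe, Finset.mem_filter, List.mem_toFinset]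
        simp only [h4]
        refine ⟨?_, h3⟩
        have h5 : (l.take M)[j]? = some v := by
          rw [List.getElem?_take_of_lt h1]
          exact h2
        exact List.mem_of_getElem? h5
      · intro i hi j hj hij
        rw [hF] at hi hj
        obtain ⟨-, v, h2, -⟩ := hi
        obtain ⟨-, v', h2', -⟩ := hj
        simp only [List.getD_eq_getElem?_getD, h2, h2', Option.getD_some] at hij
        subst hij
        exact (List.nodup_iff_getElem?_ne_getElem?.1 hl |> fun h => by
          by_contra hne
          rcases Nat.lt_or_gt_of_ne hne with h6 | h6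
          · have h7 : j < l.length := by
              by_contra h8
              rw [List.getElem?_eq_none (by omega)] at h2'
              simp at h2'
            exact h i j h6 h7 (h2.trans h2'.symm)
          · have h7 : i < l.length := by
              by_contra h8
              rw [List.getElem?_eq_none (by omega)] at h2
              simp at h2
            exact h j i h6 h7 (h2'.trans h2.symm))
    · rw [Set.ncard_image_of_injective _ (add_left_injective M)]
      exact ih _ _ ((List.drop_sublist M l).nodup hl)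

theorem apart_le {M k m N r : ℕ} (hM : 1 ≤ M) (hm : M ≤ m + 1) {l : List (ℤ × ℤ)} (hl : l.Nodup)
    (hlen : l.length = N * M + r) :
    apart hexG k m l ≤ (2 * k + 1) ^ 2 * (nbs M k N [] l + r) := by
  obtain ⟨J, hJ⟩ : ∃ J : Set ℕ, J = JJ M k N [] l ∪ {j | N * M ≤ j ∧ j < N * M + r} := ⟨_, rfl⟩
  have hRf : ({j | N * M ≤ j ∧ j < N * M + r} : Set ℕ).Finite :=
    (Set.finite_lt_nat (N * M + r)).subset fun _ h => h.2
  have hJf : J.Finite := by
    rw [hJ]
    exact (JJ_finite _ _ _ _ _).union hRf
  have hJc : J.ncard ≤ nbs M k N [] l + r := by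
    rw [hJ]
    refine (Set.ncard_union_le _ _).trans (add_le_add (JJ_le M k hM N [] l hl) ?_)
    have e : ({j | N * M ≤ j ∧ j < N * M + r} : Set ℕ) = ((Finset.Ico (N * M) (N * M + r) : Finset ℕ) : Set ℕ) := by
      ext j
      simp
    rw [e, Set.ncard_coe_finset]
    simp
  obtain ⟨B, hB⟩ : ∃ B : Finset (ℤ × ℤ), B = bx (k : ℤ) 0 := ⟨_, rfl⟩
  have hBc : B.card = (2 * k + 1) ^ 2 := by
    rw [hB, bx_card]
    congr 1
  unfold apart
  have h1 : (J ×ˢ (B : Set (ℤ × ℤ))).ncard = J.ncard * (2 * k + 1) ^ 2 := by
    rw [Set.ncard_prod, Set.ncard_coe_finset, hBc]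
  refine le_trans (Set.ncard_le_ncard_of_injOn (t := J ×ˢ (B : Set (ℤ × ℤ)))
    (fun q => (q.2, l.getD q.1 0 - l.getD q.2 0)) ?_ ?_ (hJf.prod (Finset.finite_toSet _))) ?_
  · rintro ⟨i, j⟩ ⟨h2, x, y, h3, h4, h5⟩
    simp only at h2 h3 h4
    have hx : l.getD i 0 = x := by rw [List.getD_eq_getElem?_getD, h3]; rfl
    have hy : l.getD j 0 = y := by rw [List.getD_eq_getElem?_getD, h4]; rfl
    have h6 := within_nr h5
    have hj : j < l.length := by
      by_contra h8
      rw [List.getElem?_eq_none (by omega)] at h4
      simp at h4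
    refine ⟨?_, ?_⟩
    · simp only
      rw [hJ]
      by_cases h7 : j < N * M
      · left
        refine ⟨h7, y, h4, ?_⟩
        refine nr_sub ?_ h6
        rintro u hu
        rw [Set.mem_singleton_iff] at hu
        subst hu
        rw [Set.mem_setOf_eq, List.nil_append]
        have h8 : i < (j / M) * M := by
          have h9 := Nat.div_add_mod j M
          have h10 := Nat.mod_lt j (show M > 0 by omega)
          rw [mul_comm] at h9
          omega
        have h9 : (l.take ((j / M) * M))[i]? = some u := by
          rw [List.getElem?_take_of_lt h8]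
          exact h3
        exact List.mem_of_getElem? h9
      · right
        exact ⟨by omega, by omega⟩
    · simp only
      rw [hx, hy, hB, Finset.mem_coe, mem_bx]
      obtain ⟨a, ha, hcl⟩ := Nr_cl h6
      rw [Set.mem_singleton_iff] at ha
      subst ha
      obtain ⟨h7, h8⟩ := hcl
      unfold cl
      simp only [Prod.fst_sub, Prod.snd_sub, Prod.fst_zero, Prod.snd_zero, sub_zero]
      exact ⟨h7, h8⟩
  · rintro ⟨i, j⟩ ⟨h2, x, y, h3, h4, h5⟩ ⟨i', j'⟩ ⟨h2', x', y', h3', h4', h5'⟩ he
    simp only [Prod.mk.injEq] at h2 h3 h4 h2' h3' h4' he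
    obtain ⟨rfl, he⟩ := he
    have hx : l.getD i 0 = x := by rw [List.getD_eq_getElem?_getD, h3]; rfl
    have hx' : l.getD i' 0 = x' := by rw [List.getD_eq_getElem?_getD, h3']; rfl
    rw [sub_left_inj, hx, hx'] at he
    subst he
    rw [Prod.mk.injEq]
    refine ⟨?_, rfl⟩
    have h := List.nodup_iff_getElem?_ne_getElem?.1 hl
    by_contra hne
    rcases Nat.lt_or_gt_of_ne hne with h6 | h6
    · have h7 : i' < l.length := by
        by_contra h8
        rw [List.getElem?_eq_none (by omega)] at h3'
        simp at h3'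
      exact h i i' h6 h7 (h3.trans h3'.symm)
    · have h7 : i < l.length := by
        by_contra h8
        rw [List.getElem?_eq_none (by omega)] at h3
        simp at h3
      exact h i' i h6 h7 (h3'.trans h3.symm)
  · rw [h1, mul_comm]
    exact Nat.mul_le_mul_left _ hJc

end

end U443.OS
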