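import Pool.Agent.U443.OS.Wt

/-!
# All pieces of the walk
-/

set_option autoImplicit false

namespace U443.OS

open Finset MeasureTheory Filter Topology U443.LG
open scoped Classical ENNReal

noncomputable section

section gen

variable {V : Type} [AddCommGroup V] (G : Geo V) [Countable V]

/-- splitting a walk in two -/
theorem split_nat (v : V) (i j : ℕ) (P Q : List V → Prop) (B : ℕ)
    (hB : ∀ u, ((WV G u j).filter (fun b => Q b)).card ≤ B) :
    ((WV G v (i + j)).filter (fun l => P (l.take (i + 1)) ∧ Q (l.drop i))).card ≤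
      B * ((WV G v i).filter (fun a => P a)).card := by
  refine Finset.card_le_mul_card_image_of_maps_to (f := fun l => l.take (i + 1)) ?_ B ?_
  · intro l hl
    rw [Finset.mem_filter, mem_WV] at hl ⊢
    obtain ⟨⟨⟨h1, h2, h3⟩, h4⟩, h5, -⟩ := hl
    refine ⟨⟨⟨?_, (List.take_sublist _ _).nodup h2, h3.take _⟩, ?_⟩, h5⟩
    · rw [List.head?_take, if_neg (by omega)]
      exact h1
    · rw [List.length_take]
      omega
  · intro b _
    refine le_trans (Finset.card_le_card_of_injOn (t := (WV G ((b[i]?).getD 0) j).filter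
      (fun b => Q b)) (fun l => l.drop i) ?_ ?_) (hB ((b[i]?).getD 0))
    · intro l hl
      rw [Finset.mem_coe, Finset.mem_filter, Finset.mem_filter, mem_WV] at hl
      obtain ⟨⟨⟨⟨h1, h2, h3⟩, h4⟩, -, h6⟩, h7⟩ := hl
      rw [Finset.mem_coe, Finset.mem_filter, mem_WV]
      refine ⟨⟨⟨?_, (List.drop_sublist _ _).nodup h2, h3.drop _⟩, ?_⟩, h6⟩
      · rw [List.head?_drop, ← h7, List.getElem?_take_of_lt (by omega),
          List.getElem?_eq_getElem (by omega)]
        rfl
      · rw [List.length_drop]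
        omega
    · intro l hl l' hl' h
      rw [Finset.mem_coe, Finset.mem_filter] at hl hl'
      simp only at h
      have h1 : l.take i = l'.take i := by
        have h2 := congrArg (List.take i) (hl.2.trans hl'.2.symm)
        rwa [List.take_take, List.take_take, min_eq_left (by omega)] at h2
      rw [← List.take_append_drop i l, ← List.take_append_drop i l', h, h1]

theorem split_real (v : V) (i j : ℕ) (P Q : List V → Prop) (B : ℝ)
    (hB : ∀ u, (((WV G u j).filter (fun b => Q b)).card : ℝ) ≤ B) :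
    (((WV G v (i + j)).filter (fun l => P (l.take (i + 1)) ∧ Q (l.drop i))).card : ℝ) ≤
      B * ((WV G v i).filter (fun a => P a)).card := by
  have hB0 : 0 ≤ B := le_trans (Nat.cast_nonneg _) (hB 0)
  have h1 := split_nat G v i j P Q ⌊B⌋₊ (fun u => Nat.le_floor (hB u))
  have h2 := (Nat.cast_le (α := ℝ)).2 h1
  rw [Nat.cast_mul] at h2
  refine h2.trans (mul_le_mul_of_nonneg_right (Nat.floor_le hB0) (Nat.cast_nonneg _))

/-- walks with a rare piece at a given place -/
theorem piece_real (v : V) (i m j : ℕ) (E : List V → Prop) {wi β wj : ℝ}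
    (hwi : ((WV G v i).card : ℝ) ≤ wi) (hβ : ∀ u, (((WV G u m).filter (fun b => E b)).card : ℝ) ≤ β)
    (hwj : ∀ u, ((WV G u j).card : ℝ) ≤ wj) :
    (((WV G v (i + (m + j))).filter (fun l => E ((l.drop i).take (m + 1)))).card : ℝ) ≤
      wj * β * wi := by
  have hwj0 : 0 ≤ wj := le_trans (Nat.cast_nonneg _) (hwj 0)
  have hβ0 : 0 ≤ β := le_trans (Nat.cast_nonneg _) (hβ 0)
  obtain ⟨P0, hP0⟩ : ∃ P0 : List V → Prop, ∀ l, P0 l := ⟨fun _ => True, fun _ => trivial⟩
  have h1 : ∀ u, (((WV G u (m + j)).filter (fun b => E (b.take (m + 1)))).card : ℝ) ≤ wj * β := by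
    intro u
    have h2 := split_real G u m j E P0 wj (fun u => by
      refine le_trans ?_ (hwj u)
      exact_mod_cast Finset.card_filter_le _ _)
    refine le_trans ?_ (h2.trans (mul_le_mul_of_nonneg_left (hβ u) hwj0))
    refine Nat.cast_le.2 (Finset.card_le_card ?_)
    intro l hl
    rw [Finset.mem_filter] at hl ⊢
    exact ⟨hl.1, hl.2, hP0 _⟩
  have h3 := split_real G v i (m + j) P0 (fun b => E (b.take (m + 1))) (wj * β) h1
  refine le_trans ?_ (h3.trans (mul_le_mul_of_nonneg_left (le_trans ?_ hwi)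
    (mul_nonneg hwj0 hβ0)))
  · refine Nat.cast_le.2 (Finset.card_le_card ?_)
    intro l hl
    rw [Finset.mem_filter] at hl ⊢
    exact ⟨hl.1, hP0 _, hl.2⟩
  · exact_mod_cast Finset.card_filter_le _ _

/-- `l` has a piece with at least `m` steps and the property `E` -/
def HasP (m : ℕ) (E : List V → Prop) (l : List V) : Prop :=
  ∃ l', l' <:+: l ∧ m + 1 ≤ l'.length ∧ E l'

theorem hasP_iff {m n : ℕ} {E : List V → Prop} {l : List V} (hl : l.length = n + 1)
    (h : HasP m E l) : ∃ i k : ℕ, m ≤ k ∧ i + k ≤ n ∧ E ((l.drop i).take (k + 1)) := by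
  obtain ⟨l', ⟨s, t, rfl⟩, h2, h3⟩ := h
  simp only [List.length_append] at hl
  refine ⟨s.length, l'.length - 1, by omega, by omega, ?_⟩
  have e1 : (s ++ l' ++ t).drop s.length = l' ++ t := by
    rw [List.append_assoc, List.drop_left']
    rfl
  rw [e1, show l'.length - 1 + 1 = l'.length by omega, List.take_left']
  · exact h3
  · rfl

end gen

/-- number of the walks from any point -/
theorem all_count : ∃ K C : ℝ, 0 ≤ K ∧ 1 ≤ C ∧ ∀ n : ℕ, ∀ v : ℤ × ℤ,
    ((WV hexG v n).card : ℝ) ≤ C * Real.exp (K * Real.log (n + 2) ^ 2) * mu ^ n := by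
  obtain ⟨K, hK0, hK⟩ := hex_growth.2
  obtain ⟨C, hC⟩ : ∃ C : ℝ, C = 1 + (WL hexG 0).card + (WL hexG 1).card := ⟨_, rfl⟩
  have h0 : (0 : ℝ) ≤ (WL hexG 0).card := Nat.cast_nonneg _
  have h1 : (0 : ℝ) ≤ (WL hexG 1).card := Nat.cast_nonneg _
  have hC1 : 1 ≤ C := by linarith
  have hmu := one_le_mu
  have hlog : ∀ n k : ℕ, k ≤ n → Real.exp (K * Real.log (k + 2) ^ 2) ≤
      Real.exp (K * Real.log (n + 2) ^ 2) := by
    intro n k hk
    rw [Real.exp_le_exp]
    have hk' : (k : ℝ) ≤ n := by exact_mod_cast hk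
    have hk0 : (0 : ℝ) ≤ k := Nat.cast_nonneg _
    have h2 : 0 ≤ Real.log ((k : ℝ) + 2) := Real.log_nonneg (by linarith)
    have h3 : Real.log ((k : ℝ) + 2) ≤ Real.log (n + 2) := Real.log_le_log (by linarith) (by linarith)
    gcongr
  have key : ∀ n : ℕ, ((WL hexG n).card : ℝ) ≤ C * Real.exp (K * Real.log (n + 2) ^ 2) * mu ^ n := by
    intro n
    have hm : (1 : ℝ) ≤ mu ^ n := one_le_pow₀ hmu
    have he : (1 : ℝ) ≤ Real.exp (K * Real.log (n + 2) ^ 2) := Real.one_le_exp (by positivity)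
    rcases Nat.lt_or_ge n 2 with h | h
    · have h2 : ((WL hexG n).card : ℝ) ≤ C := by
        interval_cases n
        · linarith
        · linarith
      calc ((WL hexG n).card : ℝ) ≤ C * 1 * 1 := by linarith
        _ ≤ _ := by gcongr
    · have hn : (2 : ℝ) ≤ n := by exact_mod_cast h
      have h3 : Real.log n ≤ Real.log (n + 2) := Real.log_le_log (by linarith) (by linarith)
      have h4 : 0 ≤ Real.log n := Real.log_nonneg (by linarith)
      calc ((WL hexG n).card : ℝ) ≤ mu ^ n * Real.exp (K * (Real.log n) ^ 2) := hK n h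
        _ ≤ mu ^ n * Real.exp (K * Real.log (n + 2) ^ 2) := by gcongr
        _ = 1 * Real.exp (K * Real.log (n + 2) ^ 2) * mu ^ n := by ring
        _ ≤ _ := by gcongr
  refine ⟨K, 3 * C, hK0, by linarith, fun n v => ?_⟩
  have hT : ∀ u : ℤ × ℤ, u ∈ hexG.T → ∀ k : ℕ, (WV hexG u k).card ≤ (WL hexG k).card := by
    intro u hu k
    refine Finset.card_le_card_of_injOn (fun l => l.map (-u + ·)) ?_ ?_
    · intro l hl
      rw [Finset.mem_coe, mem_WV] at hl
      rw [Finset.mem_coe, mem_WL]
      refine ⟨?_, by rw [List.length_map]; exact hl.2⟩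
      have := walk_map hexG (hexG.T.neg_mem hu) hl.1
      rwa [neg_add_cancel] at this
    · intro l _ l' _ h
      exact List.map_injective_iff.2 (add_right_injective (-u)) h
  by_cases hv : v ∈ hexG.T
  · have h2 := (Nat.cast_le (α := ℝ)).2 (hT v hv n)
    refine (h2.trans (key n)).trans ?_
    have : 0 < Real.exp (K * Real.log (n + 2) ^ 2) * mu ^ n := by positivity
    nlinarith
  · cases n with
    | zero =>
      have h2 : (WV hexG v 0).card ≤ 1 := by
        rw [Finset.card_le_one]
        intro l hl l' hl'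
        rw [mem_WV] at hl hl'
        obtain ⟨a, rfl⟩ := List.length_eq_one_iff.1 hl.2
        obtain ⟨a', rfl⟩ := List.length_eq_one_iff.1 hl'.2
        have h3 := hl.1.1
        have h4 := hl'.1.1
        simp only [List.head?_cons, Option.some.injEq] at h3 h4
        rw [h3, h4]
      have h3 : ((WV hexG v 0).card : ℝ) ≤ 1 := by exact_mod_cast h2
      have he : (1 : ℝ) ≤ Real.exp (K * Real.log ((0 : ℕ) + 2) ^ 2) := Real.one_le_exp (by positivity)
      rw [pow_zero, mul_one]
      nlinarith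
    | succ k =>
      have h2 : (WV hexG v (k + 1)).card ≤ ((hexG.nb v).biUnion (fun w => WV hexG w k)).card := by
        refine Finset.card_le_card_of_injOn List.tail ?_ ?_
        · intro l hl
          rw [Finset.mem_coe, mem_WV] at hl
          obtain ⟨⟨h1, h2, h3⟩, h4⟩ := hl
          rcases l with - | ⟨a, l⟩
          · simp at h1
          simp only [List.head?_cons, Option.some.injEq] at h1
          subst h1
          rcases l with - | ⟨b, l⟩
          · simp at h4
          rw [List.isChain_cons_cons] at h3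
          rw [List.nodup_cons] at h2
          rw [Finset.mem_coe, Finset.mem_biUnion]
          refine ⟨b, (hexG.mem_nb _ _).2 h3.1, ?_⟩
          rw [mem_WV, List.tail_cons]
          exact ⟨⟨rfl, h2.2, h3.2⟩, by simpa using h4⟩
        · intro l hl l' hl' h
          rw [Finset.mem_coe, mem_WV] at hl hl'
          have h1 := hl.1.1
          have h1' := hl'.1.1
          rcases l with - | ⟨a, l⟩
          · simp at h1
          rcases l' with - | ⟨a', l'⟩
          · simp at h1'
          simp only [List.head?_cons, Option.some.injEq] at h1 h1'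
          simp only [List.tail_cons] at h
          rw [h1, h1', h]
      have h3 : ((hexG.nb v).biUnion (fun w => WV hexG w k)).card ≤ 3 * (WL hexG k).card := by
        refine (Finset.card_biUnion_le_card_mul _ _ (WL hexG k).card fun w hw => ?_).trans
          (Nat.mul_le_mul_right _ Finset.card_le_three)
        rcases hexG.half v w ((hexG.mem_nb _ _).1 hw) with h2 | h2
        · exact absurd h2 hv
        · exact hT w h2 k
      have h4 : ((WV hexG v (k + 1)).card : ℝ) ≤ 3 * (WL hexG k).card := by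
        exact_mod_cast h2.trans h3
      refine h4.trans ?_
      have h5 := key k
      have h6 := hlog (k + 1) k (by omega)
      push_cast at h6 ⊢
      have h7 : mu ^ k ≤ mu ^ (k + 1) := pow_le_pow_right₀ hmu (by omega)
      calc 3 * ((WL hexG k).card : ℝ) ≤ 3 * (C * Real.exp (K * Real.log (k + 2) ^ 2) * mu ^ k) := by
            gcongr
        _ ≤ 3 * (C * Real.exp (K * Real.log ((k : ℝ) + 1 + 2) ^ 2) * mu ^ (k + 1)) := by gcongr
        _ = _ := by ring

/-- **walks with a long exceptional piece** -/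
theorem pieces_count {E : List (ℤ × ℤ) → Prop} {c : ℝ} (hc : 0 < c) {n0 : ℕ}
    (h : ∀ n : ℕ, n0 ≤ n → ∀ v : ℤ × ℤ,
      (((WV hexG v n).filter (fun l => E l)).card : ℝ) ≤ Real.exp (-(c * n)) * mu ^ n) :
    ∃ K C : ℝ, 0 ≤ K ∧ 1 ≤ C ∧ ∀ n m : ℕ, n0 ≤ m → ∀ v : ℤ × ℤ,
      (((WV hexG v n).filter (fun l => HasP m E l)).card : ℝ) ≤
        C * Real.exp (K * Real.log (n + 2) ^ 2) * Real.exp (-(c * m)) * mu ^ n := by
  obtain ⟨K, C, hK0, hC, hw⟩ := all_count
  have hmu := one_le_mu
  have hmu0 : 0 < mu := lt_of_lt_of_le one_pos hmu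
  have hl2 : 0 < Real.log 2 := Real.log_pos (by norm_num)
  refine ⟨2 * K + 2 / Real.log 2, C ^ 2, by positivity, one_le_pow₀ hC, fun n m hm v => ?_⟩
  have hn0 : (0 : ℝ) ≤ n := Nat.cast_nonneg _
  have hlog : ∀ k : ℕ, k ≤ n → Real.exp (K * Real.log (k + 2) ^ 2) ≤
      Real.exp (K * Real.log (n + 2) ^ 2) := by
    intro k hk
    rw [Real.exp_le_exp]
    have hk' : (k : ℝ) ≤ n := by exact_mod_cast hk
    have hk0 : (0 : ℝ) ≤ k := Nat.cast_nonneg _
    have h2 : 0 ≤ Real.log ((k : ℝ) + 2) := Real.log_nonneg (by linarith)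
    have h3 : Real.log ((k : ℝ) + 2) ≤ Real.log (n + 2) := Real.log_le_log (by linarith) (by linarith)
    gcongr
  obtain ⟨X, hX⟩ : ∃ X : ℝ, X = Real.exp (K * Real.log (n + 2) ^ 2) := ⟨_, rfl⟩
  have hX0 : 0 < X := by rw [hX]; exact Real.exp_pos _
  rw [← hX] at hlog
  obtain ⟨T, hT⟩ : ∃ T : Finset (ℕ × ℕ), T = ((Finset.range (n + 1)) ×ˢ (Finset.range (n + 1))).filter
      (fun q => m ≤ q.2 ∧ q.1 + q.2 ≤ n) := ⟨_, rfl⟩
  have hsub : (WV hexG v n).filter (fun l => HasP m E l) ⊆ T.biUnion (fun q =>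
      (WV hexG v n).filter (fun l => E ((l.drop q.1).take (q.2 + 1)))) := by
    intro l hl
    rw [Finset.mem_filter] at hl
    obtain ⟨i, k, h1, h2, h3⟩ := hasP_iff ((mem_WV hexG).1 hl.1).2 hl.2
    rw [Finset.mem_biUnion]
    refine ⟨(i, k), ?_, ?_⟩
    · rw [hT, Finset.mem_filter, Finset.mem_product, Finset.mem_range, Finset.mem_range]
      exact ⟨⟨by simp only; omega, by simp only; omega⟩, h1, h2⟩
    · rw [Finset.mem_filter]
      exact ⟨hl.1, h3⟩
  have hterm : ∀ q ∈ T, (((WV hexG v n).filter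
      (fun l => E ((l.drop q.1).take (q.2 + 1)))).card : ℝ) ≤
      C ^ 2 * X ^ 2 * Real.exp (-(c * m)) * mu ^ n := by
    rintro ⟨i, k⟩ hq
    rw [hT, Finset.mem_filter] at hq
    obtain ⟨-, h1, h2⟩ := hq
    simp only at h1 h2 ⊢
    obtain ⟨j, hj⟩ : ∃ j, n = i + (k + j) := ⟨n - i - k, by omega⟩
    have h3 := piece_real hexG v i k j E (wi := C * X * mu ^ i)
      (β := Real.exp (-(c * m)) * mu ^ k) (wj := C * X * mu ^ j)
      ((hw i v).trans (by
        have := hlog i (by omega)
        gcongr)) (fun u => (h k (by omega) u).trans (by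
        have : (m : ℝ) ≤ k := by exact_mod_cast h1
        gcongr)) (fun u => (hw j u).trans (by
        have := hlog j (by omega)
        gcongr))
    rw [← hj] at h3
    refine h3.trans (le_of_eq ?_)
    have e1 : mu ^ n = mu ^ i * mu ^ k * mu ^ j := by rw [hj, pow_add, pow_add]; ring
    rw [e1]
    ring
  have hTc : (T.card : ℝ) ≤ (n + 1) ^ 2 := by
    have h1 : T.card ≤ (n + 1) ^ 2 := by
      rw [hT]
      refine (Finset.card_filter_le _ _).trans ?_
      rw [Finset.card_product, Finset.card_range, sq]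
    exact_mod_cast h1
  have h1 : (((WV hexG v n).filter (fun l => HasP m E l)).card : ℝ) ≤
      ∑ q ∈ T, (((WV hexG v n).filter (fun l => E ((l.drop q.1).take (q.2 + 1)))).card : ℝ) := by
    have h2 := (Finset.card_le_card hsub).trans Finset.card_biUnion_le
    exact_mod_cast h2
  have hY0 : 0 ≤ C ^ 2 * X ^ 2 * Real.exp (-(c * m)) * mu ^ n := by positivity
  have h2 : (((WV hexG v n).filter (fun l => HasP m E l)).card : ℝ) ≤
      (n + 1) ^ 2 * (C ^ 2 * X ^ 2 * Real.exp (-(c * m)) * mu ^ n) := by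
    refine h1.trans ((Finset.sum_le_sum hterm).trans ?_)
    rw [Finset.sum_const, nsmul_eq_mul]
    exact mul_le_mul_of_nonneg_right hTc hY0
  refine h2.trans ?_
  have h3 : ((n : ℝ) + 1) ^ 2 * X ^ 2 ≤
      Real.exp ((2 * K + 2 / Real.log 2) * Real.log (n + 2) ^ 2) := by
    have hL : Real.log 2 ≤ Real.log ((n : ℝ) + 2) := Real.log_le_log (by norm_num) (by linarith)
    have e1 : ((n : ℝ) + 1) ^ 2 ≤ Real.exp (2 * Real.log (n + 2)) := by
      have e2 : Real.exp (2 * Real.log ((n : ℝ) + 2)) = (n + 2) ^ 2 := by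
        have : 2 * Real.log ((n : ℝ) + 2) = ((2 : ℕ) : ℝ) * Real.log (n + 2) := by norm_num
        rw [this, Real.exp_nat_mul, Real.exp_log (by linarith)]
      rw [e2]
      gcongr
      norm_num
    have e3 : X ^ 2 = Real.exp (2 * (K * Real.log (n + 2) ^ 2)) := by
      rw [hX, ← Real.exp_nat_mul]
      norm_num
    rw [e3]
    calc ((n : ℝ) + 1) ^ 2 * Real.exp (2 * (K * Real.log (n + 2) ^ 2)) ≤
          Real.exp (2 * Real.log (n + 2)) * Real.exp (2 * (K * Real.log (n + 2) ^ 2)) := by gcongr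
      _ = Real.exp (2 * Real.log (n + 2) + 2 * (K * Real.log (n + 2) ^ 2)) := by
          rw [Real.exp_add]
      _ ≤ _ := by
          rw [Real.exp_le_exp]
          have e4 : 2 * Real.log ((n : ℝ) + 2) ≤ 2 / Real.log 2 * Real.log (n + 2) ^ 2 := by
            rw [div_mul_eq_mul_div, le_div_iff₀ hl2]
            nlinarith
          nlinarith
  calc ((n : ℝ) + 1) ^ 2 * (C ^ 2 * X ^ 2 * Real.exp (-(c * m)) * mu ^ n) =
        C ^ 2 * (((n : ℝ) + 1) ^ 2 * X ^ 2) * Real.exp (-(c * m)) * mu ^ n := by ring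
    _ ≤ _ := by gcongr

end

end U443.OS
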