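import Pool.Agent.U443.OS.Line

/-!
# Two single walks which agree outside a finite window are exchangeable in a larger window
-/

set_option autoImplicit false

namespace U443.OS

open Finset MeasureTheory Filter Topology U443.LG
open scoped Classical

noncomputable section

variable {V : Type} [AddCommGroup V] (G : Geo V)

theorem edge_inj {γ : ℤ → V} (h : Function.Injective γ) {i j : ℤ}
    (he : s(γ i, γ (i + 1)) = s(γ j, γ (j + 1))) : i = j := by
  rw [Sym2.eq_iff] at he
  rcases he with ⟨h1, -⟩ | ⟨h1, h2⟩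
  · exact h h1
  · have h3 := h h1
    have h4 := h h2
    omega

theorem trk_nb {η : Cfg V} {γ : ℤ → V} (h : Trk G η γ) {i : ℤ} {w : V}
    (hw : η s(γ i, w) = true) : w = γ (i + 1) ∨ w = γ (i - 1) := by
  obtain ⟨j, hj⟩ := (h.2.2 _).1 hw
  rw [Sym2.eq_iff] at hj
  rcases hj with ⟨h1, h2⟩ | ⟨h1, h2⟩
  · left
    rw [h2, h.1 h1]
  · right
    have h3 := h.1 h1
    rw [h2]
    congr 1
    omega

theorem trk_rev {η : Cfg V} {γ : ℤ → V} (h : Trk G η γ) : Trk G η (fun i => γ (-i)) := by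
  refine ⟨fun i j hij => by have := h.1 hij; omega, fun i => ?_, fun e => ?_⟩
  · have h1 := h.2.1 (-(i + 1))
    rw [show -(i + 1) + 1 = -i by ring] at h1
    exact G.symm _ _ h1
  · rw [h.2.2]
    constructor
    · rintro ⟨i, rfl⟩
      refine ⟨-(i + 1), ?_⟩
      simp only [neg_neg]
      rw [show -(-(i + 1) + 1) = i by ring]
      exact Sym2.eq_swap
    · rintro ⟨i, rfl⟩
      refine ⟨-(i + 1), ?_⟩
      simp only
      rw [show -(i + 1) + 1 = -i by ring]
      exact Sym2.eq_swap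

/-- a ray of open edges runs along the walk -/
theorem ray {η : Cfg V} {γ : ℤ → V} (h : Trk G η γ) {ρ : ℕ → V} (hρ : Function.Injective ρ)
    (ho : ∀ t, η s(ρ t, ρ (t + 1)) = true) :
    ∃ a σ : ℤ, (σ = 1 ∨ σ = -1) ∧ ∀ t : ℕ, ρ t = γ (a + σ * t) := by
  have key : ∀ a σ : ℤ, (σ = 1 ∨ σ = -1) → ρ 0 = γ a → ρ 1 = γ (a + σ) →
      ∀ t : ℕ, ρ t = γ (a + σ * t) ∧ ρ (t + 1) = γ (a + σ * (t + 1)) := by
    intro a σ hσ h0 h1 t
    induction t with
    | zero => simpa using ⟨h0, h1⟩
    | succ t ih =>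
      obtain ⟨h2, h3⟩ := ih
      refine ⟨by push_cast; exact h3, ?_⟩
      have h4 := ho (t + 1)
      rw [h3] at h4
      have h5 := trk_nb G h h4
      have h6 : ρ (t + 1 + 1) ≠ γ (a + σ * t) := by
        rw [← h2]
        intro h7
        have := hρ h7
        omega
      push_cast
      rcases hσ with rfl | rfl
      · rcases h5 with h5 | h5
        · rw [h5]
          congr 1
          ring
        · exfalso
          apply h6
          rw [h5]
          congr 1
          ring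
      · rcases h5 with h5 | h5
        · exfalso
          apply h6
          rw [h5]
          congr 1
          ring
        · rw [h5]
          congr 1
          ring
  obtain ⟨j, hj⟩ := (h.2.2 _).1 (ho 0)
  rw [Sym2.eq_iff] at hj
  rcases hj with ⟨h1, h2⟩ | ⟨h1, h2⟩
  · exact ⟨j, 1, Or.inl rfl, fun t => (key j 1 (Or.inl rfl) h1 h2 t).1⟩
  · refine ⟨j + 1, -1, Or.inr rfl, fun t => (key (j + 1) (-1) (Or.inr rfl) h1 ?_ t).1⟩
    rw [show j + 1 + -1 = j by ring]
    exact h2

/-- a piece of the walk -/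
def blk (γ : ℤ → V) : ℤ → ℕ → List V
  | i, 0 => [γ i]
  | i, m + 1 => γ i :: blk γ (i + 1) m

theorem blk_cons (γ : ℤ → V) (i : ℤ) (m : ℕ) : ∃ r, blk γ i m = γ i :: r := by
  cases m with
  | zero => exact ⟨[], rfl⟩
  | succ m => exact ⟨_, rfl⟩

theorem mem_blk {γ : ℤ → V} {i : ℤ} {m : ℕ} {x : V} :
    x ∈ blk γ i m ↔ ∃ j, i ≤ j ∧ j ≤ i + m ∧ x = γ j := by
  induction m generalizing i with
  | zero =>
    simp only [blk, List.mem_singleton, Nat.cast_zero, add_zero]
    constructor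
    · rintro rfl
      exact ⟨i, le_rfl, le_rfl, rfl⟩
    · rintro ⟨j, h1, h2, rfl⟩
      rw [le_antisymm h1 h2]
  | succ m ih =>
    simp only [blk, List.mem_cons, ih]
    constructor
    · rintro (rfl | ⟨j, h1, h2, rfl⟩)
      · exact ⟨i, le_rfl, by omega, rfl⟩
      · exact ⟨j, by omega, by push_cast; omega, rfl⟩
    · rintro ⟨j, h1, h2, rfl⟩
      push_cast at h2
      by_cases hj : i = j
      · exact Or.inl (by rw [hj])
      · exact Or.inr ⟨j, by omega, by omega, rfl⟩

theorem mem_tr_blk {γ : ℤ → V} {i : ℤ} {m : ℕ} {e : Sym2 V} :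
    e ∈ tr (blk γ i m) ↔ ∃ j, i ≤ j ∧ j < i + m ∧ e = s(γ j, γ (j + 1)) := by
  induction m generalizing i with
  | zero =>
    simp only [blk, tr, Finset.notMem_empty, Nat.cast_zero, add_zero, false_iff]
    rintro ⟨j, h1, h2, -⟩
    omega
  | succ m ih =>
    obtain ⟨r, hr⟩ := blk_cons γ (i + 1) m
    have e1 : tr (blk γ i (m + 1)) = insert s(γ i, γ (i + 1)) (tr (blk γ (i + 1) m)) := by
      show tr (γ i :: blk γ (i + 1) m) = _
      rw [hr]
      rfl
    rw [e1, Finset.mem_insert, ih]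
    constructor
    · rintro (rfl | ⟨j, h1, h2, rfl⟩)
      · exact ⟨i, le_rfl, by push_cast; omega, rfl⟩
      · exact ⟨j, by omega, by push_cast; omega, rfl⟩
    · rintro ⟨j, h1, h2, rfl⟩
      push_cast at h2
      by_cases hj : i = j
      · exact Or.inl (by rw [hj])
      · exact Or.inr ⟨j, by omega, by omega, rfl⟩

theorem blk_len (γ : ℤ → V) (i : ℤ) (m : ℕ) : (blk γ i m).length = m + 1 := by
  induction m generalizing i with
  | zero => rfl
  | succ m ih => simp [blk, ih]

theorem blk_last (γ : ℤ → V) (i : ℤ) (m : ℕ) : (blk γ i m).getLast? = some (γ (i + m)) := by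
  induction m generalizing i with
  | zero => simp [blk]
  | succ m ih =>
    obtain ⟨r, hr⟩ := blk_cons γ (i + 1) m
    show (γ i :: blk γ (i + 1) m).getLast? = _
    have h := ih (i := i + 1)
    rw [hr] at h ⊢
    rw [List.getLast?_cons_cons, h]
    congr 2
    push_cast
    ring

theorem blk_nodup {γ : ℤ → V} (h : Function.Injective γ) (i : ℤ) (m : ℕ) : (blk γ i m).Nodup := by
  induction m generalizing i with
  | zero => simp [blk]
  | succ m ih =>
    show (γ i :: blk γ (i + 1) m).Nodup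
    rw [List.nodup_cons]
    refine ⟨?_, ih _⟩
    rw [mem_blk]
    rintro ⟨j, h1, -, h2⟩
    have := h h2
    omega

theorem blk_chain {γ : ℤ → V} (h : ∀ i, G.Adj (γ i) (γ (i + 1))) (i : ℤ) (m : ℕ) :
    (blk γ i m).IsChain G.Adj := by
  induction m generalizing i with
  | zero => simp [blk]
  | succ m ih =>
    obtain ⟨r, hr⟩ := blk_cons γ (i + 1) m
    show (γ i :: blk γ (i + 1) m).IsChain G.Adj
    have h1 := ih (i := i + 1)
    rw [hr] at h1 ⊢
    rw [List.isChain_cons_cons]
    exact ⟨h i, h1⟩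

/-- **two walks with the same tails are exchangeable in a large window** -/
theorem exch_of_tails {η η' : Cfg V} {γ δ : ℤ → V} (h : Trk G η γ) (h' : Trk G η' δ) {n : ℤ}
    (hn : 1 ≤ n) {a b : ℤ} (ha : ∀ t : ℕ, γ (n + t) = δ (a + t))
    (hb : ∀ t : ℕ, γ (-n - t) = δ (b - t)) (Λ : Finset (Sym2 V)) :
    ∃ Ω : Finset (Sym2 V), Λ ⊆ Ω ∧
      Exch G Ω (Ω.filter (fun e => η e = true)) (Ω.filter (fun e => η' e = true)) := by
  have hab : b < a := by
    by_contra hcon
    push Not at hcon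
    have h1 := ha (b - a).toNat
    have h2 := hb 0
    rw [Int.toNat_of_nonneg (by omega), add_sub_cancel] at h1
    rw [Nat.cast_zero, sub_zero, sub_zero, ← h1] at h2
    have := h.1 h2
    omega
  obtain ⟨m, hm⟩ : ∃ m : ℕ, (m : ℤ) = 2 * n := ⟨(2 * n).toNat, Int.toNat_of_nonneg (by omega)⟩
  obtain ⟨k, hk⟩ : ∃ k : ℕ, (k : ℤ) = a - b := ⟨(a - b).toNat, Int.toNat_of_nonneg (by omega)⟩
  obtain ⟨U, hU⟩ : ∃ U, U = blk γ (-n) m := ⟨_, rfl⟩
  obtain ⟨U', hU'⟩ : ∃ U', U' = blk δ b k := ⟨_, rfl⟩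
  have mU : ∀ x, x ∈ U ↔ ∃ j, -n ≤ j ∧ j ≤ n ∧ x = γ j := by
    intro x
    rw [hU, mem_blk, hm, show -n + 2 * n = n by ring]
  have mU' : ∀ x, x ∈ U' ↔ ∃ j, b ≤ j ∧ j ≤ a ∧ x = δ j := by
    intro x
    rw [hU', mem_blk, hk, add_sub_cancel]
  have tU : ∀ e, e ∈ tr U ↔ ∃ j, -n ≤ j ∧ j < n ∧ e = s(γ j, γ (j + 1)) := by
    intro e
    rw [hU, mem_tr_blk, hm, show -n + 2 * n = n by ring]
  have tU' : ∀ e, e ∈ tr U' ↔ ∃ j, b ≤ j ∧ j < a ∧ e = s(δ j, δ (j + 1)) := by
    intro e
    rw [hU', mem_tr_blk, hk, add_sub_cancel]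
  have htw : Twin G.Adj U U' := by
    refine ⟨?_, ?_, ?_, ?_, ?_, ?_, ?_⟩
    · rw [hU]; exact blk_nodup h.1 _ _
    · rw [hU']; exact blk_nodup h'.1 _ _
    · rw [hU]; exact blk_chain G h.2.1 _ _
    · rw [hU']; exact blk_chain G h'.2.1 _ _
    · obtain ⟨r, hr⟩ := blk_cons γ (-n) m
      obtain ⟨r', hr'⟩ := blk_cons δ b k
      rw [hU, hU', hr, hr', List.head?_cons, List.head?_cons]
      have := hb 0
      simp only [Nat.cast_zero, sub_zero] at this
      rw [this]
    · rw [hU, hU', blk_last, blk_last, hm, hk, add_sub_cancel, show -n + 2 * n = n by ring]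
      have := ha 0
      simp only [Nat.cast_zero, add_zero] at this
      rw [this]
    · rw [hU, blk_len]
      omega
  -- tails
  obtain ⟨Tail, hTail⟩ : ∃ Tail : Sym2 V → Prop, ∀ e, Tail e ↔
      (∃ t : ℕ, e = s(γ (n + t), γ (n + t + 1))) ∨ (∃ t : ℕ, e = s(γ (-n - t - 1), γ (-n - t))) :=
    ⟨_, fun e => Iff.rfl⟩
  have F1 : ∀ e, η e = true ↔ e ∈ tr U ∨ Tail e := by
    intro e
    rw [h.2.2, tU, hTail]
    constructor
    · rintro ⟨i, rfl⟩
      by_cases h1 : i < n
      · by_cases h2 : -n ≤ i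
        · exact Or.inl ⟨i, h2, h1, rfl⟩
        · right; right
          refine ⟨(-n - i - 1).toNat, ?_⟩
          rw [Int.toNat_of_nonneg (by omega), show -n - (-n - i - 1) - 1 = i by ring,
            show -n - (-n - i - 1) = i + 1 by ring]
      · right; left
        refine ⟨(i - n).toNat, ?_⟩
        rw [Int.toNat_of_nonneg (by omega), show n + (i - n) = i by ring]
    · rintro (⟨i, -, -, rfl⟩ | ⟨t, rfl⟩ | ⟨t, rfl⟩)
      · exact ⟨i, rfl⟩
      · exact ⟨_, rfl⟩
      · refine ⟨-n - t - 1, ?_⟩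
        rw [show -n - (t : ℤ) - 1 + 1 = -n - t by ring]
  have ha' : ∀ t : ℕ, γ (n + t + 1) = δ (a + t + 1) := by
    intro t
    have := ha (t + 1)
    push_cast at this
    rw [show n + (t : ℤ) + 1 = n + (t + 1) by ring, show a + (t : ℤ) + 1 = a + (t + 1) by ring]
    exact this
  have hb' : ∀ t : ℕ, γ (-n - t - 1) = δ (b - t - 1) := by
    intro t
    have := hb (t + 1)
    push_cast at this
    rw [show -n - (t : ℤ) - 1 = -n - (t + 1) by ring, show b - (t : ℤ) - 1 = b - (t + 1) by ring]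
    exact this
  have F2 : ∀ e, η' e = true ↔ e ∈ tr U' ∨ Tail e := by
    intro e
    rw [h'.2.2, tU', hTail]
    constructor
    · rintro ⟨i, rfl⟩
      by_cases h1 : i < a
      · by_cases h2 : b ≤ i
        · exact Or.inl ⟨i, h2, h1, rfl⟩
        · right; right
          refine ⟨(b - i - 1).toNat, ?_⟩
          rw [hb', hb, Int.toNat_of_nonneg (by omega), show b - (b - i - 1) - 1 = i by ring,
            show b - (b - i - 1) = i + 1 by ring]
      · right; left
        refine ⟨(i - a).toNat, ?_⟩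
        rw [ha', ha, Int.toNat_of_nonneg (by omega), show a + (i - a) = i by ring]
    · rintro (⟨i, -, -, rfl⟩ | ⟨t, rfl⟩ | ⟨t, rfl⟩)
      · exact ⟨i, rfl⟩
      · rw [ha', ha]
        exact ⟨_, rfl⟩
      · rw [hb', hb]
        refine ⟨b - t - 1, ?_⟩
        rw [show b - (t : ℤ) - 1 + 1 = b - t by ring]
  obtain ⟨B, hB⟩ : ∃ B : Finset V, B = (U.toFinset ∪ U'.toFinset).filter
      (fun x => ¬ (x ∈ U ∧ x ∈ U')) := ⟨_, rfl⟩
  obtain ⟨Λ0, hΛ0⟩ : ∃ Λ0 : Finset (Sym2 V), Λ0 = tr U ∪ tr U' ∪ B.biUnion (U443.LG.star G) :=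
    ⟨_, rfl⟩
  have hstar : ∀ x, (x ∈ U ∧ x ∉ U') ∨ (x ∈ U' ∧ x ∉ U) → ∀ y, G.Adj x y → s(x, y) ∈ Λ0 := by
    intro x hx y hxy
    rw [hΛ0, Finset.mem_union, Finset.mem_biUnion]
    right
    refine ⟨x, ?_, Finset.mem_image_of_mem _ ((G.mem_nb x y).2 hxy)⟩
    rw [hB, Finset.mem_filter, Finset.mem_union, List.mem_toFinset, List.mem_toFinset]
    tauto
  have hE : Exch G Λ0 (tr U) (tr U') := by
    have s1 : tr U ⊆ Λ0 := by
      rw [hΛ0]
      exact Finset.subset_union_left.trans Finset.subset_union_left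
    have s2 : tr U' ⊆ Λ0 := by
      rw [hΛ0]
      exact Finset.subset_union_right.trans Finset.subset_union_left
    refine ⟨s1, s2, fun v W hW => ⟨?_, ?_⟩⟩
    · rintro ⟨l, hl, ht⟩
      exact exch_path G.symm htw s1 s2 (fun x hx hx' => hstar x (Or.inr ⟨hx, hx'⟩)) hW hl ht
    · rintro ⟨l, hl, ht⟩
      exact exch_path G.symm htw.symm s2 s1 (fun x hx hx' => hstar x (Or.inl ⟨hx, hx'⟩)) hW hl ht
  have F3 : ∀ e, Tail e → e ∉ Λ0 := by
    intro e he hmem
    rw [hTail] at he
    rw [hΛ0, Finset.mem_union, Finset.mem_union, Finset.mem_biUnion] at hmem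
    -- the end points of a tail edge
    have hends : ∀ x, x ∈ e → (∃ t : ℕ, x = γ (n + t)) ∨ (∃ t : ℕ, x = γ (-n - t)) := by
      intro x hx
      rcases he with ⟨t, rfl⟩ | ⟨t, rfl⟩
      · left
        rw [Sym2.mem_iff] at hx
        rcases hx with rfl | rfl
        · exact ⟨t, rfl⟩
        · refine ⟨t + 1, ?_⟩
          push_cast
          rw [show n + (t : ℤ) + 1 = n + (t + 1) by ring]
      · right
        rw [Sym2.mem_iff] at hx
        rcases hx with rfl | rfl
        · refine ⟨t + 1, ?_⟩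
          push_cast
          rw [show -n - (t : ℤ) - 1 = -n - (t + 1) by ring]
        · exact ⟨t, rfl⟩
    rcases hmem with (hm1 | hm1) | ⟨x, hx, hm1⟩
    · obtain ⟨j, h1, h2, h3⟩ := (tU e).1 hm1
      rcases he with ⟨t, rfl⟩ | ⟨t, rfl⟩
      · have := edge_inj h.1 h3
        omega
      · rw [show -n - (t : ℤ) = (-n - t - 1) + 1 by ring] at h3
        have e1 : -n - (t : ℤ) - 1 = -n - t - 1 + 1 - 1 := by ring
        rw [show (-n - (t : ℤ) - 1 + 1 - 1) = -n - t - 1 by ring] at h3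
        have := edge_inj h.1 h3
        omega
    · obtain ⟨j, h1, h2, h3⟩ := (tU' e).1 hm1
      rcases he with ⟨t, rfl⟩ | ⟨t, rfl⟩
      · rw [ha', ha] at h3
        have := edge_inj h'.1 h3
        omega
      · rw [hb', hb] at h3
        have h4 : s(δ (b - t - 1), δ (b - t - 1 + 1)) = s(δ j, δ (j + 1)) := by
          rw [show b - (t : ℤ) - 1 + 1 = b - t by ring]
          exact h3
        have := edge_inj h'.1 h4
        omega
    · have hxe : x ∈ e := by
        unfold U443.LG.star at hm1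
        rw [Finset.mem_image] at hm1
        obtain ⟨y, -, rfl⟩ := hm1
        exact Sym2.mem_mk_left _ _
      rw [hB, Finset.mem_filter, Finset.mem_union, List.mem_toFinset, List.mem_toFinset] at hx
      obtain ⟨hx1, hx2⟩ := hx
      rcases hends x hxe with ⟨t, rfl⟩ | ⟨t, rfl⟩
      · by_cases ht : t = 0
        · subst ht
          apply hx2
          refine ⟨(mU _).2 ⟨n, by omega, le_rfl, by simp⟩, (mU' _).2 ⟨a, hab.le, le_rfl, ?_⟩⟩
          rw [ha]
          simp
        · rcases hx1 with hx1 | hx1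
          · obtain ⟨j, h1, h2, h3⟩ := (mU _).1 hx1
            have := h.1 h3
            omega
          · rw [ha] at hx1
            obtain ⟨j, h1, h2, h3⟩ := (mU' _).1 hx1
            have := h'.1 h3
            omega
      · by_cases ht : t = 0
        · subst ht
          apply hx2
          refine ⟨(mU _).2 ⟨-n, le_rfl, by omega, by simp⟩, (mU' _).2 ⟨b, le_rfl, hab.le, ?_⟩⟩
          rw [hb]
          simp
        · rcases hx1 with hx1 | hx1
          · obtain ⟨j, h1, h2, h3⟩ := (mU _).1 hx1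
            have := h.1 h3
            omega
          · rw [hb] at hx1
            obtain ⟨j, h1, h2, h3⟩ := (mU' _).1 hx1
            have := h'.1 h3
            omega
  -- the window
  refine ⟨Λ0 ∪ (Λ \ Λ0), fun e he => ?_, ?_⟩
  · rw [Finset.mem_union, Finset.mem_sdiff]
    by_cases h1 : e ∈ Λ0
    · exact Or.inl h1
    · exact Or.inr ⟨he, h1⟩
  have hx := hE.extend G (R := Λ \ Λ0) (S := (Λ \ Λ0).filter (fun e => η e = true))
    Finset.sdiff_disjoint (Finset.filter_subset _ _)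
  have e1 : (Λ0 ∪ (Λ \ Λ0)).filter (fun e => η e = true) =
      tr U ∪ (Λ \ Λ0).filter (fun e => η e = true) := by
    rw [Finset.filter_union]
    congr 1
    ext e
    rw [Finset.mem_filter, F1]
    constructor
    · rintro ⟨h1, h2 | h2⟩
      · exact h2
      · exact absurd h1 (F3 e h2)
    · exact fun h1 => ⟨hE.1 h1, Or.inl h1⟩
  have e2 : (Λ0 ∪ (Λ \ Λ0)).filter (fun e => η' e = true) =
      tr U' ∪ (Λ \ Λ0).filter (fun e => η e = true) := by
    rw [Finset.filter_union]
    congr 1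
    · ext e
      rw [Finset.mem_filter, F2]
      constructor
      · rintro ⟨h1, h2 | h2⟩
        · exact h2
        · exact absurd h1 (F3 e h2)
      · exact fun h1 => ⟨hE.2.1 h1, Or.inl h1⟩
    · apply Finset.filter_congr
      intro e he
      rw [Finset.mem_sdiff] at he
      rw [F1, F2]
      constructor
      · rintro (h2 | h2)
        · exact absurd (hE.2.1 h2) he.2
        · exact Or.inr h2
      · rintro (h2 | h2)
        · exact absurd (hE.1 h2) he.2
        · exact Or.inr h2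
  rw [e1, e2]
  exact hx

/-- **two walks which agree outside a finite set are exchangeable in a large window** -/
theorem exch_of_trk {η η' : Cfg V} {γ δ : ℤ → V} (h : Trk G η γ) (h' : Trk G η' δ)
    (Λ : Finset (Sym2 V)) (hΛ : ∀ e, e ∉ Λ → η e = η' e) :
    ∃ Ω : Finset (Sym2 V), Λ ⊆ Ω ∧
      Exch G Ω (Ω.filter (fun e => η e = true)) (Ω.filter (fun e => η' e = true)) := by
  -- far edges are not in the window
  have hfin : {i : ℤ | s(γ i, γ (i + 1)) ∈ Λ}.Finite :=
    Set.Finite.preimage (fun i _ j _ hij => edge_inj h.1 hij) (Finset.finite_toSet Λ)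
  obtain ⟨n, hn1, hn⟩ : ∃ n : ℤ, 1 ≤ n ∧ ∀ i : ℤ, s(γ i, γ (i + 1)) ∈ Λ → -n ≤ i ∧ i < n := by
    obtain ⟨u, hu⟩ := hfin.bddAbove
    obtain ⟨v, hv⟩ := hfin.bddBelow
    refine ⟨max 1 (max (u + 1) (-v)), le_max_left _ _, fun i hi => ?_⟩
    have h1 := hu hi
    have h2 := hv hi
    have h3 := le_max_right (1 : ℤ) (max (u + 1) (-v))
    have h4 := le_max_left (u + 1) (-v)
    have h5 := le_max_right (u + 1) (-v)
    omega
  have hop : ∀ i : ℤ, (n ≤ i ∨ i < -n) → η' s(γ i, γ (i + 1)) = true := by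
    intro i hi
    rw [← hΛ]
    · exact (h.2.2 _).2 ⟨i, rfl⟩
    · intro hmem
      have := hn i hmem
      omega
  -- the forward ray
  obtain ⟨δ', hδ', a, ha⟩ : ∃ δ' : ℤ → V, Trk G η' δ' ∧ ∃ a : ℤ, ∀ t : ℕ, γ (n + t) = δ' (a + t) := by
    obtain ⟨a, σ, hσ, ha⟩ := ray G h' (ρ := fun t => γ (n + t)) (fun t t' htt => by
      have := h.1 htt
      omega) (fun t => by
      have := hop (n + t) (Or.inl (by omega))
      push_cast
      rw [← add_assoc]
      exact this)
    rcases hσ with rfl | rfl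
    · exact ⟨δ, h', a, fun t => by rw [ha t, one_mul]⟩
    · refine ⟨_, trk_rev G h', -a, fun t => ?_⟩
      rw [ha t]
      congr 1
      ring
  obtain ⟨b, τ, hτ, hb⟩ := ray G hδ' (ρ := fun t => γ (-n - t)) (fun t t' htt => by
      have := h.1 htt
      omega) (fun t => by
      have := hop (-n - t - 1) (Or.inr (by omega))
      rw [show -n - (t : ℤ) - 1 + 1 = -n - t by ring] at this
      push_cast
      rw [Sym2.eq_swap, show -n - ((t : ℤ) + 1) = -n - t - 1 by ring]
      exact this)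
  rcases hτ with rfl | rfl
  · exfalso
    rcases le_total a b with hab | hab
    · have h1 := ha (b - a).toNat
      have h2 := hb 0
      rw [Int.toNat_of_nonneg (by omega), add_sub_cancel] at h1
      simp only [Nat.cast_zero, mul_zero, add_zero, sub_zero] at h2
      rw [← h1] at h2
      have := h.1 h2
      omega
    · have h1 := hb (a - b).toNat
      have h2 := ha 0
      rw [Int.toNat_of_nonneg (by omega), one_mul, add_sub_cancel] at h1
      simp only [Nat.cast_zero, add_zero] at h2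
      rw [← h2] at h1
      have := h.1 h1
      omega
  · refine exch_of_tails G h hδ' hn1 ha (b := b) (fun t => ?_) Λ
    rw [hb t]
    congr 1
    ring

end

end U443.OS
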