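import Pool.Agent.U443.OS.Exc

/-!
# The whole walk seen from its pieces
-/

set_option autoImplicit false

namespace U443.OS

open Finset MeasureTheory Filter Topology U443.LG
open scoped Classical ENNReal
open Pool.Agent.U372.HX (Nbr WW nB Nr cN KW KW_ge Nr_cl Nr_sub bx bx_card mem_bx cl)

noncomputable section

section gen

variable {V : Type} [AddCommGroup V] (G : Geo V)

/-- the law of the walk `l` seen from a uniformly chosen vertex in `T` of `β` -/
def empIn (l β : List V) : Measure (Cfg V) :=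
  ((Ts G β).card : ENNReal)⁻¹ • ∑ x ∈ Ts G β, Measure.dirac (vw l x)

theorem empIn_self (l : List V) : empIn G l l = emp G l := rfl

theorem empIn_real {l β : List V} {D : Set (Cfg V)} (hD : MeasurableSet D)
    [DecidablePred fun x : V => vw l x ∈ D] :
    (empIn G l β).real D = (((Ts G β).filter (fun x => vw l x ∈ D)).card : ℝ) / (Ts G β).card := by
  unfold empIn Measure.real
  rw [Measure.smul_apply, Measure.finset_sum_apply, smul_eq_mul, ENNReal.toReal_mul]
  have e1 : (∑ x ∈ Ts G β, (Measure.dirac (vw l x)) D) =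
      ((((Ts G β).filter (fun x => vw l x ∈ D)).card : ℕ) : ENNReal) := by
    rw [Finset.card_filter, Nat.cast_sum]
    refine Finset.sum_congr rfl fun x _ => ?_
    rw [Measure.dirac_apply' _ hD, Set.indicator_apply]
    split_ifs <;> simp
  rw [e1]
  simp only [ENNReal.toReal_inv, ENNReal.toReal_natCast]
  rw [div_eq_inv_mul]

/-- the places from which the walk and the piece look different -/
def Dif (R : Finset (Sym2 V)) (l β : List V) : Finset V :=
  (Ts G β).filter (fun x => ∃ e ∈ R, ¬ (vw l x e = true ↔ vw β x e = true))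

theorem cyl_dif {R S : Finset (Sym2 V)} {l β : List V} {x : V} (hx : x ∈ Ts G β)
    (h : x ∉ Dif G R l β) : vw l x ∈ Cyl R S ↔ vw β x ∈ Cyl R S := by
  have key : ∀ e ∈ R, (vw l x e = true ↔ vw β x e = true) := by
    intro e he
    by_contra hcon
    exact h (Finset.mem_filter.2 ⟨hx, e, he, hcon⟩)
  constructor
  · intro h1 e he
    rw [← key e he]
    exact h1 e he
  · intro h1 e he
    rw [key e he]
    exact h1 e he

theorem tr_snoc {s : List V} {b : V} {e : Sym2 V} (h : e ∈ tr (s ++ [b])) : ∃ u ∈ s, u ∈ e := by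
  obtain ⟨p, y, z, q, h1, rfl⟩ := mem_tr.1 h
  refine ⟨y, ?_, Sym2.mem_mk_left _ _⟩
  have h2 : s = (s ++ [b]).dropLast := by simp
  rw [h2, h1]
  rw [List.dropLast_append_of_ne_nil (by simp), List.dropLast_cons_of_ne_nil (by simp)]
  simp

theorem tr_cons' {t : List V} {b : V} {e : Sym2 V} (h : e ∈ tr (b :: t)) : ∃ u ∈ t, u ∈ e := by
  have h1 : e ∈ tr (t.reverse ++ [b]) := by
    rw [← List.reverse_cons, tr_reverse]
    exact h
  obtain ⟨u, hu, hue⟩ := tr_snoc h1
  exact ⟨u, List.mem_reverse.1 hu, hue⟩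

/-- the edges outside of a piece -/
theorem tr_three {s β t : List V} (hβ : β ≠ []) {e : Sym2 V} (h : e ∈ tr (s ++ β ++ t)) :
    e ∈ tr β ∨ ∃ u ∈ e, u ∈ s ∨ u ∈ t := by
  obtain ⟨b, r, rfl⟩ : ∃ b r, β = b :: r := by
    rcases β with - | ⟨b, r⟩
    · exact absurd rfl hβ
    · exact ⟨b, r, rfl⟩
  have e1 : s ++ b :: r ++ t = s ++ b :: (r ++ t) := by simp
  rw [e1, tr_append, Finset.mem_union] at h
  rcases h with h | h
  · obtain ⟨u, hu, hue⟩ := tr_snoc h
    exact Or.inr ⟨u, hue, Or.inl hu⟩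
  · rcases List.eq_nil_or_concat (b :: r) with h2 | ⟨r', z, h2⟩
    · simp at h2
    · rw [List.concat_eq_append] at h2
      have e2 : b :: (r ++ t) = r' ++ z :: t := by
        rw [← List.cons_append, h2]
        simp
      rw [e2, tr_append, Finset.mem_union] at h
      rcases h with h | h
      · left
        rw [h2]
        exact h
      · obtain ⟨u, hu, hue⟩ := tr_cons' h
        exact Or.inr ⟨u, hue, Or.inr hu⟩

theorem within_mono {k k' : ℕ} (h : k ≤ k') {a b : V} (hw : Within G k a b) : Within G k' a b := by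
  obtain ⟨p, h1, h2, h3, h4⟩ := hw
  exact ⟨p, h1, h2, h3, by omega⟩

/-- the radius of a window -/
theorem radius (R : Finset (Sym2 V)) : ∃ k : ℕ, ∀ e ∈ R, ∀ a ∈ e, (∃ j, Within G j 0 a) →
    Within G k 0 a := by
  have hex : ∀ a : V, ∃ k, (∃ j, Within G j 0 a) → Within G k 0 a := by
    intro a
    by_cases h : ∃ j, Within G j 0 a
    · obtain ⟨j, hj⟩ := h
      exact ⟨j, fun _ => hj⟩
    · exact ⟨0, fun h' => absurd h' h⟩
  choose f hf using hex
  refine ⟨(R.biUnion Sym2.toFinset).sup f, fun e he a ha h => ?_⟩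
  refine within_mono G (Finset.le_sup (f := f) ?_) (hf a h)
  rw [Finset.mem_biUnion]
  exact ⟨e, he, Sym2.mem_toFinset.2 ha⟩

/-- the reason for a difference -/
theorem dif_reason {R : Finset (Sym2 V)} {k : ℕ} (hk : ∀ e ∈ R, ∀ a ∈ e, (∃ j, Within G j 0 a) →
    Within G k 0 a) {s β t : List V} (hβ : β ≠ []) (hc : (s ++ β ++ t).IsChain G.Adj) {x : V}
    (hx : x ∈ Dif G R (s ++ β ++ t) β) :
    x ∈ β ∧ ∃ u, (u ∈ s ∨ u ∈ t) ∧ Within G k x u := by
  unfold Dif at hx
  rw [Finset.mem_filter] at hx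
  obtain ⟨hx1, e, he, hx2⟩ := hx
  unfold Ts at hx1
  rw [Finset.mem_filter, List.mem_toFinset] at hx1
  refine ⟨hx1.1, ?_⟩
  have hsub : tr β ⊆ tr (s ++ β ++ t) := by
    intro e' he'
    obtain ⟨p1, a, b, q1, rfl, rfl⟩ := mem_tr.1 he'
    exact mem_tr.2 ⟨s ++ p1, a, b, q1 ++ t, by simp, rfl⟩
  have h1 : Sym2.map (x + ·) e ∈ tr (s ++ β ++ t) ∧ Sym2.map (x + ·) e ∉ tr β := by
    rw [vw_iff, vw_iff] at hx2
    by_contra hcon
    rw [not_and_not_right] at hcon
    exact hx2 ⟨hcon, fun h => hsub h⟩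
  rcases tr_three hβ h1.1 with h2 | ⟨u, hu, hst⟩
  · exact absurd h2 h1.2
  · refine ⟨u, hst, ?_⟩
    rw [Sym2.mem_map] at hu
    obtain ⟨a, ha, rfl⟩ := hu
    have hxl : x ∈ s ++ β ++ t := by simp [hx1.1]
    have hul : x + a ∈ s ++ β ++ t := by
      rcases hst with h | h <;> simp [h]
    obtain ⟨i, hi⟩ := List.mem_iff_getElem?.1 hxl
    obtain ⟨j, hj⟩ := List.mem_iff_getElem?.1 hul
    obtain ⟨p, a1, a2, a3, a4⟩ := lnk_of_near G hc hx1.2 hi hj (m := i + j) (by omega) (by omega)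
    have h3 := hk e he a ha ⟨i + j, p, a1, a2, a3.imp fun a b h => h.1, a4⟩
    have h4 := within_shift G hx1.2 h3
    rwa [add_zero] at h4

variable [Countable V]

/-- the whole walk is close to a measure if the piece is -/
def CloseIn (x : ℝ) (κ : ℕ → ℕ → ℝ) (ε : ℝ) (R : Finset (Sym2 V)) (l β : List V) : Prop :=
  ∃ P : Measure (Cfg V), Inf G x κ P ∧
    ∀ S, S ⊆ R → |(empIn G l β).real (Cyl R S) - P.real (Cyl R S)| ≤ ε

theorem closeIn_of {x : ℝ} {κ : ℕ → ℕ → ℝ} {ε : ℝ} {R : Finset (Sym2 V)} {l β : List V}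
    (h : Close G x κ (ε / 2) R β) (hT : 0 < (Ts G β).card)
    (hd : ((Dif G R l β).card : ℝ) ≤ ε / 2 * (Ts G β).card) : CloseIn G x κ ε R l β := by
  obtain ⟨P, hP, h1⟩ := h
  refine ⟨P, hP, fun S hS => ?_⟩
  have hT0 : (0 : ℝ) < (Ts G β).card := by exact_mod_cast hT
  have h2 : |(empIn G l β).real (Cyl R S) - (emp G β).real (Cyl R S)| ≤ ε / 2 := by
    rw [empIn_real G (dep_cyl R S).meas, emp_real G (dep_cyl R S).meas, ← sub_div, abs_div,
      abs_of_pos hT0, div_le_iff₀ hT0]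
    refine le_trans ?_ hd
    obtain ⟨A, hA⟩ : ∃ A, A = (Ts G β).filter (fun x => vw l x ∈ Cyl R S) := ⟨_, rfl⟩
    obtain ⟨B, hB⟩ : ∃ B, B = (Ts G β).filter (fun x => vw β x ∈ Cyl R S) := ⟨_, rfl⟩
    rw [← hA, ← hB]
    have h3 : A.card ≤ B.card + (Dif G R l β).card := by
      refine (Finset.card_le_card (t := B ∪ Dif G R l β) ?_).trans (Finset.card_union_le _ _)
      intro x hx
      rw [Finset.mem_union]
      by_cases h : x ∈ Dif G R l β
      · exact Or.inr h
      · left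
        rw [hA, Finset.mem_filter] at hx
        rw [hB, Finset.mem_filter]
        exact ⟨hx.1, (cyl_dif G hx.1 h).1 hx.2⟩
    have h4 : B.card ≤ A.card + (Dif G R l β).card := by
      refine (Finset.card_le_card (t := A ∪ Dif G R l β) ?_).trans (Finset.card_union_le _ _)
      intro x hx
      rw [Finset.mem_union]
      by_cases h : x ∈ Dif G R l β
      · exact Or.inr h
      · left
        rw [hB, Finset.mem_filter] at hx
        rw [hA, Finset.mem_filter]
        exact ⟨hx.1, (cyl_dif G hx.1 h).2 hx.2⟩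
    have h3' : (A.card : ℝ) ≤ B.card + (Dif G R l β).card := by exact_mod_cast h3
    have h4' : (B.card : ℝ) ≤ A.card + (Dif G R l β).card := by exact_mod_cast h4
    rw [abs_le]
    constructor <;> linarith
  calc |(empIn G l β).real (Cyl R S) - P.real (Cyl R S)| =
      |((empIn G l β).real (Cyl R S) - (emp G β).real (Cyl R S)) +
        ((emp G β).real (Cyl R S) - P.real (Cyl R S))| := by congr 1; ring
    _ ≤ _ := abs_add_le _ _
    _ ≤ ε / 2 + ε / 2 := add_le_add h2 (h1 S hS)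
    _ = ε := by ring

end gen

/-- the number of the different views -/
theorem dif_count {R : Finset (Sym2 (ℤ × ℤ))} {k : ℕ}
    (hk : ∀ e ∈ R, ∀ a ∈ e, (∃ j, Within hexG j 0 a) → Within hexG k 0 a)
    {s β t : List (ℤ × ℤ)} (hβ : β ≠ []) (hc : (s ++ β ++ t).IsChain HexAdj) :
    (Dif hexG R (s ++ β ++ t) β).card ≤ nB (Nr {u | u ∈ s} k) β +
      (2 * k + 1) ^ 2 * nB (Nr {u | u ∈ β} k) t := by
  have hsub : Dif hexG R (s ++ β ++ t) β ⊆ β.toFinset.filter (fun x => x ∈ Nr {u | u ∈ s} k) ∪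
      (t.toFinset.filter (fun u => u ∈ Nr {u | u ∈ β} k)).biUnion (fun u => bx k u) := by
    intro x hx
    obtain ⟨h1, u, h2, h3⟩ := dif_reason hexG hk hβ hc hx
    rw [Finset.mem_union]
    rcases h2 with h2 | h2
    · left
      rw [Finset.mem_filter, List.mem_toFinset]
      refine ⟨h1, ?_⟩
      refine nr_sub ?_ (within_nr (within_symm hexG h3))
      intro w hw
      rw [Set.mem_singleton_iff] at hw
      rw [hw]
      exact h2
    · right
      rw [Finset.mem_biUnion]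
      refine ⟨u, ?_, ?_⟩
      · rw [Finset.mem_filter, List.mem_toFinset]
        refine ⟨h2, nr_sub ?_ (within_nr h3)⟩
        intro w hw
        rw [Set.mem_singleton_iff] at hw
        rw [hw]
        exact h1
      · rw [mem_bx]
        obtain ⟨a, ha, hcl⟩ := Nr_cl (within_nr (within_symm hexG h3))
        rw [Set.mem_singleton_iff] at ha
        subst ha
        obtain ⟨h7, h8⟩ := hcl
        refine ⟨?_, ?_⟩
        · rw [abs_sub_comm]; exact h7
        · rw [abs_sub_comm]; exact h8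
  refine (Finset.card_le_card hsub).trans ((Finset.card_union_le _ _).trans ?_)
  refine add_le_add le_rfl ?_
  rw [mul_comm]
  refine Finset.card_biUnion_le_card_mul _ _ _ fun u _ => ?_
  rw [bx_card]
  apply le_of_eq
  congr 1

/-- not crowded pieces -/
theorem good_piece {x : ℝ} {κ : ℕ → ℕ → ℝ} {ε : ℝ} {R : Finset (Sym2 (ℤ × ℤ))} {k : ℕ}
    (hk : ∀ e ∈ R, ∀ a ∈ e, (∃ j, Within hexG j 0 a) → Within hexG k 0 a)
    {l : List (ℤ × ℤ)} (hc : l.IsChain HexAdj) (hn : l.Nodup) {i k' m : ℕ} (hik : i + k' + 1 ≤ l.length)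
    (hm : m ≤ k') (hm1 : 1 ≤ m) {σ : ℝ}
    (hσ : (1 + (2 * k + 1) ^ 2) * ((KW : ℝ) ^ (k + 1) * σ) ≤ ε / 4)
    (h : Close hexG x κ (ε / 2) R ((l.drop i).take (k' + 1)))
    (h' : ¬ Crowd k (σ * m) i k' l) : CloseIn hexG x κ ε R l ((l.drop i).take (k' + 1)) := by
  obtain ⟨s, hs⟩ : ∃ s, s = l.take i := ⟨_, rfl⟩
  obtain ⟨β, hβ⟩ : ∃ β, β = (l.drop i).take (k' + 1) := ⟨_, rfl⟩
  obtain ⟨t, ht⟩ : ∃ t, t = (l.drop i).drop (k' + 1) := ⟨_, rfl⟩
  have hl : l = s ++ β ++ t := by
    rw [hs, hβ, ht, List.append_assoc, List.take_append_drop, List.take_append_drop]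
  have hβl : β.length = k' + 1 := by
    rw [hβ, List.length_take, List.length_drop]
    omega
  have hβ0 : β ≠ [] := by
    rintro h0
    rw [h0] at hβl
    simp at hβl
  unfold Crowd at h'
  rw [not_or] at h'
  obtain ⟨h1, h2⟩ := h'
  unfold Exc at h1 h2
  rw [not_lt] at h1 h2
  rw [List.take_take, min_eq_left (by omega), List.drop_take,
    show i + k' + 1 - i = k' + 1 by omega, ← hs, ← hβ] at h1
  rw [← hβ, ← ht] at h2
  rw [← hβ] at h ⊢
  have hTs : (k' : ℝ) ≤ 2 * (Ts hexG β).card := by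
    obtain ⟨b, r, hb⟩ : ∃ b r, β = b :: r := by
      rcases β with - | ⟨b, r⟩
      · exact absurd rfl hβ0
      · exact ⟨b, r, rfl⟩
    have hw : Walk hexG.Adj b β := by
      refine ⟨by rw [hb]; rfl, ?_, ?_⟩
      · rw [hβ]
        exact (List.take_sublist _ _).nodup ((List.drop_sublist _ _).nodup hn)
      · rw [hβ]
        exact (hc.drop _).take _
    have h3 := Ts_card hexG hw
    rw [hβl] at h3
    have : k' ≤ 2 * (Ts hexG β).card := by omega
    exact_mod_cast this
  have hm' : (m : ℝ) ≤ k' := by exact_mod_cast hm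
  have hm1' : (1 : ℝ) ≤ m := by exact_mod_cast hm1
  have hT0 : 0 < (Ts hexG β).card := by
    have : (0 : ℝ) < (Ts hexG β).card := by linarith
    exact_mod_cast this
  refine closeIn_of hexG h hT0 ?_
  have h3 := dif_count hk hβ0 (s := s) (t := t) (by rw [← hl]; exact hc)
  rw [← hl] at h3
  have h4 : ((Dif hexG R l β).card : ℝ) ≤ nB (Nr {u | u ∈ s} k) β +
      (2 * k + 1) ^ 2 * nB (Nr {u | u ∈ β} k) t := by exact_mod_cast h3
  have h5 : ((2 : ℝ) * k + 1) ^ 2 * nB (Nr {u | u ∈ β} k) t ≤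
      (2 * k + 1) ^ 2 * ((KW : ℝ) ^ (k + 1) * (σ * m)) := mul_le_mul_of_nonneg_left h2 (by positivity)
  have h6 : ((Dif hexG R l β).card : ℝ) ≤ ε / 4 * m := by
    calc ((Dif hexG R l β).card : ℝ) ≤ (KW : ℝ) ^ (k + 1) * (σ * m) +
          (2 * k + 1) ^ 2 * ((KW : ℝ) ^ (k + 1) * (σ * m)) := by linarith
      _ = (1 + (2 * k + 1) ^ 2) * ((KW : ℝ) ^ (k + 1) * σ) * m := by ring
      _ ≤ _ := mul_le_mul_of_nonneg_right hσ (by positivity)
  have hε : 0 ≤ ε / 4 := by
    by_contra hcon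
    push Not at hcon
    have h7 : (0 : ℝ) ≤ (Dif hexG R l β).card := Nat.cast_nonneg _
    nlinarith
  nlinarith

end

end U443.OS
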