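import Pool.Agent.U443.OS.Fml

/-!
# Walks from other starting points
-/

set_option autoImplicit false

namespace U443.OS

open Finset MeasureTheory Filter Topology U443.LG
open scoped Classical

noncomputable section

variable {V : Type} [AddCommGroup V] (G : Geo V)

theorem Ts_map {g : V} (hg : g ∈ G.T) (l : List V) :
    Ts G (l.map (g + ·)) = (Ts G l).image (g + ·) := by
  ext x
  unfold Ts
  rw [Finset.mem_filter, List.mem_toFinset, List.mem_map, Finset.mem_image]
  constructor
  · rintro ⟨⟨y, hy, rfl⟩, h2⟩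
    refine ⟨y, ?_, rfl⟩
    rw [Finset.mem_filter, List.mem_toFinset]
    refine ⟨hy, ?_⟩
    have := G.T.sub_mem h2 hg
    rwa [add_sub_cancel_left] at this
  · rintro ⟨y, hy, rfl⟩
    rw [Finset.mem_filter, List.mem_toFinset] at hy
    exact ⟨⟨y, hy.1, rfl⟩, G.T.add_mem hg hy.2⟩

theorem vw_map (g x : V) (l : List V) : vw (l.map (g + ·)) (g + x) = vw l x := by
  funext e
  unfold vw
  rw [tr_map, ← map_comp]
  congr 1
  exact propext sh_map

theorem emp_map {g : V} (hg : g ∈ G.T) (l : List V) : emp G (l.map (g + ·)) = emp G l := by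
  unfold emp
  rw [Ts_map G hg, Finset.card_image_of_injective _ (add_right_injective g),
    Finset.sum_image (fun a _ b _ h => add_left_cancel h)]
  congr 1
  exact Finset.sum_congr rfl fun x _ => by rw [vw_map]

theorem Ts_cons {v : V} (hv : v ∉ G.T) (l : List V) : Ts G (v :: l) = Ts G l := by
  ext x
  unfold Ts
  rw [Finset.mem_filter, Finset.mem_filter, List.mem_toFinset, List.mem_toFinset, List.mem_cons]
  constructor
  · rintro ⟨rfl | h1, h2⟩
    · exact absurd h2 hv
    · exact ⟨h1, h2⟩
  · rintro ⟨h1, h2⟩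
    exact ⟨Or.inr h1, h2⟩

/-- the starting points from which the added edge is seen in the window -/
theorem vw_cons {v x : V} {l : List V} {R : Finset (Sym2 V)} {S : Finset (Sym2 V)}
    (hx : x ∉ (R.biUnion Sym2.toFinset).image (fun a => v - a)) :
    vw (v :: l) x ∈ Cyl R S ↔ vw l x ∈ Cyl R S := by
  have key : ∀ e ∈ R, (vw (v :: l) x e = true ↔ vw l x e = true) := by
    intro e he
    rw [vw_iff, vw_iff]
    cases l with
    | nil => simp [tr]
    | cons w l =>
      simp only [tr, Finset.mem_insert]
      constructor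
      · rintro (h | h)
        · exfalso
          apply hx
          rw [Finset.mem_image]
          induction e with
          | _ a b =>
            rw [Sym2.map_mk, Sym2.eq_iff] at h
            rcases h with ⟨h, -⟩ | ⟨-, h⟩
            · refine ⟨a, ?_, by rw [← h]; abel⟩
              rw [Finset.mem_biUnion]
              exact ⟨_, he, by simp⟩
            · refine ⟨b, ?_, by rw [← h]; abel⟩
              rw [Finset.mem_biUnion]
              exact ⟨_, he, by simp⟩
        · exact h
      · exact Or.inr
  constructor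
  · intro h e he
    rw [← key e he]
    exact h e he
  · intro h e he
    rw [key e he]
    exact h e he

theorem card_win (R : Finset (Sym2 V)) (v : V) :
    ((R.biUnion Sym2.toFinset).image (fun a => v - a)).card ≤ 2 * R.card := by
  refine Finset.card_image_le.trans ?_
  rw [mul_comm]
  refine Finset.card_biUnion_le_card_mul _ _ 2 fun e _ => ?_
  induction e with
  | _ a b =>
    rw [Sym2.toFinset_mk_eq]
    exact Finset.card_le_two

variable [Countable V]

theorem emp_cons {v : V} (hv : v ∉ G.T) (l : List V) (R S : Finset (Sym2 V)) :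
    |(emp G (v :: l)).real (Cyl R S) - (emp G l).real (Cyl R S)| ≤
      2 * R.card / (Ts G l).card := by
  rw [emp_real G (dep_cyl R S).meas, emp_real G (dep_cyl R S).meas, Ts_cons G hv, ← sub_div,
    abs_div, abs_of_nonneg (show (0 : ℝ) ≤ (Ts G l).card from Nat.cast_nonneg _)]
  apply div_le_div_of_nonneg_right _ (Nat.cast_nonneg _)
  obtain ⟨F, hF⟩ : ∃ F : Finset V, F = (R.biUnion Sym2.toFinset).image (fun a => v - a) := ⟨_, rfl⟩
  obtain ⟨A, hA⟩ : ∃ A, A = (Ts G l).filter (fun x => vw (v :: l) x ∈ Cyl R S) := ⟨_, rfl⟩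
  obtain ⟨B, hB⟩ : ∃ B, B = (Ts G l).filter (fun x => vw l x ∈ Cyl R S) := ⟨_, rfl⟩
  rw [← hA, ← hB]
  have hFc := card_win R v
  rw [← hF] at hFc
  have h1 : A.card ≤ B.card + F.card := by
    refine (Finset.card_le_card (t := B ∪ F) ?_).trans (Finset.card_union_le _ _)
    intro x hx
    rw [Finset.mem_union]
    by_cases h : x ∈ F
    · exact Or.inr h
    · left
      rw [hA, Finset.mem_filter] at hx
      rw [hF] at h
      rw [hB, Finset.mem_filter]
      exact ⟨hx.1, (vw_cons h).1 hx.2⟩
  have h2 : B.card ≤ A.card + F.card := by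
    refine (Finset.card_le_card (t := A ∪ F) ?_).trans (Finset.card_union_le _ _)
    intro x hx
    rw [Finset.mem_union]
    by_cases h : x ∈ F
    · exact Or.inr h
    · left
      rw [hB, Finset.mem_filter] at hx
      rw [hF] at h
      rw [hA, Finset.mem_filter]
      exact ⟨hx.1, (vw_cons h).2 hx.2⟩
  have h1' : (A.card : ℝ) ≤ B.card + 2 * R.card := by
    have : A.card ≤ B.card + 2 * R.card := by omega
    exact_mod_cast this
  have h2' : (B.card : ℝ) ≤ A.card + 2 * R.card := by
    have : B.card ≤ A.card + 2 * R.card := by omega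
    exact_mod_cast this
  rw [abs_le]
  constructor <;> linarith

/-- walks from `v` with `n` steps -/
def WV (v : V) (n : ℕ) : Finset (List V) := (fin_ball G v n).toFinset

theorem mem_WV {v : V} {n : ℕ} {l : List V} : l ∈ WV G v n ↔ Walk G.Adj v l ∧ l.length = n + 1 := by
  unfold WV
  rw [Set.Finite.mem_toFinset]
  rfl

theorem close_mono {x : ℝ} {κ : ℕ → ℕ → ℝ} {ε ε' : ℝ} (h : ε ≤ ε') {R : Finset (Sym2 V)}
    {l : List V} (hl : Close G x κ ε R l) : Close G x κ ε' R l := by
  obtain ⟨P, h1, h2⟩ := hl
  exact ⟨P, h1, fun S hS => (h2 S hS).trans h⟩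

/-- starting points in `T` -/
theorem bad_T {x : ℝ} {κ : ℕ → ℕ → ℝ} {ε : ℝ} {R : Finset (Sym2 V)} {v : V} (hv : v ∈ G.T)
    (n : ℕ) : ((WV G v n).filter (fun l => ¬ Close G x κ ε R l)).card ≤
      ((WL G n).filter (fun l => ¬ Close G x κ ε R l)).card := by
  refine Finset.card_le_card_of_injOn (fun l => l.map (-v + ·)) ?_ ?_
  · intro l hl
    rw [Finset.mem_coe, Finset.mem_filter, mem_WV] at hl
    rw [Finset.mem_coe, Finset.mem_filter, mem_WL]
    refine ⟨⟨?_, by rw [List.length_map]; exact hl.1.2⟩, ?_⟩
    · have := walk_map G (G.T.neg_mem hv) hl.1.1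
      rwa [neg_add_cancel] at this
    · intro h
      apply hl.2
      obtain ⟨P, h1, h2⟩ := h
      refine ⟨P, h1, fun S hS => ?_⟩
      have h3 := h2 S hS
      rwa [emp_map G (G.T.neg_mem hv)] at h3
  · intro l _ l' _ h
    exact List.map_injective_iff.2 (add_right_injective (-v)) h

/-- other starting points -/
theorem bad_notT {x : ℝ} {κ : ℕ → ℕ → ℝ} {ε : ℝ} {R : Finset (Sym2 V)}
    {v : V} (hv : v ∉ G.T) {n : ℕ} (hn : 8 * (R.card : ℝ) ≤ ε * n) (hε : 0 < ε) :
    ((WV G v (n + 1)).filter (fun l => ¬ Close G x κ ε R l)).card ≤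
      (G.nb v).card * ((WL G n).filter (fun l => ¬ Close G x κ (ε / 2) R l)).card := by
  have h1 : ((WV G v (n + 1)).filter (fun l => ¬ Close G x κ ε R l)).card ≤
      ((G.nb v).biUnion (fun w => (WV G w n).filter
        (fun l => ¬ Close G x κ (ε / 2) R l))).card := by
    refine Finset.card_le_card_of_injOn List.tail ?_ ?_
    · intro l hl
      rw [Finset.mem_coe, Finset.mem_filter, mem_WV] at hl
      obtain ⟨⟨⟨h1, h2, h3⟩, h4⟩, h5⟩ := hl
      rcases l with - | ⟨a, l⟩
      · simp at h1
      simp only [List.head?_cons, Option.some.injEq] at h1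
      subst h1
      rcases l with - | ⟨b, l⟩
      · simp at h4
      rw [List.isChain_cons_cons] at h3
      rw [List.nodup_cons] at h2
      rw [Finset.mem_coe, Finset.mem_biUnion]
      refine ⟨b, (G.mem_nb _ _).2 h3.1, ?_⟩
      rw [Finset.mem_filter, mem_WV, List.tail_cons]
      refine ⟨⟨⟨rfl, h2.2, h3.2⟩, by simpa using h4⟩, fun h => ?_⟩
      apply h5
      obtain ⟨P, h6, h7⟩ := h
      refine ⟨P, h6, fun S hS => ?_⟩
      have h8 := h7 S hS
      have h9 := emp_cons G hv (b :: l) R S
      have h10 : 2 * (R.card : ℝ) / (Ts G (b :: l)).card ≤ ε / 2 := by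
        have h11 := Ts_card G (l := b :: l) (v := b) ⟨rfl, h2.2, h3.2⟩
        have h12 : (b :: l).length = n + 1 := by simpa using h4
        rw [h12] at h11
        have h13 : (n : ℝ) ≤ 2 * (Ts G (b :: l)).card := by
          have : n ≤ 2 * (Ts G (b :: l)).card := by omega
          exact_mod_cast this
        rcases Nat.eq_zero_or_pos (Ts G (b :: l)).card with h14 | h14
        · rw [h14]
          simp only [Nat.cast_zero, div_zero]
          positivity
        · have h15 : (0 : ℝ) < (Ts G (b :: l)).card := by exact_mod_cast h14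
          rw [div_le_iff₀ h15]
          nlinarith
      calc |(emp G (a :: b :: l)).real (Cyl R S) - P.real (Cyl R S)| =
          |((emp G (a :: b :: l)).real (Cyl R S) - (emp G (b :: l)).real (Cyl R S)) +
            ((emp G (b :: l)).real (Cyl R S) - P.real (Cyl R S))| := by congr 1; ring
        _ ≤ _ := abs_add_le _ _
        _ ≤ ε / 2 + ε / 2 := add_le_add (h9.trans h10) h8
        _ = ε := by ring
    · intro l hl l' hl' h
      rw [Finset.mem_coe, Finset.mem_filter, mem_WV] at hl hl'
      have h1 := hl.1.1.1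
      have h1' := hl'.1.1.1
      rcases l with - | ⟨a, l⟩
      · simp at h1
      rcases l' with - | ⟨a', l'⟩
      · simp at h1'
      simp only [List.head?_cons, Option.some.injEq] at h1 h1'
      simp only [List.tail_cons] at h
      rw [h1, h1', h]
  refine h1.trans ?_
  refine Finset.card_biUnion_le_card_mul _ _ _ fun w hw => ?_
  rcases G.half v w ((G.mem_nb _ _).1 hw) with h2 | h2
  · exact absurd h2 hv
  · exact bad_T G h2 n

end

end U443.OS
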