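import Pool.Agent.U443.OS.Sta

/-!
# The critical weight of the exceptional walks
-/

set_option autoImplicit false

namespace U443.OS

open Finset MeasureTheory Filter Topology U443.LG
open scoped Classical ENNReal

noncomputable section

/-- the bound for the pairs of close vertices -/
def kap (K d m : ℕ) : ℝ := (K : ℝ) ^ (d + 1) * Real.log m ^ 2 / m

theorem kap_tendsto (K d : ℕ) : Tendsto (kap K d) atTop (𝓝 0) := by
  unfold kap
  have h1 : Tendsto (fun x : ℝ => Real.log x ^ 2 / x) atTop (𝓝 0) := by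
    have h := Real.tendsto_pow_log_div_mul_add_atTop 1 0 2 one_ne_zero
    simpa using h
  have h2 := (h1.comp tendsto_natCast_atTop_atTop).const_mul ((K : ℝ) ^ (d + 1))
  rw [mul_zero] at h2
  refine h2.congr fun m => ?_
  simp only [Function.comp_apply]
  ring

theorem hex_thin : ∃ K : ℕ, 1 ≤ K ∧ Thin hexG (kap K) := by
  obtain ⟨K, hK1, hK⟩ := near_pairs
  refine ⟨6 * K, by omega, kap_tendsto _, fun d m hm => ?_⟩
  obtain ⟨c, hc, h1⟩ := hK d m hm
  refine ⟨c, hc, ?_⟩
  filter_upwards [h1] with n h2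
  refine le_trans (Nat.cast_le.2 (Finset.card_le_card ?_)) h2
  intro l hl
  rw [Finset.mem_filter] at hl ⊢
  refine ⟨hl.1, ?_⟩
  have h3 := hl.2
  have h4 := ((mem_WL _).1 hl.1).2
  rw [h4] at h3
  unfold kap at h3
  have hm0 : (0 : ℝ) < m := by
    have : 0 < m := by omega
    exact_mod_cast this
  obtain ⟨Y, hY⟩ : ∃ Y : ℝ, Y = (K : ℝ) ^ (d + 1) * Real.log m ^ 2 / m := ⟨_, rfl⟩
  have hY0 : 0 ≤ Y := by rw [hY]; positivity
  have e1 : (K : ℝ) ^ (d + 1) * Real.log m ^ 2 * n / m = Y * n := by rw [hY]; ring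
  have e2 : ((6 * K : ℕ) : ℝ) ^ (d + 1) * Real.log m ^ 2 / m = 6 ^ (d + 1) * Y := by
    rw [hY]
    push_cast
    rw [mul_pow]
    ring
  rw [e2] at h3
  rw [e1]
  have h6 : (6 : ℝ) ≤ 6 ^ (d + 1) := le_self_pow₀ (by norm_num) (by omega)
  have hn0 : (0 : ℝ) ≤ n := Nat.cast_nonneg _
  push_cast at h3
  have h7 : 6 * (Y * n) ≤ 6 ^ (d + 1) * Y * (n + 1) := by
    have h8 : 6 * (Y * n) ≤ 6 ^ (d + 1) * (Y * n) :=
      mul_le_mul_of_nonneg_right h6 (mul_nonneg hY0 hn0)
    have h9 : 0 ≤ 6 ^ (d + 1) * Y := by positivity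
    nlinarith
  linarith

/-- exceptional walks from any point -/
theorem bad_all {K : ℕ} (hth : Thin hexG (kap K)) {ε : ℝ} (hε : 0 < ε)
    (R : Finset (Sym2 (ℤ × ℤ))) : ∃ c : ℝ, 0 < c ∧ ∃ n0 : ℕ, ∀ n : ℕ, n0 ≤ n → ∀ v : ℤ × ℤ,
      (((WV hexG v n).filter (fun l => ¬ Close hexG (1 / mu) (kap K) ε R l)).card : ℝ) ≤
        Real.exp (-(c * n)) * mu ^ n := by
  obtain ⟨c, hc, h1⟩ := quenched_inf hexG hex_Growth hth (half_pos hε) R
  obtain ⟨H, hH⟩ := hex_Growth.up (c / 4) (by positivity)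
  have hmu := one_le_mu
  have hH0 : 0 < H := by
    have h1 := hH 0
    have h2 := hex_Growth.low 0
    simp only [pow_zero, Nat.cast_zero, mul_zero, Real.exp_zero, mul_one] at h1 h2
    linarith
  have hX : 0 < 3 * H * Real.exp (3 / 4 * c) := by positivity
  have hlim : Tendsto (fun n : ℕ => (c / 4) * (n : ℝ)) atTop atTop :=
    tendsto_natCast_atTop_atTop.const_mul_atTop (by positivity)
  have hlim2 : Tendsto (fun n : ℕ => ε * (n : ℝ)) atTop atTop :=
    tendsto_natCast_atTop_atTop.const_mul_atTop hε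
  obtain ⟨n1, hn1⟩ := eventually_atTop.1 (h1.and ((hlim.eventually_ge_atTop
    (Real.log (3 * H * Real.exp (3 / 4 * c)))).and (hlim2.eventually_ge_atTop (8 * (R.card : ℝ)))))
  refine ⟨c / 2, by positivity, n1 + 1, fun n hn v => ?_⟩
  have key : ∀ k : ℕ, n1 ≤ k →
      (((WL hexG k).filter (fun l => ¬ Close hexG (1 / mu) (kap K) (ε / 2) R l)).card : ℝ) ≤
        H * Real.exp (-(3 / 4 * c * k)) * mu ^ k := by
    intro k hk
    refine ((hn1 k hk).1).trans ?_
    calc Real.exp (-(c * k)) * ((WL hexG k).card : ℝ) ≤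
          Real.exp (-(c * k)) * (H * Real.exp (c / 4 * k) * mu ^ k) := by
          gcongr
          exact hH k
      _ = H * (Real.exp (-(c * k)) * Real.exp (c / 4 * k)) * mu ^ k := by ring
      _ = _ := by
          rw [← Real.exp_add]
          congr 3
          ring
  have hfin : 3 * H * Real.exp (3 / 4 * c) * Real.exp (-(3 / 4 * c * n)) ≤
      Real.exp (-(c / 2 * n)) := by
    rw [← Real.exp_log hX, ← Real.exp_add, Real.exp_le_exp]
    have := (hn1 n (by omega)).2.1
    linarith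
  have hmun : 0 < mu ^ n := by positivity
  by_cases hv : v ∈ hexG.T
  · have h2 : ((WV hexG v n).filter (fun l => ¬ Close hexG (1 / mu) (kap K) ε R l)).card ≤
        ((WL hexG n).filter (fun l => ¬ Close hexG (1 / mu) (kap K) (ε / 2) R l)).card := by
      refine (bad_T hexG hv n).trans (Finset.card_le_card ?_)
      intro l hl
      rw [Finset.mem_filter] at hl ⊢
      exact ⟨hl.1, fun h => hl.2 (close_mono hexG (by linarith) h)⟩
    have h3 := (Nat.cast_le (α := ℝ)).2 h2
    refine (h3.trans (key n (by omega))).trans ?_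
    apply mul_le_mul_of_nonneg_right _ hmun.le
    refine le_trans ?_ hfin
    have h4 : (1 : ℝ) ≤ Real.exp (3 / 4 * c) := Real.one_le_exp (by positivity)
    have h5 : 0 < Real.exp (-(3 / 4 * c * n)) := Real.exp_pos _
    apply mul_le_mul_of_nonneg_right _ h5.le
    nlinarith
  · obtain ⟨k, rfl⟩ : ∃ k, n = k + 1 := ⟨n - 1, by omega⟩
    have h2 := bad_notT hexG (x := 1 / mu) (κ := kap K) (ε := ε) (R := R) hv
      ((hn1 k (by omega)).2.2) hε
    have h3 : (hexG.nb v).card ≤ 3 := Finset.card_le_three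
    have h4 : ((WV hexG v (k + 1)).filter (fun l => ¬ Close hexG (1 / mu) (kap K) ε R l)).card ≤
        3 * ((WL hexG k).filter (fun l => ¬ Close hexG (1 / mu) (kap K) (ε / 2) R l)).card :=
      h2.trans (Nat.mul_le_mul_right _ h3)
    have h5 := (Nat.cast_le (α := ℝ)).2 h4
    rw [Nat.cast_mul] at h5
    refine h5.trans ?_
    calc ((3 : ℕ) : ℝ) * (((WL hexG k).filter (fun l => ¬ Close hexG (1 / mu) (kap K) (ε / 2) R l)).card : ℝ)
        ≤ 3 * (H * Real.exp (-(3 / 4 * c * k)) * mu ^ k) := by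
          push_cast
          gcongr
          exact key k (by omega)
      _ ≤ 3 * (H * Real.exp (-(3 / 4 * c * k)) * mu ^ (k + 1)) := by
          gcongr
          omega
      _ = 3 * H * Real.exp (3 / 4 * c) * Real.exp (-(3 / 4 * c * ((k + 1 : ℕ) : ℝ))) *
          mu ^ (k + 1) := by
          have e1 : Real.exp (-(3 / 4 * c * k)) =
              Real.exp (3 / 4 * c) * Real.exp (-(3 / 4 * c * ((k + 1 : ℕ) : ℝ))) := by
            rw [← Real.exp_add]
            congr 1
            push_cast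
            ring
          rw [e1]
          ring
      _ ≤ _ := mul_le_mul_of_nonneg_right hfin hmun.le

/-- **critical weight of the long walks with a rare property** -/
theorem sum_bad {E : List (ℤ × ℤ) → Prop} {c : ℝ} (hc : 0 < c) {n0 : ℕ}
    (h : ∀ n : ℕ, n0 ≤ n → ∀ v : ℤ × ℤ,
      (((WV hexG v n).filter (fun l => E l)).card : ℝ) ≤ Real.exp (-(c * n)) * mu ^ n)
    (v : ℤ × ℤ) {L : ℕ} (hL : n0 ≤ L) (F : Set (List (ℤ × ℤ)))
    (hF : ∀ l ∈ F, E l ∧ Walk HexAdj v l ∧ L + 1 ≤ l.length) :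
    ∑' l : F, ENNReal.ofReal (1 / mu) ^ (l.1.length - 1) ≤
      ENNReal.ofReal (Real.exp (-(c * L)) * (1 - Real.exp (-c))⁻¹) := by
  have hmu := one_le_mu
  have hmu0 : 0 < mu := lt_of_lt_of_le one_pos hmu
  obtain ⟨x, hx⟩ : ∃ x : ℝ≥0∞, x = ENNReal.ofReal (1 / mu) := ⟨_, rfl⟩
  obtain ⟨r, hr⟩ : ∃ r : ℝ≥0∞, r = ENNReal.ofReal (Real.exp (-c)) := ⟨_, rfl⟩
  rw [← hx]
  obtain ⟨g, hg⟩ : ∃ g : ℕ → List (ℤ × ℤ) → ℝ≥0∞, g = fun n l =>
      if L ≤ n ∧ l ∈ (WV hexG v n).filter (fun l => E l) then x ^ n else 0 := ⟨_, rfl⟩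
  have h1 : ∑' l : F, x ^ (l.1.length - 1) ≤ ∑' l : List (ℤ × ℤ), ∑' n, g n l := by
    rw [tsum_subtype F (fun l => x ^ (l.length - 1))]
    refine ENNReal.tsum_le_tsum fun l => ?_
    by_cases hl : l ∈ F
    · rw [Set.indicator_of_mem hl]
      obtain ⟨h2, h3, h4⟩ := hF l hl
      refine le_trans ?_ (ENNReal.le_tsum (l.length - 1))
      rw [hg]
      simp only
      rw [if_pos]
      refine ⟨by omega, ?_⟩
      rw [Finset.mem_filter, mem_WV]
      exact ⟨⟨h3, by omega⟩, h2⟩
    · rw [Set.indicator_of_notMem hl]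
      exact zero_le
  refine h1.trans ?_
  rw [ENNReal.tsum_comm]
  have h2 : ∀ n, ∑' l, g n l ≤ if L ≤ n then r ^ n else 0 := by
    intro n
    by_cases hn : L ≤ n
    · rw [if_pos hn, tsum_eq_sum (s := (WV hexG v n).filter (fun l => E l))]
      · have h3 : ∀ l ∈ (WV hexG v n).filter (fun l => E l), g n l = x ^ n := by
          intro l hl
          rw [hg]
          simp only
          rw [if_pos ⟨hn, hl⟩]
        rw [Finset.sum_congr rfl h3, Finset.sum_const, nsmul_eq_mul]
        have h4 := h n (by omega) v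
        have e1 : x ^ n = ENNReal.ofReal ((1 / mu) ^ n) := by
          rw [hx, ENNReal.ofReal_pow (by positivity)]
        have e2 : r ^ n = ENNReal.ofReal (Real.exp (-(c * n))) := by
          rw [hr, ← ENNReal.ofReal_pow (Real.exp_pos _).le, ← Real.exp_nat_mul]
          congr 2
          ring
        rw [e1, e2, ← ENNReal.ofReal_natCast, ← ENNReal.ofReal_mul (Nat.cast_nonneg _)]
        apply ENNReal.ofReal_le_ofReal
        calc (((WV hexG v n).filter (fun l => E l)).card : ℝ) * (1 / mu) ^ n ≤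
            (Real.exp (-(c * n)) * mu ^ n) * (1 / mu) ^ n := by gcongr
          _ = Real.exp (-(c * n)) := by
            rw [mul_assoc, ← mul_pow, mul_one_div_cancel hmu0.ne', one_pow, mul_one]
      · intro l hl
        rw [hg]
        simp only
        rw [if_neg]
        exact fun h5 => hl h5.2
    · rw [if_neg hn]
      have h3 : ∀ l, g n l = 0 := by
        intro l
        rw [hg]
        simp only
        rw [if_neg]
        exact fun h5 => hn h5.1
      simp [h3]
  refine (ENNReal.tsum_le_tsum h2).trans ?_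
  rw [← Summable.sum_add_tsum_nat_add' (k := L) ENNReal.summable]
  rw [Finset.sum_eq_zero (fun n hn => if_neg (by have := Finset.mem_range.1 hn; omega)), zero_add]
  have h3 : ∀ j, (if L ≤ j + L then r ^ (j + L) else 0) = r ^ L * r ^ j := by
    intro j
    rw [if_pos (by omega), pow_add, mul_comm]
  simp only [h3]
  rw [ENNReal.tsum_mul_left, ENNReal.tsum_geometric]
  have hc1 : Real.exp (-c) < 1 := by
    rw [Real.exp_lt_one_iff]
    linarith
  have e3 : (1 - r)⁻¹ = ENNReal.ofReal (1 - Real.exp (-c))⁻¹ := by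
    rw [ENNReal.ofReal_inv_of_pos (by linarith), ENNReal.ofReal_sub _ (Real.exp_pos _).le, hr,
      ENNReal.ofReal_one]
  have e4 : r ^ L = ENNReal.ofReal (Real.exp (-(c * L))) := by
    rw [hr, ← ENNReal.ofReal_pow (Real.exp_pos _).le, ← Real.exp_nat_mul]
    congr 2
    ring
  rw [e3, e4, ← ENNReal.ofReal_mul (Real.exp_pos _).le]

end

end U443.OS
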